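import Mathlib

set_option autoImplicit false

open MeasureTheory Set Metric Module
open scoped RealInnerProductSpace ENNReal

namespace Pool.Agent.Lib.MP_536123_gt

/-- Perturbation data for the support function `1 + h` on the unit sphere. -/
structure PData (E : Type*) [NormedAddCommGroup E] [InnerProductSpace ℝ E] where
  h : E → ℝ
  X : E → E
  c : ℝ
  c_nonneg : 0 ≤ c
  c_lt : c < 1
  hcont : Continuous h
  hom : ∀ (t : ℝ) (w : E), 0 < t → X (t • w) = X w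
  key : ∀ w w' : E, ‖w‖ = 1 → ‖w'‖ = 1 → |⟪X w, w'⟫ - h w'| ≤ c / 2 * ‖w - w'‖ ^ 2

/-- The convex set with constraints `⟪x, w⟫ ≤ s + h w`, `w` a unit vector. -/
def body {E : Type*} [NormedAddCommGroup E] [InnerProductSpace ℝ E] (h : E → ℝ) (s : ℝ) : Set E :=
  {x | ∀ w : E, ‖w‖ = 1 → ⟪x, w⟫ ≤ s + h w}

variable {E : Type*} [NormedAddCommGroup E] [InnerProductSpace ℝ E]

lemma inner_unit {w w' : E} (hw : ‖w‖ = 1) (hw' : ‖w'‖ = 1) :
    ⟪w, w'⟫ = 1 - ‖w - w'‖ ^ 2 / 2 := by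
  have := norm_sub_sq_real w w'
  rw [hw, hw'] at this
  linarith

lemma unit_of_ne {x : E} (hx : x ≠ 0) : ‖(‖x‖⁻¹ • x)‖ = 1 := by
  rw [norm_smul, norm_inv, norm_norm]
  exact inv_mul_cancel₀ (norm_ne_zero_iff.2 hx)

namespace PData

variable (P : PData E)

lemma euler {w : E} (hw : ‖w‖ = 1) : ⟪P.X w, w⟫ = P.h w := by
  have := P.key w w hw hw
  simp only [sub_self, norm_zero] at this
  norm_num at this
  linarith

lemma X_normalize {y : E} (hy : y ≠ 0) : P.X (‖y‖⁻¹ • y) = P.X y :=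
  P.hom _ _ (inv_pos.2 (norm_pos_iff.2 hy))

/-- The parametrisation `y ↦ y + X y` of the outside of the body. -/
def Phi (y : E) : E := y + P.X y

lemma upper {w w' : E} (hw : ‖w‖ = 1) (hw' : ‖w'‖ = 1) (s : ℝ) :
    ⟪s • w + P.X w, w'⟫ ≤ s + P.h w' - (s - P.c) / 2 * ‖w - w'‖ ^ 2 := by
  have h1 := (abs_le.1 (P.key w w' hw hw')).2
  rw [inner_add_left, real_inner_smul_left, inner_unit hw hw']
  nlinarith

lemma inner_self' {w : E} (hw : ‖w‖ = 1) (s : ℝ) :
    ⟪s • w + P.X w, w⟫ = s + P.h w := by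
  rw [inner_add_left, real_inner_smul_left, real_inner_self_eq_norm_sq, hw, P.euler hw]
  ring

lemma Phi_smul {w : E} {s : ℝ} (hs : 0 < s) : P.Phi (s • w) = s • w + P.X w := by
  rw [Phi, P.hom s w hs]

/-- Injectivity of `Phi` outside the unit ball. -/
lemma Phi_injOn : InjOn P.Phi {y | 1 ≤ ‖y‖} := by
  intro y hy y' hy' hyy
  have hy0 : y ≠ 0 := by
    rintro rfl
    simp only [mem_ofPred_eq, norm_zero] at hy
    linarith
  have hy'0 : y' ≠ 0 := by
    rintro rfl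
    simp only [mem_ofPred_eq, norm_zero] at hy'
    linarith
  set w := ‖y‖⁻¹ • y with hw
  set w' := ‖y'‖⁻¹ • y' with hw'
  have hwu : ‖w‖ = 1 := unit_of_ne hy0
  have hwu' : ‖w'‖ = 1 := unit_of_ne hy'0
  have ey : y = ‖y‖ • w := by
    rw [hw, smul_smul, mul_inv_cancel₀ (norm_ne_zero_iff.2 hy0), one_smul]
  have ey' : y' = ‖y'‖ • w' := by
    rw [hw', smul_smul, mul_inv_cancel₀ (norm_ne_zero_iff.2 hy'0), one_smul]
  have e1 : P.Phi y = ‖y‖ • w + P.X w := by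
    rw [Phi, hw, P.X_normalize hy0, ← hw, ← ey]
  have e2 : P.Phi y' = ‖y'‖ • w' + P.X w' := by
    rw [Phi, hw', P.X_normalize hy'0, ← hw', ← ey']
  have a1 := P.upper hwu hwu' ‖y‖
  have a2 := P.upper hwu' hwu ‖y'‖
  have b1 := P.inner_self' hwu' ‖y'‖
  have b2 := P.inner_self' hwu ‖y‖
  rw [← e1] at a1 b2
  rw [← e2] at a2 b1
  rw [hyy] at a1 b2
  rw [b1] at a1
  rw [b2] at a2
  have hc := P.c_lt
  have h1 : (1 : ℝ) ≤ ‖y‖ := hy
  have h2 : (1 : ℝ) ≤ ‖y'‖ := hy'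
  have hn : ‖w' - w‖ = ‖w - w'‖ := norm_sub_rev _ _
  rw [hn] at a2
  have h3 : ‖w - w'‖ ^ 2 = 0 := by nlinarith [sq_nonneg ‖w - w'‖]
  have h4 : w = w' := by
    have := pow_eq_zero_iff (two_ne_zero) |>.1 h3
    exact sub_eq_zero.1 (norm_eq_zero.1 this)
  rw [h3] at a1 a2
  have h5 : ‖y‖ = ‖y'‖ := by linarith
  rw [ey, ey', h5, h4]

/-- Every point at which some constraint is at least `1` is in the image of `Phi`. -/
lemma exists_Phi [FiniteDimensional ℝ E] {x w₀ : E} (hw₀ : ‖w₀‖ = 1)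
    (hx : 1 ≤ ⟪x, w₀⟫ - P.h w₀) :
    ∃ (m : ℝ) (w : E), 1 ≤ m ∧ ‖w‖ = 1 ∧ x = m • w + P.X w ∧
      ∀ w', ‖w'‖ = 1 → ⟪x, w'⟫ - P.h w' ≤ m := by
  have hcomp : IsCompact (sphere (0 : E) 1) := isCompact_sphere 0 1
  have hne : (sphere (0 : E) 1).Nonempty := ⟨w₀, by simpa using hw₀⟩
  have hc : Continuous (fun w : E => ⟪x, w⟫ - P.h w) :=
    (continuous_const.inner continuous_id).sub P.hcont
  obtain ⟨w, hw, hmax⟩ := hcomp.exists_isMaxOn hne hc.continuousOn
  have hwu : ‖w‖ = 1 := by simpa using hw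
  have hmax' : ∀ w', ‖w'‖ = 1 → ⟪x, w'⟫ - P.h w' ≤ ⟪x, w⟫ - P.h w := by
    intro w' hw'
    exact hmax (by simpa using hw')
  have hm : 1 ≤ ⟪x, w⟫ - P.h w := hx.trans (hmax' w₀ hw₀)
  set z := x - P.X w with hz
  have hzw : ⟪z, w⟫ = ⟪x, w⟫ - P.h w := by
    rw [hz, inner_sub_left, P.euler hwu]
  have hz0 : z ≠ 0 := by
    intro h0
    rw [h0, inner_zero_left] at hzw
    linarith
  have hznorm : 1 ≤ ‖z‖ := by
    have := real_inner_le_norm z w
    rw [hwu, mul_one] at this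
    linarith
  set v := ‖z‖⁻¹ • z with hv
  have hvu : ‖v‖ = 1 := unit_of_ne hz0
  have ez : z = ‖z‖ • v := by
    rw [hv, smul_smul, mul_inv_cancel₀ (norm_ne_zero_iff.2 hz0), one_smul]
  have k1 := (abs_le.1 (P.key w v hwu hvu)).1
  have k2 := hmax' v hvu
  have k3 : ⟪z, v⟫ = ‖z‖ := by
    rw [hv, real_inner_smul_right, real_inner_self_eq_norm_sq, sq, ← mul_assoc,
      inv_mul_cancel₀ (norm_ne_zero_iff.2 hz0), one_mul]
  have k4 : ⟪z, v⟫ = ⟪x, v⟫ - ⟪P.X w, v⟫ := by rw [hz, inner_sub_left]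
  have k5 : ⟪z, w⟫ = ‖z‖ * (1 - ‖w - v‖ ^ 2 / 2) := by
    conv_lhs => rw [ez]
    rw [real_inner_smul_left, inner_unit hvu hwu, norm_sub_rev v w]
  have hc1 := P.c_lt
  have k6 : ‖w - v‖ ^ 2 = 0 := by nlinarith [sq_nonneg ‖w - v‖]
  have k7 : w = v := by
    have := pow_eq_zero_iff (two_ne_zero) |>.1 k6
    exact sub_eq_zero.1 (norm_eq_zero.1 this)
  refine ⟨‖z‖, w, hznorm, hwu, ?_, ?_⟩
  · rw [k7, ← ez, hz, ← k7]
    abel
  · intro w' hw'
    have := hmax' w' hw'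
    rw [k6] at k5
    linarith

lemma smul_add_mem_body {w : E} (hw : ‖w‖ = 1) {s t : ℝ} (h1 : 1 ≤ s) (hst : s ≤ t) :
    s • w + P.X w ∈ body P.h t := by
  intro w' hw'
  have := P.upper hw hw' s
  have hc := P.c_lt
  nlinarith [sq_nonneg ‖w - w'‖]

lemma not_mem_body {w : E} (hw : ‖w‖ = 1) {s t : ℝ} (hst : t < s) :
    s • w + P.X w ∉ body P.h t := by
  intro h
  have := h w hw
  rw [P.inner_self' hw s] at this
  linarith

lemma body_diff [FiniteDimensional ℝ E] {r : ℝ} :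
    body P.h (1 + r) \ body P.h 1 = P.Phi '' {y | 1 < ‖y‖ ∧ ‖y‖ ≤ 1 + r} := by
  ext x
  constructor
  · rintro ⟨hx1, hx2⟩
    have : ∃ w₀ : E, ‖w₀‖ = 1 ∧ 1 < ⟪x, w₀⟫ - P.h w₀ := by
      by_contra hcon
      push Not at hcon
      apply hx2
      intro w hw
      have := hcon w hw
      linarith
    obtain ⟨w₀, hw₀, hx3⟩ := this
    obtain ⟨m, w, hm, hw, rfl, hmax⟩ := P.exists_Phi hw₀ hx3.le
    have hm1 : 1 < m := by
      have := hmax w₀ hw₀
      linarith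
    have hm2 : m ≤ 1 + r := by
      have := hx1 w hw
      rw [P.inner_self' hw m] at this
      linarith
    refine ⟨m • w, ⟨?_, ?_⟩, ?_⟩
    · rw [norm_smul, hw, mul_one, Real.norm_of_nonneg (by linarith)]
      exact hm1
    · rw [norm_smul, hw, mul_one, Real.norm_of_nonneg (by linarith)]
      exact hm2
    · exact P.Phi_smul (by linarith)
  · rintro ⟨y, ⟨hy1, hy2⟩, rfl⟩
    have hy0 : y ≠ 0 := by
      rintro rfl
      simp only [norm_zero] at hy1
      linarith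
    have hwu : ‖(‖y‖⁻¹ • y)‖ = 1 := unit_of_ne hy0
    have e1 : P.Phi y = ‖y‖ • (‖y‖⁻¹ • y) + P.X (‖y‖⁻¹ • y) := by
      rw [Phi, P.X_normalize hy0, smul_smul, mul_inv_cancel₀ (norm_ne_zero_iff.2 hy0), one_smul]
    rw [e1]
    exact ⟨P.smul_add_mem_body hwu hy1.le hy2, P.not_mem_body hwu hy1⟩

lemma isClosed_body (h : E → ℝ) (s : ℝ) : IsClosed (body h s) := by
  have : body h s = ⋂ w : E, ⋂ _ : ‖w‖ = 1, {x : E | ⟪x, w⟫ ≤ s + h w} := by
    ext x
    simp [body]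
  rw [this]
  refine isClosed_iInter fun w => isClosed_iInter fun _ => ?_
  exact isClosed_le (continuous_id.inner continuous_const) continuous_const

lemma convex_body (h : E → ℝ) (s : ℝ) : Convex ℝ (body h s) := by
  intro x hx y hy a b ha hb hab w hw
  rw [inner_add_left, real_inner_smul_left, real_inner_smul_left]
  have h1 := hx w hw
  have h2 := hy w hw
  have : s + h w = a * (s + h w) + b * (s + h w) := by rw [← add_mul, hab, one_mul]
  rw [this]
  gcongr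

lemma isCompact_body [FiniteDimensional ℝ E] (s : ℝ) : IsCompact (body P.h s) := by
  have : ProperSpace E := FiniteDimensional.proper ℝ E
  obtain ⟨M, hM⟩ : ∃ M, ∀ w ∈ sphere (0 : E) 1, P.h w ≤ M := by
    obtain ⟨M, hM⟩ := (isCompact_sphere (0 : E) 1).bddAbove_image P.hcont.continuousOn
    exact ⟨M, fun w hw => hM ⟨w, hw, rfl⟩⟩
  apply Metric.isCompact_of_isClosed_isBounded (isClosed_body _ _)
  rw [isBounded_iff_forall_norm_le]
  refine ⟨max 0 (s + M), fun x hx => ?_⟩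
  by_cases hx0 : x = 0
  · rw [hx0, norm_zero]
    exact le_max_left _ _
  · have h1 := hx (‖x‖⁻¹ • x) (unit_of_ne hx0)
    rw [real_inner_smul_right, real_inner_self_eq_norm_sq, sq, ← mul_assoc,
      inv_mul_cancel₀ (norm_ne_zero_iff.2 hx0), one_mul] at h1
    have h2 := hM (‖x‖⁻¹ • x) (by simpa using unit_of_ne hx0)
    exact (h1.trans (by linarith)).trans (le_max_right _ _)

/-- The closed `r`-neighbourhood of the body. -/
lemma cthickening_body [FiniteDimensional ℝ E] {r : ℝ} (hr : 0 ≤ r) :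
    cthickening r (body P.h 1) = body P.h (1 + r) := by
  ext x
  constructor
  · intro hx w hw
    rw [(P.isCompact_body 1).cthickening_eq_biUnion_closedBall hr] at hx
    simp only [mem_iUnion, mem_closedBall, exists_prop] at hx
    obtain ⟨y, hy, hxy⟩ := hx
    have h1 := hy w hw
    have h2 : ⟪x, w⟫ = ⟪y, w⟫ + ⟪x - y, w⟫ := by rw [inner_sub_left]; ring
    have h3 := real_inner_le_norm (x - y) w
    rw [hw, mul_one, ← dist_eq_norm] at h3
    linarith
  · intro hx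
    by_cases hx1 : x ∈ body P.h 1
    · exact self_subset_cthickening _ hx1
    · have : x ∈ P.Phi '' {y | 1 < ‖y‖ ∧ ‖y‖ ≤ 1 + r} := by
        rw [← P.body_diff]
        exact ⟨hx, hx1⟩
      obtain ⟨y, ⟨hy1, hy2⟩, rfl⟩ := this
      have hy0 : y ≠ 0 := by
        rintro rfl
        simp only [norm_zero] at hy1
        linarith
      have hwu : ‖(‖y‖⁻¹ • y)‖ = 1 := unit_of_ne hy0
      set w := ‖y‖⁻¹ • y with hw
      have e1 : P.Phi y = ‖y‖ • w + P.X w := by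
        rw [Phi, hw, P.X_normalize hy0, smul_smul, mul_inv_cancel₀ (norm_ne_zero_iff.2 hy0),
          one_smul]
      have hmem : (1 : ℝ) • w + P.X w ∈ body P.h 1 := P.smul_add_mem_body hwu le_rfl le_rfl
      apply mem_cthickening_of_dist_le _ _ _ _ hmem
      rw [e1, dist_eq_norm]
      have : ‖y‖ • w + P.X w - ((1 : ℝ) • w + P.X w) = (‖y‖ - 1) • w := by
        rw [sub_smul]; abel
      rw [this, norm_smul, hwu, mul_one, Real.norm_of_nonneg (by linarith)]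
      linarith

end PData

end Pool.Agent.Lib.MP_536123_gt
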