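import Mathlib
import Pool.Agent.Lib.MP_536123_gt.Abstract

set_option autoImplicit false

open MeasureTheory Set Metric Module Filter Topology
open scoped RealInnerProductSpace ENNReal

namespace Pool.Agent.Lib.MP_536123_gt

variable {E : Type*} [NormedAddCommGroup E] [InnerProductSpace ℝ E]

namespace PData

variable (P : PData E)

lemma mono_aux {w v : E} (hw : ‖w‖ = 1) (hv : ⟪w, v⟫ = 0) :
    -(P.c * ‖v‖ ^ 2) ≤ ⟪P.X (w + v) - P.X w, v⟫ := by
  set y := w + v with hy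
  have hy2 : ‖y‖ ^ 2 = 1 + ‖v‖ ^ 2 := by
    rw [hy, norm_add_sq_real, hw, hv]; ring
  have hy1 : 1 ≤ ‖y‖ := by
    have : (1 : ℝ) ≤ ‖y‖ ^ 2 := by rw [hy2]; nlinarith [sq_nonneg ‖v‖]
    nlinarith [norm_nonneg y]
  have hy0 : y ≠ 0 := by
    intro h
    rw [h, norm_zero] at hy1
    linarith
  set w' := ‖y‖⁻¹ • y with hw'
  have hwu' : ‖w'‖ = 1 := unit_of_ne hy0
  have ey : y = ‖y‖ • w' := by
    rw [hw', smul_smul, mul_inv_cancel₀ (norm_ne_zero_iff.2 hy0), one_smul]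
  have eX : P.X y = P.X w' := (P.X_normalize hy0).symm
  have ev : v = ‖y‖ • w' - w := by rw [← ey, hy]; abel
  have k1 := (abs_le.1 (P.key w w' hw hwu')).2
  have k2 := (abs_le.1 (P.key w' w hwu' hw)).2
  have e1 := P.euler hw
  have e2 := P.euler hwu'
  have e3 := inner_unit hw hwu'
  have hn : ‖w' - w‖ = ‖w - w'‖ := norm_sub_rev _ _
  rw [hn] at k2
  have e4 : ⟪P.X y - P.X w, v⟫ = ‖y‖ * (P.h w' - ⟪P.X w, w'⟫) - (⟪P.X w', w⟫ - P.h w) := by
    have a1 := real_inner_smul_right (P.X w') w' ‖y‖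
    have a2 := real_inner_smul_right (P.X w) w' ‖y‖
    rw [eX, ev, inner_sub_left, inner_sub_right, inner_sub_right, a1, a2, e1, e2]
    ring
  have e5 : ‖v‖ ^ 2 = (‖y‖ - 1) ^ 2 + ‖y‖ * ‖w - w'‖ ^ 2 := by
    have : ‖v‖ ^ 2 = ‖y‖ ^ 2 - 2 * (‖y‖ * ⟪w, w'⟫) + 1 := by
      rw [ev, norm_sub_sq_real, norm_smul, hwu', hw, real_inner_smul_left, real_inner_comm,
        Real.norm_of_nonneg (norm_nonneg _)]
      ring
    rw [this, e3]
    ring
  rw [e4, e5]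
  have hc := P.c_nonneg
  have hq := sq_nonneg ‖w - w'‖
  have h1 : ‖y‖ * (P.h w' - ⟪P.X w, w'⟫) ≥ ‖y‖ * (-(P.c / 2 * ‖w - w'‖ ^ 2)) :=
    mul_le_mul_of_nonneg_left (by linarith) (by linarith)
  have h2 : P.c * ‖w - w'‖ ^ 2 * (‖y‖ - 1) ≥ 0 :=
    mul_nonneg (mul_nonneg hc hq) (by linarith)
  have h3 : P.c * (‖y‖ - 1) ^ 2 ≥ 0 := mul_nonneg hc (sq_nonneg _)
  nlinarith

variable (hd : ∀ y : E, y ≠ 0 → DifferentiableAt ℝ P.X y)

include hd

lemma fderiv_mono {w v : E} (hw : ‖w‖ = 1) (hv : ⟪w, v⟫ = 0) :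
    -(P.c * ‖v‖ ^ 2) ≤ ⟪fderiv ℝ P.X w v, v⟫ := by
  have hw0 : w ≠ 0 := by
    rintro rfl
    simp at hw
  have h1 : HasDerivAt (fun t : ℝ => P.X (w + t • v)) (fderiv ℝ P.X w v) 0 := by
    have h2 : HasDerivAt (fun t : ℝ => w + t • v) v 0 := by
      have := (((hasDerivAt_id (0 : ℝ)).smul_const v).const_add w)
      simpa using this
    have h3 : HasFDerivAt P.X (fderiv ℝ P.X w) (w + (0 : ℝ) • v) := by
      rw [zero_smul, add_zero]
      exact (hd w hw0).hasFDerivAt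
    exact h3.comp_hasDerivAt 0 h2
  have h4 := h1.tendsto_slope_zero_right
  have h5 : Tendsto (fun t : ℝ => ⟪t⁻¹ • (P.X (w + (0 + t) • v) - P.X (w + (0 : ℝ) • v)), v⟫)
      (𝓝[>] 0) (𝓝 ⟪fderiv ℝ P.X w v, v⟫) := h4.inner tendsto_const_nhds
  refine ge_of_tendsto h5 ?_
  filter_upwards [self_mem_nhdsWithin] with t ht
  have ht' : (0 : ℝ) < t := ht
  have := P.mono_aux (v := t • v) hw (by rw [real_inner_smul_right, hv, mul_zero])
  rw [zero_add, zero_smul, add_zero, real_inner_smul_left]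
  rw [real_inner_smul_right, norm_smul, Real.norm_of_nonneg ht'.le] at this
  rw [inv_mul_eq_div, le_div_iff₀ ht']
  have h6 : t * (-(P.c * ‖v‖ ^ 2) * t) ≤ t * ⟪P.X (w + t • v) - P.X w, v⟫ := by
    calc _ = -(P.c * (t * ‖v‖) ^ 2) := by ring
      _ ≤ _ := this
  exact le_of_mul_le_mul_left h6 ht'

lemma fderiv_self {w : E} (hw : w ≠ 0) : fderiv ℝ P.X w w = 0 := by
  have h1 : HasDerivAt (fun t : ℝ => P.X (w + t • w)) (fderiv ℝ P.X w w) 0 := by
    have h2 : HasDerivAt (fun t : ℝ => w + t • w) w 0 := by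
      have := (((hasDerivAt_id (0 : ℝ)).smul_const w).const_add w)
      simpa using this
    have h3 : HasFDerivAt P.X (fderiv ℝ P.X w) (w + (0 : ℝ) • w) := by
      rw [zero_smul, add_zero]
      exact (hd w hw).hasFDerivAt
    exact h3.comp_hasDerivAt 0 h2
  have h2 : HasDerivAt (fun t : ℝ => P.X (w + t • w)) 0 0 := by
    have : (fun t : ℝ => P.X (w + t • w)) =ᶠ[𝓝 0] fun _ => P.X w := by
      have : ∀ᶠ t : ℝ in 𝓝 0, -1 < t := eventually_gt_nhds (by norm_num)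
      filter_upwards [this] with t ht
      have : w + t • w = (1 + t) • w := by rw [add_smul, one_smul]
      rw [this, P.hom _ _ (by linarith)]
    exact (hasDerivAt_const (0 : ℝ) (P.X w)).congr_of_eventuallyEq this
  exact h1.unique h2

lemma fderiv_smul {w : E} (hw : w ≠ 0) {s : ℝ} (hs : 0 < s) :
    fderiv ℝ P.X (s • w) = s⁻¹ • fderiv ℝ P.X w := by
  have h0 : s • w ≠ 0 := smul_ne_zero hs.ne' hw
  have h1 : HasFDerivAt P.X (fderiv ℝ P.X (s • w)) (s • w) := (hd _ h0).hasFDerivAt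
  have h2 : HasFDerivAt (fun y : E => s • y) (s • ContinuousLinearMap.id ℝ E) w :=
    (hasFDerivAt_id w).const_smul s
  have h3 : HasFDerivAt (fun y : E => P.X (s • y))
      ((fderiv ℝ P.X (s • w)).comp (s • ContinuousLinearMap.id ℝ E)) w :=
    HasFDerivAt.comp w h1 h2
  have h4 : (fun y : E => P.X (s • y)) = P.X := by
    ext1 y
    exact P.hom s y hs
  rw [h4] at h3
  rw [h3.fderiv]
  ext x
  simp [hs.ne']

lemma det_pos [FiniteDimensional ℝ E] {w : E} (hw : ‖w‖ = 1) {t : ℝ} (ht0 : 0 ≤ t)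
    (ht1 : t ≤ 1) : 0 < (ContinuousLinearMap.id ℝ E + t • fderiv ℝ P.X w).det := by
  by_contra hcon
  push Not at hcon
  have hw0 : w ≠ 0 := by
    rintro rfl
    simp at hw
  have hf : Continuous (fun t : ℝ => (ContinuousLinearMap.id ℝ E + t • fderiv ℝ P.X w).det) := by
    apply ContinuousLinearMap.continuous_det.comp
    fun_prop
  have h0 : (ContinuousLinearMap.id ℝ E + (0 : ℝ) • fderiv ℝ P.X w).det = 1 := by
    rw [zero_smul, add_zero]
    exact LinearMap.det_id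
  obtain ⟨t₀, ht₀, hz⟩ : ∃ t₀ ∈ Icc 0 t,
      (ContinuousLinearMap.id ℝ E + t₀ • fderiv ℝ P.X w).det = 0 := by
    have := intermediate_value_Icc' ht0 hf.continuousOn
    exact this ⟨hcon, by simp only [h0]; norm_num⟩
  have hker : LinearMap.det ((ContinuousLinearMap.id ℝ E + t₀ • fderiv ℝ P.X w : E →L[ℝ] E) :
      E →ₗ[ℝ] E) = 0 := hz
  have := LinearMap.bot_lt_ker_of_det_eq_zero hker
  obtain ⟨x, hx, hx0⟩ := (Submodule.ne_bot_iff _).1 this.ne'
  have hx' : x + t₀ • fderiv ℝ P.X w x = 0 := by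
    have := LinearMap.mem_ker.1 hx
    simpa using this
  set α := ⟪w, x⟫ with hα
  set v := x - α • w with hv
  have hwv : ⟪w, v⟫ = 0 := by
    rw [hv, inner_sub_right, real_inner_smul_right, real_inner_self_eq_norm_sq, hw, ← hα]
    ring
  have hx2 : x = α • w + v := by rw [hv]; abel
  have hDx : fderiv ℝ P.X w x = fderiv ℝ P.X w v := by
    rw [hv, map_sub, map_smul, P.fderiv_self hd hw0, smul_zero, sub_zero]
  rw [hDx] at hx'
  have h1 : ⟪x, v⟫ = ‖v‖ ^ 2 := by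
    rw [hx2, inner_add_left, real_inner_smul_left, hwv, real_inner_self_eq_norm_sq]
    ring
  have h2 : ⟪x, v⟫ + t₀ * ⟪fderiv ℝ P.X w v, v⟫ = 0 := by
    have : ⟪x + t₀ • fderiv ℝ P.X w v, v⟫ = 0 := by rw [hx', inner_zero_left]
    rwa [inner_add_left, real_inner_smul_left] at this
  have h3 := P.fderiv_mono hd hw hwv
  rw [h1] at h2
  have hc := P.c_lt
  have hc0 := P.c_nonneg
  have ht01 : t₀ ≤ 1 := ht₀.2.trans ht1
  have h4 : t₀ * ⟪fderiv ℝ P.X w v, v⟫ ≥ t₀ * (-(P.c * ‖v‖ ^ 2)) :=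
    mul_le_mul_of_nonneg_left h3 ht₀.1
  have h5 : t₀ * (P.c * ‖v‖ ^ 2) ≤ 1 * (P.c * ‖v‖ ^ 2) :=
    mul_le_mul_of_nonneg_right ht01 (mul_nonneg hc0 (sq_nonneg _))
  have h6 : ‖v‖ ^ 2 = 0 := by nlinarith [sq_nonneg ‖v‖]
  have h7 : v = 0 := by
    have := pow_eq_zero_iff (two_ne_zero) |>.1 h6
    exact norm_eq_zero.1 this
  rw [h7, map_zero, smul_zero, add_zero] at hx'
  exact hx0 hx'

end PData

end Pool.Agent.Lib.MP_536123_gt
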