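import Mathlib
import Pool.Agent.Lib.MP_536123_gt.Vol

set_option autoImplicit false

open MeasureTheory Set Metric Module Filter Topology
open scoped RealInnerProductSpace ENNReal

namespace Pool.Agent.Lib.MP_536123_gt

variable {E : Type*} [NormedAddCommGroup E] [InnerProductSpace ℝ E]

/-- The annulus. -/
def ann (E : Type*) [NormedAddCommGroup E] (r : ℝ) : Set E := {y | 1 < ‖y‖ ∧ ‖y‖ ≤ 1 + r}

lemma measurableSet_ann [MeasurableSpace E] [BorelSpace E] (r : ℝ) :
    MeasurableSet (ann E r) := by
  unfold ann
  exact (measurableSet_lt measurable_const measurable_norm).inter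
    (measurableSet_le measurable_norm measurable_const)

/-- polar coordinates on an annulus -/
lemma polar_ann [FiniteDimensional ℝ E] [MeasurableSpace E] [BorelSpace E] [Nontrivial E]
    (G : E → ℝ) (g : ℝ → ℝ) {r : ℝ} (hr : 0 ≤ r) :
    ∫ y in ann E r, g ‖y‖ * G (‖y‖⁻¹ • y) =
      (∫ w : sphere (0 : E) 1, G w ∂((volume : Measure E).toSphere)) *
        ∫ t in (1 : ℝ)..(1 + r), t ^ (finrank ℝ E - 1) * g t := by
  classical
  set k : ℝ → ℝ := (Ioc 1 (1 + r)).indicator g with hk
  calc
    ∫ y in ann E r, g ‖y‖ * G (‖y‖⁻¹ • y) = ∫ y : E, k ‖y‖ * G (‖y‖⁻¹ • y) := by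
      rw [← integral_indicator (measurableSet_ann r)]
      congr 1
      ext y
      by_cases hy : y ∈ ann E r
      · rw [indicator_of_mem hy, hk, indicator_of_mem (show ‖y‖ ∈ Ioc 1 (1 + r) from hy)]
      · rw [indicator_of_notMem hy, hk, indicator_of_notMem (show ‖y‖ ∉ Ioc 1 (1 + r) from hy),
          zero_mul]
    _ = ∫ y : ({(0 : E)}ᶜ : Set E), k ‖y.1‖ * G (‖y.1‖⁻¹ • y.1) ∂((volume : Measure E).comap (↑)) := by
      rw [integral_subtype_comap (measurableSet_singleton _).compl
        fun y : E => k ‖y‖ * G (‖y‖⁻¹ • y), MeasureTheory.restrict_compl_singleton]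
    _ = ∫ p : sphere (0 : E) 1 × Ioi (0 : ℝ), G p.1 * k p.2
          ∂((volume : Measure E).toSphere.prod (.volumeIoiPow (finrank ℝ E - 1))) := by
      have := (volume : Measure E).measurePreserving_homeomorphUnitSphereProd.integral_comp
        (Homeomorph.measurableEmbedding _)
        (fun p : sphere (0 : E) 1 × Ioi (0 : ℝ) => G p.1 * k p.2)
      rw [← this]
      congr 1
      ext y
      simp only [homeomorphUnitSphereProd_apply_fst_coe, homeomorphUnitSphereProd_apply_snd_coe]
      ring
    _ = (∫ w : sphere (0 : E) 1, G w ∂((volume : Measure E).toSphere)) *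
        ∫ t : Ioi (0 : ℝ), k t ∂(.volumeIoiPow (finrank ℝ E - 1)) :=
      integral_prod_mul (fun w : sphere (0 : E) 1 => G w) (fun t : Ioi (0 : ℝ) => k t)
    _ = _ := by
      congr 1
      simp only [Measure.volumeIoiPow, ENNReal.ofReal]
      rw [integral_withDensity_eq_integral_smul,
        integral_subtype_comap measurableSet_Ioi
          fun a ↦ Real.toNNReal (a ^ (finrank ℝ E - 1)) • k a,
        setIntegral_congr_fun (g := fun t => k t * t ^ (finrank ℝ E - 1)) measurableSet_Ioi
          fun x hx ↦ ?_]
      · rw [intervalIntegral.integral_of_le (by linarith)]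
        have h1 : ∀ t : ℝ, k t * t ^ (finrank ℝ E - 1) =
            (Ioc 1 (1 + r)).indicator (fun t => t ^ (finrank ℝ E - 1) * g t) t := by
          intro t
          by_cases ht : t ∈ Ioc 1 (1 + r)
          · rw [hk, indicator_of_mem ht, indicator_of_mem ht, mul_comm]
          · rw [hk, indicator_of_notMem ht, indicator_of_notMem ht, zero_mul]
        simp_rw [h1]
        rw [setIntegral_indicator measurableSet_Ioc]
        congr 2
        ext t
        simp only [mem_inter_iff, mem_Ioi, mem_Ioc]
        constructor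
        · rintro ⟨_, h⟩
          exact h
        · rintro ⟨h1, h2⟩
          exact ⟨by linarith, h1, h2⟩
      · rw [NNReal.smul_def, Real.coe_toNNReal _ (pow_nonneg hx.out.le _), smul_eq_mul, mul_comm]
      · exact (measurable_subtype_coe.pow_const _).real_toNNReal

end Pool.Agent.Lib.MP_536123_gt
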