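import Mathlib
import Pool.Agent.Lib.MP_536123_gt.Polar

set_option autoImplicit false

open MeasureTheory Set Metric Module Filter Topology
open scoped RealInnerProductSpace ENNReal

namespace Pool.Agent.Lib.MP_536123_gt

/-- matrix entries of an endomorphism of Euclidean space -/
noncomputable def ent {n : ℕ} (D : EuclideanSpace ℝ (Fin n) →L[ℝ] EuclideanSpace ℝ (Fin n))
    (j k : Fin n) : ℝ := D (EuclideanSpace.single k 1) j

lemma det_eq_ent {n : ℕ} (D : EuclideanSpace ℝ (Fin n) →L[ℝ] EuclideanSpace ℝ (Fin n)) :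
    D.det = (Matrix.of (ent D)).det := by
  have h := LinearMap.det_toMatrix (EuclideanSpace.basisFun (Fin n) ℝ).toBasis
    (D : EuclideanSpace ℝ (Fin n) →ₗ[ℝ] EuclideanSpace ℝ (Fin n))
  rw [ContinuousLinearMap.det, ← h]
  congr 1

/-- trace -/
noncomputable def tr3 (D : EuclideanSpace ℝ (Fin 3) →L[ℝ] EuclideanSpace ℝ (Fin 3)) : ℝ :=
  ent D 0 0 + ent D 1 1 + ent D 2 2

/-- sum of the principal two-by-two minors -/
noncomputable def sg3 (D : EuclideanSpace ℝ (Fin 3) →L[ℝ] EuclideanSpace ℝ (Fin 3)) : ℝ :=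
  (ent D 0 0 * ent D 1 1 - ent D 0 1 * ent D 1 0) +
  (ent D 0 0 * ent D 2 2 - ent D 0 2 * ent D 2 0) +
  (ent D 1 1 * ent D 2 2 - ent D 1 2 * ent D 2 1)

lemma ent_id_add {n : ℕ} (D : EuclideanSpace ℝ (Fin n) →L[ℝ] EuclideanSpace ℝ (Fin n)) (t : ℝ)
    (j k : Fin n) :
    ent (ContinuousLinearMap.id ℝ _ + t • D) j k = (if j = k then 1 else 0) + t * ent D j k := by
  simp [ent]

lemma det_id_add3 (D : EuclideanSpace ℝ (Fin 3) →L[ℝ] EuclideanSpace ℝ (Fin 3))
    (hD : D.det = 0) (t : ℝ) :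
    (ContinuousLinearMap.id ℝ _ + t • D).det = 1 + t * tr3 D + t ^ 2 * sg3 D := by
  rw [det_eq_ent, Matrix.det_fin_three] at hD
  rw [det_eq_ent, Matrix.det_fin_three]
  simp only [Matrix.of_apply, ent_id_add, tr3, sg3] at hD ⊢
  simp only [Fin.isValue, ↓reduceIte, Fin.reduceEq, zero_ne_one, one_ne_zero, zero_add]
  linear_combination t ^ 3 * hD

lemma det_id_add2 (D : EuclideanSpace ℝ (Fin 2) →L[ℝ] EuclideanSpace ℝ (Fin 2))
    (hD : D.det = 0) (t : ℝ) :
    (ContinuousLinearMap.id ℝ _ + t • D).det = 1 + t * (ent D 0 0 + ent D 1 1) := by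
  rw [det_eq_ent, Matrix.det_fin_two] at hD
  rw [det_eq_ent, Matrix.det_fin_two]
  simp only [Matrix.of_apply, ent_id_add] at hD ⊢
  simp only [Fin.isValue, ↓reduceIte, Fin.reduceEq, zero_ne_one, one_ne_zero, zero_add]
  linear_combination t ^ 2 * hD

lemma continuous_ent {n : ℕ} (j k : Fin n) :
    Continuous (fun D : EuclideanSpace ℝ (Fin n) →L[ℝ] EuclideanSpace ℝ (Fin n) => ent D j k) := by
  unfold ent
  fun_prop

lemma continuous_tr3 : Continuous tr3 := by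
  unfold tr3
  exact ((continuous_ent _ _).add (continuous_ent _ _)).add (continuous_ent _ _)

lemma continuous_sg3 : Continuous sg3 := by
  unfold sg3
  have := @continuous_ent 3
  fun_prop (disch := assumption)

section general

variable {E : Type*} [NormedAddCommGroup E] [InnerProductSpace ℝ E]

namespace PData

variable (P : PData E)

lemma det_eq_zero [FiniteDimensional ℝ E] (hd : ∀ y : E, y ≠ 0 → DifferentiableAt ℝ P.X y)
    {w : E} (hw : w ≠ 0) : (fderiv ℝ P.X w).det = 0 := by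
  have : LinearMap.det ((fderiv ℝ P.X w : E →L[ℝ] E) : E →ₗ[ℝ] E) = 0 := by
    rw [LinearMap.det_eq_zero_iff_ker_ne_bot]
    intro h
    apply hw
    have : w ∈ LinearMap.ker ((fderiv ℝ P.X w : E →L[ℝ] E) : E →ₗ[ℝ] E) :=
      LinearMap.mem_ker.2 (P.fderiv_self hd hw)
    rw [h] at this
    exact this
  exact this

lemma vol_body [FiniteDimensional ℝ E] [MeasurableSpace E] [BorelSpace E]
    (hd : ∀ y : E, y ≠ 0 → DifferentiableAt ℝ P.X y)
    (hc : ContinuousOn (fderiv ℝ P.X) {0}ᶜ) (r : ℝ) (hr : 0 ≤ r) :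
    (volume (body P.h (1 + r))).toReal = (volume (body P.h 1)).toReal +
      ∫ y in ann E r, (ContinuousLinearMap.id ℝ E + fderiv ℝ P.X y).det := by
  have hsub : body P.h 1 ⊆ body P.h (1 + r) := by
    intro x hx w hw
    have := hx w hw
    linarith
  have hunion : body P.h (1 + r) = body P.h 1 ∪ P.Phi '' (ann E r) := by
    have := P.body_diff (r := r)
    have h2 : ann E r = {y : E | 1 < ‖y‖ ∧ ‖y‖ ≤ 1 + r} := rfl
    rw [h2, ← this, union_sdiff_cancel hsub]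
  have hdisj : Disjoint (body P.h 1) (P.Phi '' (ann E r)) := by
    have := P.body_diff (r := r)
    have h2 : ann E r = {y : E | 1 < ‖y‖ ∧ ‖y‖ ≤ 1 + r} := rfl
    rw [h2, ← this]
    exact disjoint_sdiff_right
  have hne : ∀ y ∈ ann E r, y ≠ 0 := by
    rintro y hy rfl
    have := hy.1
    rw [norm_zero] at this
    linarith
  have hder : ∀ y ∈ ann E r, HasFDerivWithinAt P.Phi
      (ContinuousLinearMap.id ℝ E + fderiv ℝ P.X y) (ann E r) y := by
    intro y hy
    have h1 : HasFDerivAt P.X (fderiv ℝ P.X y) y := (hd y (hne y hy)).hasFDerivAt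
    exact ((hasFDerivAt_id y).add h1).hasFDerivWithinAt
  have hinj : InjOn P.Phi (ann E r) := P.Phi_injOn.mono fun y hy => hy.1.le
  have himg := lintegral_abs_det_fderiv_eq_addHaar_image (volume : Measure E)
    (measurableSet_ann r) hder hinj
  have hpos : ∀ y ∈ ann E r, 0 < (ContinuousLinearMap.id ℝ E + fderiv ℝ P.X y).det := by
    intro y hy
    have hy0 := hne y hy
    have hn : 0 < ‖y‖ := norm_pos_iff.2 hy0
    have h1 : fderiv ℝ P.X y = ‖y‖⁻¹ • fderiv ℝ P.X (‖y‖⁻¹ • y) := by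
      rw [P.fderiv_smul hd hy0 (inv_pos.2 hn), inv_inv, smul_smul, inv_mul_cancel₀ hn.ne',
        one_smul]
    rw [h1]
    apply P.det_pos hd (unit_of_ne hy0) (inv_nonneg.2 hn.le)
    rw [inv_le_one₀ hn]
    exact hy.1.le
  have hmeasb : MeasurableSet (body P.h 1) := (isClosed_body P.h 1).measurableSet
  have hfin1 : volume (body P.h 1) ≠ ∞ := (P.isCompact_body 1).measure_lt_top.ne
  have hfin2 : volume (P.Phi '' (ann E r)) ≠ ∞ := by
    have h3 : P.Phi '' (ann E r) ⊆ body P.h (1 + r) := by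
      rw [hunion]
      exact subset_union_right
    exact ((measure_mono h3).trans_lt (P.isCompact_body (1 + r)).measure_lt_top).ne
  rw [hunion, measure_union' hdisj hmeasb, ENNReal.toReal_add hfin1 hfin2, ← himg]
  congr 1
  rw [integral_eq_lintegral_of_nonneg_ae]
  · congr 1
    apply setLIntegral_congr_fun (measurableSet_ann r)
    intro y hy
    simp only
    rw [abs_of_pos (hpos y hy)]
  · filter_upwards [ae_restrict_mem (measurableSet_ann r)] with y hy
    exact (hpos y hy).le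
  · apply ContinuousOn.aestronglyMeasurable _ (measurableSet_ann r)
    apply ContinuousLinearMap.continuous_det.comp_continuousOn
    apply continuousOn_const.add
    exact hc.mono fun y hy => hne y hy

end PData

lemma integrableOn_ann [FiniteDimensional ℝ E] [MeasurableSpace E] [BorelSpace E]
    {G : E → ℝ} {g : ℝ → ℝ} {r : ℝ} (hG : ContinuousOn G {0}ᶜ) (hg : ContinuousOn g (Ioi 0)) :
    IntegrableOn (fun y : E => g ‖y‖ * G (‖y‖⁻¹ • y)) (ann E r) volume := by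
  have : ProperSpace E := FiniteDimensional.proper ℝ E
  set K : Set E := {y | 1 ≤ ‖y‖ ∧ ‖y‖ ≤ 1 + r} with hK
  have hKc : IsCompact K := by
    apply Metric.isCompact_of_isClosed_isBounded
    · exact (isClosed_le continuous_const continuous_norm).inter
        (isClosed_le continuous_norm continuous_const)
    · rw [isBounded_iff_forall_norm_le]
      exact ⟨1 + r, fun y hy => hy.2⟩
  have hsub : ann E r ⊆ K := fun y hy => ⟨hy.1.le, hy.2⟩
  have hne : ∀ y ∈ K, 0 < ‖y‖ := fun y hy => lt_of_lt_of_le one_pos hy.1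
  refine IntegrableOn.mono_set ?_ hsub
  apply ContinuousOn.integrableOn_compact hKc
  apply ContinuousOn.mul
  · exact hg.comp continuous_norm.continuousOn fun y hy => hne y hy
  · apply hG.comp
    · apply ContinuousOn.smul
      · exact continuous_norm.continuousOn.inv₀ fun y hy => (hne y hy).ne'
      · exact continuousOn_id
    · intro y hy
      have h1 := hne y hy
      exact smul_ne_zero (inv_ne_zero h1.ne') (norm_pos_iff.1 h1)

end general

section three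

/-- total mass of the sphere measure -/
lemma sphere_mass3 : (∫ _w : sphere (0 : EuclideanSpace ℝ (Fin 3)) 1, (1 : ℝ)
    ∂((volume : Measure (EuclideanSpace ℝ (Fin 3))).toSphere)) =
    3 * (volume (ball (0 : EuclideanSpace ℝ (Fin 3)) 1)).toReal := by
  rw [integral_const, smul_eq_mul, mul_one, Measure.toSphere_real_apply_univ]
  simp [Measure.real]

lemma sphere_mass2 : (∫ _w : sphere (0 : EuclideanSpace ℝ (Fin 2)) 1, (1 : ℝ)
    ∂((volume : Measure (EuclideanSpace ℝ (Fin 2))).toSphere)) =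
    2 * (volume (ball (0 : EuclideanSpace ℝ (Fin 2)) 1)).toReal := by
  rw [integral_const, smul_eq_mul, mul_one, Measure.toSphere_real_apply_univ]
  simp [Measure.real]

/-- integral of the trace over the sphere -/
noncomputable def T3 (P : PData (EuclideanSpace ℝ (Fin 3))) : ℝ :=
  ∫ w : sphere (0 : EuclideanSpace ℝ (Fin 3)) 1, tr3 (fderiv ℝ P.X w)
    ∂((volume : Measure (EuclideanSpace ℝ (Fin 3))).toSphere)

/-- integral of the second symmetric function over the sphere -/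
noncomputable def S3 (P : PData (EuclideanSpace ℝ (Fin 3))) : ℝ :=
  ∫ w : sphere (0 : EuclideanSpace ℝ (Fin 3)) 1, sg3 (fderiv ℝ P.X w)
    ∂((volume : Measure (EuclideanSpace ℝ (Fin 3))).toSphere)

lemma steiner3 (P : PData (EuclideanSpace ℝ (Fin 3)))
    (hd : ∀ y : EuclideanSpace ℝ (Fin 3), y ≠ 0 → DifferentiableAt ℝ P.X y)
    (hc : ContinuousOn (fderiv ℝ P.X) {0}ᶜ) (r : ℝ) (hr : 0 ≤ r) :
    (volume (cthickening r (body P.h 1))).toReal = (volume (body P.h 1)).toReal +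
      (volume (ball (0 : EuclideanSpace ℝ (Fin 3)) 1)).toReal * ((1 + r) ^ 3 - 1) +
      T3 P * (((1 + r) ^ 2 - 1) / 2) + S3 P * r := by
  rw [P.cthickening_body hr, P.vol_body hd hc r hr]
  have hne : ∀ y ∈ ann (EuclideanSpace ℝ (Fin 3)) r, y ≠ 0 := by
    rintro y hy rfl
    have := hy.1
    rw [norm_zero] at this
    linarith
  have hcT : ContinuousOn (fun w => tr3 (fderiv ℝ P.X w)) {0}ᶜ :=
    continuous_tr3.comp_continuousOn hc
  have hcS : ContinuousOn (fun w => sg3 (fderiv ℝ P.X w)) {0}ᶜ :=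
    continuous_sg3.comp_continuousOn hc
  have hinv : ContinuousOn (fun t : ℝ => t⁻¹) (Ioi 0) :=
    continuousOn_inv₀.mono fun t ht => (ne_of_gt ht)
  have hinv2 : ContinuousOn (fun t : ℝ => (t⁻¹) ^ 2) (Ioi 0) := hinv.pow 2
  obtain ⟨f0, hf0⟩ : ∃ f0 : EuclideanSpace ℝ (Fin 3) → ℝ, f0 = fun y =>
    (fun _ => (1 : ℝ)) ‖y‖ * (fun _ : EuclideanSpace ℝ (Fin 3) => (1 : ℝ)) (‖y‖⁻¹ • y) := ⟨_, rfl⟩
  obtain ⟨f1, hf1⟩ : ∃ f1 : EuclideanSpace ℝ (Fin 3) → ℝ, f1 = fun y =>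
    (fun t : ℝ => t⁻¹) ‖y‖ * (fun w => tr3 (fderiv ℝ P.X w)) (‖y‖⁻¹ • y) := ⟨_, rfl⟩
  obtain ⟨f2, hf2⟩ : ∃ f2 : EuclideanSpace ℝ (Fin 3) → ℝ, f2 = fun y =>
    (fun t : ℝ => (t⁻¹) ^ 2) ‖y‖ * (fun w => sg3 (fderiv ℝ P.X w)) (‖y‖⁻¹ • y) := ⟨_, rfl⟩
  have i0 : IntegrableOn f0 (ann (EuclideanSpace ℝ (Fin 3)) r) := by
    rw [hf0]
    exact integrableOn_ann continuousOn_const continuousOn_const
  have i1 : IntegrableOn f1 (ann (EuclideanSpace ℝ (Fin 3)) r) := by
    rw [hf1]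
    exact integrableOn_ann hcT hinv
  have i2 : IntegrableOn f2 (ann (EuclideanSpace ℝ (Fin 3)) r) := by
    rw [hf2]
    exact integrableOn_ann hcS hinv2
  have hform : ∀ y ∈ ann (EuclideanSpace ℝ (Fin 3)) r,
      (ContinuousLinearMap.id ℝ (EuclideanSpace ℝ (Fin 3)) + fderiv ℝ P.X y).det =
      (f0 + f1 + f2) y := by
    intro y hy
    have hy0 := hne y hy
    have hn : 0 < ‖y‖ := norm_pos_iff.2 hy0
    have h1 : fderiv ℝ P.X y = ‖y‖⁻¹ • fderiv ℝ P.X (‖y‖⁻¹ • y) := by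
      rw [P.fderiv_smul hd hy0 (inv_pos.2 hn), inv_inv, smul_smul, inv_mul_cancel₀ hn.ne',
        one_smul]
    have h2 : ‖y‖⁻¹ • y ≠ 0 := smul_ne_zero (inv_ne_zero hn.ne') hy0
    conv_lhs => rw [h1]
    rw [det_id_add3 _ (P.det_eq_zero hd h2), hf0, hf1, hf2]
    simp only [Pi.add_apply]
    ring
  have p0 : ∫ y in ann (EuclideanSpace ℝ (Fin 3)) r, f0 y =
      (∫ _w : sphere (0 : EuclideanSpace ℝ (Fin 3)) 1, (1 : ℝ)
        ∂((volume : Measure (EuclideanSpace ℝ (Fin 3))).toSphere)) *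
      ∫ t in (1 : ℝ)..(1 + r), t ^ (finrank ℝ (EuclideanSpace ℝ (Fin 3)) - 1) * (1 : ℝ) := by
    rw [hf0]
    exact polar_ann (E := EuclideanSpace ℝ (Fin 3)) (fun _ => (1 : ℝ)) (fun _ => (1 : ℝ)) hr
  have p1 : ∫ y in ann (EuclideanSpace ℝ (Fin 3)) r, f1 y = T3 P *
      ∫ t in (1 : ℝ)..(1 + r), t ^ (finrank ℝ (EuclideanSpace ℝ (Fin 3)) - 1) * t⁻¹ := by
    rw [hf1]
    exact polar_ann (E := EuclideanSpace ℝ (Fin 3)) (fun w => tr3 (fderiv ℝ P.X w))
      (fun t : ℝ => t⁻¹) hr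
  have p2 : ∫ y in ann (EuclideanSpace ℝ (Fin 3)) r, f2 y = S3 P *
      ∫ t in (1 : ℝ)..(1 + r), t ^ (finrank ℝ (EuclideanSpace ℝ (Fin 3)) - 1) * (t⁻¹) ^ 2 := by
    rw [hf2]
    exact polar_ann (E := EuclideanSpace ℝ (Fin 3)) (fun w => sg3 (fderiv ℝ P.X w))
      (fun t : ℝ => (t⁻¹) ^ 2) hr
  rw [setIntegral_congr_fun (measurableSet_ann r) hform, integral_add' (i0.add i1) i2,
    integral_add' i0 i1, p0, p1, p2]
  have hfr : finrank ℝ (EuclideanSpace ℝ (Fin 3)) - 1 = 2 := by simp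
  rw [hfr]
  have j0 : ∫ t in (1 : ℝ)..(1 + r), t ^ 2 * (1 : ℝ) = ((1 + r) ^ 3 - 1) / 3 := by
    simp only [mul_one]
    rw [integral_pow]
    norm_num
  have j1 : ∫ t in (1 : ℝ)..(1 + r), t ^ 2 * t⁻¹ = ((1 + r) ^ 2 - 1) / 2 := by
    have : ∫ t in (1 : ℝ)..(1 + r), t ^ 2 * t⁻¹ = ∫ t in (1 : ℝ)..(1 + r), t := by
      apply intervalIntegral.integral_congr
      intro t ht
      rw [uIcc_of_le (by linarith)] at ht
      have : t ≠ 0 := by
        have := ht.1
        intro h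
        linarith
      simp only
      field_simp
    rw [this, integral_id]
    norm_num
  have j2 : ∫ t in (1 : ℝ)..(1 + r), t ^ 2 * (t⁻¹) ^ 2 = r := by
    have : ∫ t in (1 : ℝ)..(1 + r), t ^ 2 * (t⁻¹) ^ 2 = ∫ t in (1 : ℝ)..(1 + r), (1 : ℝ) := by
      apply intervalIntegral.integral_congr
      intro t ht
      rw [uIcc_of_le (by linarith)] at ht
      have : t ≠ 0 := by
        have := ht.1
        intro h
        linarith
      simp only
      field_simp
    rw [this, intervalIntegral.integral_const]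
    simp
  rw [j0, j1, j2]
  have m := sphere_mass3
  rw [m]
  ring

/-- integral of the trace over the circle -/
noncomputable def T2 (P : PData (EuclideanSpace ℝ (Fin 2))) : ℝ :=
  ∫ w : sphere (0 : EuclideanSpace ℝ (Fin 2)) 1, (ent (fderiv ℝ P.X w) 0 0 +
      ent (fderiv ℝ P.X w) 1 1)
    ∂((volume : Measure (EuclideanSpace ℝ (Fin 2))).toSphere)

lemma steiner2 (P : PData (EuclideanSpace ℝ (Fin 2)))
    (hd : ∀ y : EuclideanSpace ℝ (Fin 2), y ≠ 0 → DifferentiableAt ℝ P.X y)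
    (hc : ContinuousOn (fderiv ℝ P.X) {0}ᶜ) (r : ℝ) (hr : 0 ≤ r) :
    (volume (cthickening r (body P.h 1))).toReal = (volume (body P.h 1)).toReal +
      (volume (ball (0 : EuclideanSpace ℝ (Fin 2)) 1)).toReal * ((1 + r) ^ 2 - 1) +
      T2 P * r := by
  rw [P.cthickening_body hr, P.vol_body hd hc r hr]
  have hne : ∀ y ∈ ann (EuclideanSpace ℝ (Fin 2)) r, y ≠ 0 := by
    rintro y hy rfl
    have := hy.1
    rw [norm_zero] at this
    linarith
  have hcT : ContinuousOn (fun w => ent (fderiv ℝ P.X w) 0 0 +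
      ent (fderiv ℝ P.X w) 1 1) {0}ᶜ :=
    ((continuous_ent 0 0).add (continuous_ent 1 1)).comp_continuousOn hc
  have hinv : ContinuousOn (fun t : ℝ => t⁻¹) (Ioi 0) :=
    continuousOn_inv₀.mono fun t ht => (ne_of_gt ht)
  obtain ⟨f0, hf0⟩ : ∃ f0 : EuclideanSpace ℝ (Fin 2) → ℝ, f0 = fun y =>
    (fun _ => (1 : ℝ)) ‖y‖ * (fun _ : EuclideanSpace ℝ (Fin 2) => (1 : ℝ)) (‖y‖⁻¹ • y) := ⟨_, rfl⟩
  obtain ⟨f1, hf1⟩ : ∃ f1 : EuclideanSpace ℝ (Fin 2) → ℝ, f1 = fun y =>
    (fun t : ℝ => t⁻¹) ‖y‖ * (fun w => ent (fderiv ℝ P.X w) 0 0 +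
      ent (fderiv ℝ P.X w) 1 1) (‖y‖⁻¹ • y) := ⟨_, rfl⟩
  have i0 : IntegrableOn f0 (ann (EuclideanSpace ℝ (Fin 2)) r) := by
    rw [hf0]
    exact integrableOn_ann continuousOn_const continuousOn_const
  have i1 : IntegrableOn f1 (ann (EuclideanSpace ℝ (Fin 2)) r) := by
    rw [hf1]
    exact integrableOn_ann hcT hinv
  have hform : ∀ y ∈ ann (EuclideanSpace ℝ (Fin 2)) r,
      (ContinuousLinearMap.id ℝ (EuclideanSpace ℝ (Fin 2)) + fderiv ℝ P.X y).det =
      (f0 + f1) y := by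
    intro y hy
    have hy0 := hne y hy
    have hn : 0 < ‖y‖ := norm_pos_iff.2 hy0
    have h1 : fderiv ℝ P.X y = ‖y‖⁻¹ • fderiv ℝ P.X (‖y‖⁻¹ • y) := by
      rw [P.fderiv_smul hd hy0 (inv_pos.2 hn), inv_inv, smul_smul, inv_mul_cancel₀ hn.ne',
        one_smul]
    have h2 : ‖y‖⁻¹ • y ≠ 0 := smul_ne_zero (inv_ne_zero hn.ne') hy0
    conv_lhs => rw [h1]
    rw [det_id_add2 _ (P.det_eq_zero hd h2), hf0, hf1]
    simp only [Pi.add_apply]
    ring
  have p0 : ∫ y in ann (EuclideanSpace ℝ (Fin 2)) r, f0 y =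
      (∫ _w : sphere (0 : EuclideanSpace ℝ (Fin 2)) 1, (1 : ℝ)
        ∂((volume : Measure (EuclideanSpace ℝ (Fin 2))).toSphere)) *
      ∫ t in (1 : ℝ)..(1 + r), t ^ (finrank ℝ (EuclideanSpace ℝ (Fin 2)) - 1) * (1 : ℝ) := by
    rw [hf0]
    exact polar_ann (E := EuclideanSpace ℝ (Fin 2)) (fun _ => (1 : ℝ)) (fun _ => (1 : ℝ)) hr
  have p1 : ∫ y in ann (EuclideanSpace ℝ (Fin 2)) r, f1 y = T2 P *
      ∫ t in (1 : ℝ)..(1 + r), t ^ (finrank ℝ (EuclideanSpace ℝ (Fin 2)) - 1) * t⁻¹ := by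
    rw [hf1]
    exact polar_ann (E := EuclideanSpace ℝ (Fin 2)) (fun w => ent (fderiv ℝ P.X w) 0 0 +
      ent (fderiv ℝ P.X w) 1 1) (fun t : ℝ => t⁻¹) hr
  rw [setIntegral_congr_fun (measurableSet_ann r) hform, integral_add' i0 i1, p0, p1]
  have hfr : finrank ℝ (EuclideanSpace ℝ (Fin 2)) - 1 = 1 := by simp
  rw [hfr]
  have j0 : ∫ t in (1 : ℝ)..(1 + r), t ^ 1 * (1 : ℝ) = ((1 + r) ^ 2 - 1) / 2 := by
    simp only [mul_one, pow_one]
    rw [integral_id]
    norm_num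
  have j1 : ∫ t in (1 : ℝ)..(1 + r), t ^ 1 * t⁻¹ = r := by
    have : ∫ t in (1 : ℝ)..(1 + r), t ^ 1 * t⁻¹ = ∫ t in (1 : ℝ)..(1 + r), (1 : ℝ) := by
      apply intervalIntegral.integral_congr
      intro t ht
      rw [uIcc_of_le (by linarith)] at ht
      have : t ≠ 0 := by
        have := ht.1
        intro h
        linarith
      simp only
      field_simp
    rw [this, intervalIntegral.integral_const]
    simp
  rw [j0, j1]
  have m := sphere_mass2
  rw [m]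
  ring

end three

end Pool.Agent.Lib.MP_536123_gt
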