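import Mathlib
import Pool.Agent.Lib.MP_536123_gt.Steiner

set_option autoImplicit false

open MeasureTheory Set Metric Module Filter Topology
open scoped RealInnerProductSpace ENNReal

namespace Pool.Agent.Lib.MP_536123_gt

lemma key1 (a b a' b' : ℂ) (d : ℝ) (ha : ‖a‖ ≤ 1) (hb : ‖b‖ ≤ 1) (hb' : ‖b'‖ ≤ 1)
    (hd : ‖a' - a‖ ^ 2 + ‖b' - b‖ ^ 2 ≤ d ^ 2) :
    ‖(2 * a * b * a' + a ^ 2 * b') - 2 * (a ^ 2 * b) * (1 - (d : ℂ) ^ 2 / 2) - a' ^ 2 * b'‖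
      ≤ 3 * d ^ 2 := by
  have e : (2 * a * b * a' + a ^ 2 * b') - 2 * (a ^ 2 * b) * (1 - (d : ℂ) ^ 2 / 2) - a' ^ 2 * b' =
      a ^ 2 * b * (d : ℂ) ^ 2 - 2 * a * (a' - a) * (b' - b) - (a' - a) ^ 2 * b' := by ring
  rw [e]
  have h1 : ‖a ^ 2 * b * (d : ℂ) ^ 2‖ ≤ d ^ 2 := by
    rw [norm_mul, norm_mul, norm_pow, norm_pow, Complex.norm_real, Real.norm_eq_abs, sq_abs]
    have : ‖a‖ ^ 2 * ‖b‖ ≤ 1 := by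
      have : ‖a‖ ^ 2 ≤ 1 := pow_le_one₀ (norm_nonneg _) ha
      calc ‖a‖ ^ 2 * ‖b‖ ≤ 1 * 1 := mul_le_mul this hb (norm_nonneg _) zero_le_one
        _ = 1 := one_mul 1
    nlinarith [sq_nonneg d]
  have h2 : ‖2 * a * (a' - a) * (b' - b)‖ ≤ d ^ 2 := by
    rw [norm_mul, norm_mul, norm_mul]
    have h20 : ‖(2 : ℂ)‖ = 2 := by simp
    rw [h20]
    have : 2 * (‖a' - a‖ * ‖b' - b‖) ≤ ‖a' - a‖ ^ 2 + ‖b' - b‖ ^ 2 := by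
      nlinarith [sq_nonneg (‖a' - a‖ - ‖b' - b‖)]
    have h3 : 0 ≤ ‖a' - a‖ * ‖b' - b‖ := by positivity
    nlinarith [norm_nonneg a]
  have h3 : ‖(a' - a) ^ 2 * b'‖ ≤ d ^ 2 := by
    rw [norm_mul, norm_pow]
    nlinarith [sq_nonneg ‖a' - a‖, sq_nonneg ‖b' - b‖, norm_nonneg b']
  calc _ ≤ ‖a ^ 2 * b * (d : ℂ) ^ 2‖ + ‖2 * a * (a' - a) * (b' - b)‖ + ‖(a' - a) ^ 2 * b'‖ := by
        refine (norm_sub_le _ _).trans ?_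
        gcongr
        exact norm_sub_le _ _
    _ ≤ 3 * d ^ 2 := by linarith

lemma key2 (a b a' b' : ℂ) (d : ℝ) (ha : ‖a‖ ≤ 1) (hb : ‖b‖ ≤ 1) (ha' : ‖a'‖ ≤ 1)
    (hb' : ‖b'‖ ≤ 1) (hd : ‖a' - a‖ ^ 2 + ‖b' - b‖ ^ 2 ≤ d ^ 2) :
    ‖(4 * a ^ 3 * b ^ 2 * a' + 2 * a ^ 4 * b * b') -
        5 * (a ^ 2 * b) ^ 2 * (1 - (d : ℂ) ^ 2 / 2) - (a' ^ 2 * b') ^ 2‖
      ≤ 16 * d ^ 2 := by
  have e : (4 * a ^ 3 * b ^ 2 * a' + 2 * a ^ 4 * b * b') -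
        5 * (a ^ 2 * b) ^ 2 * (1 - (d : ℂ) ^ 2 / 2) - (a' ^ 2 * b') ^ 2 =
      (5 / 2) * (a ^ 2 * b) ^ 2 * (d : ℂ) ^ 2 -
        ((a' - a) * (a' + a) * b' + a ^ 2 * (b' - b)) ^ 2 -
        2 * (a ^ 2 * b) * (2 * a * (a' - a) * (b' - b) + (a' - a) ^ 2 * b') := by ring
  rw [e]
  have hab : ‖a ^ 2 * b‖ ≤ 1 := by
    rw [norm_mul, norm_pow]
    have : ‖a‖ ^ 2 ≤ 1 := pow_le_one₀ (norm_nonneg _) ha
    calc ‖a‖ ^ 2 * ‖b‖ ≤ 1 * 1 := mul_le_mul this hb (norm_nonneg _) zero_le_one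
      _ = 1 := one_mul 1
  have h1 : ‖(5 / 2) * (a ^ 2 * b) ^ 2 * (d : ℂ) ^ 2‖ ≤ 5 / 2 * d ^ 2 := by
    rw [norm_mul, norm_mul, norm_pow, norm_pow, Complex.norm_real, Real.norm_eq_abs, sq_abs]
    have h0 : ‖(5 / 2 : ℂ)‖ = 5 / 2 := by
      rw [norm_div]; simp
    rw [h0]
    have : ‖a ^ 2 * b‖ ^ 2 ≤ 1 := pow_le_one₀ (norm_nonneg _) hab
    nlinarith [sq_nonneg d]
  have h2 : ‖((a' - a) * (a' + a) * b' + a ^ 2 * (b' - b)) ^ 2‖ ≤ 5 * d ^ 2 := by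
    rw [norm_pow]
    have h3 : ‖(a' - a) * (a' + a) * b' + a ^ 2 * (b' - b)‖ ≤ 2 * ‖a' - a‖ + ‖b' - b‖ := by
      refine (norm_add_le _ _).trans ?_
      rw [norm_mul, norm_mul, norm_mul, norm_pow]
      have h4 : ‖a' + a‖ ≤ 2 := (norm_add_le _ _).trans (by linarith)
      have h5 : ‖a‖ ^ 2 ≤ 1 := pow_le_one₀ (norm_nonneg _) ha
      have h6 : ‖a' + a‖ * ‖b'‖ ≤ 2 := by
        calc ‖a' + a‖ * ‖b'‖ ≤ 2 * 1 := mul_le_mul h4 hb' (norm_nonneg _) (by norm_num)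
          _ = 2 := by norm_num
      have h7 : ‖a' - a‖ * ‖a' + a‖ * ‖b'‖ ≤ 2 * ‖a' - a‖ := by
        rw [mul_assoc]
        nlinarith [norm_nonneg (a' - a)]
      have h8 : ‖a‖ ^ 2 * ‖b' - b‖ ≤ ‖b' - b‖ := by
        nlinarith [norm_nonneg (b' - b)]
      linarith
    have h9 : (2 * ‖a' - a‖ + ‖b' - b‖) ^ 2 ≤ 5 * (‖a' - a‖ ^ 2 + ‖b' - b‖ ^ 2) := by
      nlinarith [sq_nonneg (‖a' - a‖ - 2 * ‖b' - b‖)]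
    calc _ ≤ (2 * ‖a' - a‖ + ‖b' - b‖) ^ 2 := by gcongr
      _ ≤ 5 * (‖a' - a‖ ^ 2 + ‖b' - b‖ ^ 2) := h9
      _ ≤ 5 * d ^ 2 := by linarith
  have h3 : ‖2 * (a ^ 2 * b) * (2 * a * (a' - a) * (b' - b) + (a' - a) ^ 2 * b')‖ ≤ 4 * d ^ 2 := by
    rw [norm_mul, norm_mul]
    have h20 : ‖(2 : ℂ)‖ = 2 := by simp
    have h21 : ‖2 * a * (a' - a) * (b' - b) + (a' - a) ^ 2 * b'‖ ≤ 2 * d ^ 2 := by
      refine (norm_add_le _ _).trans ?_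
      have h22 : ‖2 * a * (a' - a) * (b' - b)‖ ≤ d ^ 2 := by
        rw [norm_mul, norm_mul, norm_mul]
        have h20 : ‖(2 : ℂ)‖ = 2 := by simp
        rw [h20]
        have : 2 * (‖a' - a‖ * ‖b' - b‖) ≤ ‖a' - a‖ ^ 2 + ‖b' - b‖ ^ 2 := by
          nlinarith [sq_nonneg (‖a' - a‖ - ‖b' - b‖)]
        have h3 : 0 ≤ ‖a' - a‖ * ‖b' - b‖ := by positivity
        nlinarith [norm_nonneg a]
      have h23 : ‖(a' - a) ^ 2 * b'‖ ≤ d ^ 2 := by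
        rw [norm_mul, norm_pow]
        nlinarith [sq_nonneg ‖a' - a‖, sq_nonneg ‖b' - b‖, norm_nonneg b']
      linarith
    rw [h20]
    calc 2 * ‖a ^ 2 * b‖ * ‖2 * a * (a' - a) * (b' - b) + (a' - a) ^ 2 * b'‖
        ≤ 2 * 1 * (2 * d ^ 2) := by gcongr
      _ = 4 * d ^ 2 := by ring
  calc _ ≤ ‖(5 / 2) * (a ^ 2 * b) ^ 2 * (d : ℂ) ^ 2‖ +
        ‖((a' - a) * (a' + a) * b' + a ^ 2 * (b' - b)) ^ 2‖ +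
        ‖2 * (a ^ 2 * b) * (2 * a * (a' - a) * (b' - b) + (a' - a) ^ 2 * b')‖ := by
        refine (norm_sub_le _ _).trans ?_
        gcongr
        exact norm_sub_le _ _
    _ ≤ 16 * d ^ 2 := by nlinarith [sq_nonneg d]

variable {E : Type*} [NormedAddCommGroup E] [InnerProductSpace ℝ E] [FiniteDimensional ℝ E]

/-- gradient of `x ↦ Re (c * z x)`, as a linear function of `c`. -/
noncomputable def grL (z : E →L[ℝ] ℂ) : ℂ →L[ℝ] E :=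
  Complex.reCLM.smulRight ((InnerProductSpace.toDual ℝ E).symm (Complex.reCLM.comp z)) -
  Complex.imCLM.smulRight ((InnerProductSpace.toDual ℝ E).symm (Complex.imCLM.comp z))

lemma inner_grL (z : E →L[ℝ] ℂ) (c : ℂ) (x : E) : ⟪grL z c, x⟫ = (c * z x).re := by
  simp [grL, inner_sub_left, real_inner_smul_left, Complex.mul_re]

/-- the small parameter -/
noncomputable def eps : ℝ := 1 / 100

/-- the cubic form -/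
noncomputable def Qf (z₁ z₂ : E →L[ℝ] ℂ) (v : E) : ℂ := z₁ v ^ 2 * z₂ v

/-- the perturbation on the unit sphere -/
noncomputable def hf (z₁ z₂ : E →L[ℝ] ℂ) (v : E) : ℝ :=
  eps * (Qf z₁ z₂ v).re + eps ^ 2 / 5 * (Qf z₁ z₂ v ^ 2).re

/-- the gradient of the one-homogeneous extension of the perturbation -/
noncomputable def Xf (z₁ z₂ : E →L[ℝ] ℂ) (v : E) : E :=
  (eps * (‖v‖ ^ 2)⁻¹) • (grL z₁ (2 * z₁ v * z₂ v) + grL z₂ (z₁ v ^ 2)) -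
  (eps * 2 * (‖v‖ ^ 4)⁻¹ * Complex.reCLM (z₁ v ^ 2 * z₂ v)) • v +
  (eps ^ 2 / 5 * (‖v‖ ^ 5)⁻¹) •
    (grL z₁ (4 * z₁ v ^ 3 * z₂ v ^ 2) + grL z₂ (2 * z₁ v ^ 4 * z₂ v)) -
  (eps ^ 2 * (‖v‖ ^ 7)⁻¹ * Complex.reCLM ((z₁ v ^ 2 * z₂ v) ^ 2)) • v

lemma inner_Xf (z₁ z₂ : E →L[ℝ] ℂ) (v x : E) : ⟪Xf z₁ z₂ v, x⟫ =
    (eps * (‖v‖ ^ 2)⁻¹) * (2 * z₁ v * z₂ v * z₁ x + z₁ v ^ 2 * z₂ x).re -
    (eps * 2 * (‖v‖ ^ 4)⁻¹ * (z₁ v ^ 2 * z₂ v).re) * ⟪v, x⟫ +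
    (eps ^ 2 / 5 * (‖v‖ ^ 5)⁻¹) *
      (4 * z₁ v ^ 3 * z₂ v ^ 2 * z₁ x + 2 * z₁ v ^ 4 * z₂ v * z₂ x).re -
    (eps ^ 2 * (‖v‖ ^ 7)⁻¹ * ((z₁ v ^ 2 * z₂ v) ^ 2).re) * ⟪v, x⟫ := by
  simp only [Xf, inner_sub_left, inner_add_left, real_inner_smul_left, inner_grL,
    Complex.reCLM_apply, Complex.add_re]

lemma contDiffAt_Xf (z₁ z₂ : E →L[ℝ] ℂ) {v : E} (hv : v ≠ 0) : ContDiffAt ℝ 1 (Xf z₁ z₂) v := by
  have hn : ContDiffAt ℝ 1 (fun v : E => ‖v‖) v := contDiffAt_norm ℝ hv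
  have h0 : ‖v‖ ≠ 0 := norm_ne_zero_iff.2 hv
  have h2 : ContDiffAt ℝ 1 (fun v : E => (‖v‖ ^ 2)⁻¹) v := (hn.pow 2).inv (pow_ne_zero _ h0)
  have h4 : ContDiffAt ℝ 1 (fun v : E => (‖v‖ ^ 4)⁻¹) v := (hn.pow 4).inv (pow_ne_zero _ h0)
  have h5 : ContDiffAt ℝ 1 (fun v : E => (‖v‖ ^ 5)⁻¹) v := (hn.pow 5).inv (pow_ne_zero _ h0)
  have h7 : ContDiffAt ℝ 1 (fun v : E => (‖v‖ ^ 7)⁻¹) v := (hn.pow 7).inv (pow_ne_zero _ h0)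
  have z1 : ContDiffAt ℝ 1 (fun v : E => z₁ v) v := z₁.contDiff.contDiffAt
  have z2 : ContDiffAt ℝ 1 (fun v : E => z₂ v) v := z₂.contDiff.contDiffAt
  unfold Xf
  fun_prop (disch := assumption)

lemma Xf_hom (z₁ z₂ : E →L[ℝ] ℂ) (t : ℝ) (w : E) (ht : 0 < t) :
    Xf z₁ z₂ (t • w) = Xf z₁ z₂ w := by
  by_cases hw : w = 0
  · rw [hw, smul_zero]
  · have hn : ‖w‖ ≠ 0 := norm_ne_zero_iff.2 hw
    have ht' : t ≠ 0 := ht.ne'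
    refine ext_inner_right ℝ fun x => ?_
    rw [inner_Xf, inner_Xf]
    have e1 : ‖t • w‖ = t * ‖w‖ := by rw [norm_smul, Real.norm_of_nonneg ht.le]
    have e2 : z₁ (t • w) = (t : ℂ) * z₁ w := by rw [map_smul]; simp
    have e3 : z₂ (t • w) = (t : ℂ) * z₂ w := by rw [map_smul]; simp
    have e4 : ⟪t • w, x⟫ = t * ⟪w, x⟫ := real_inner_smul_left _ _ _
    rw [e1, e2, e3, e4]
    have f1 : (2 * ((t : ℂ) * z₁ w) * ((t : ℂ) * z₂ w) * z₁ x + ((t : ℂ) * z₁ w) ^ 2 * z₂ x).re =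
        t ^ 2 * (2 * z₁ w * z₂ w * z₁ x + z₁ w ^ 2 * z₂ x).re := by
      rw [← Complex.re_ofReal_mul]
      congr 1
      push_cast
      ring
    have f2 : (((t : ℂ) * z₁ w) ^ 2 * ((t : ℂ) * z₂ w)).re = t ^ 3 * (z₁ w ^ 2 * z₂ w).re := by
      rw [← Complex.re_ofReal_mul]
      congr 1
      push_cast
      ring
    have f3 : (4 * ((t : ℂ) * z₁ w) ^ 3 * ((t : ℂ) * z₂ w) ^ 2 * z₁ x +
        2 * ((t : ℂ) * z₁ w) ^ 4 * ((t : ℂ) * z₂ w) * z₂ x).re =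
        t ^ 5 * (4 * z₁ w ^ 3 * z₂ w ^ 2 * z₁ x + 2 * z₁ w ^ 4 * z₂ w * z₂ x).re := by
      rw [← Complex.re_ofReal_mul]
      congr 1
      push_cast
      ring
    have f4 : ((((t : ℂ) * z₁ w) ^ 2 * ((t : ℂ) * z₂ w)) ^ 2).re =
        t ^ 6 * ((z₁ w ^ 2 * z₂ w) ^ 2).re := by
      rw [← Complex.re_ofReal_mul]
      congr 1
      push_cast
      ring
    rw [f1, f2, f3, f4]
    field_simp

lemma continuous_hf (z₁ z₂ : E →L[ℝ] ℂ) : Continuous (hf z₁ z₂) := by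
  unfold hf Qf
  have z1 := z₁.continuous
  have z2 := z₂.continuous
  have r := Complex.continuous_re
  fun_prop

lemma hf_key (z₁ z₂ : E →L[ℝ] ℂ) (hz : ∀ x, ‖z₁ x‖ ^ 2 + ‖z₂ x‖ ^ 2 ≤ ‖x‖ ^ 2)
    (w w' : E) (hw : ‖w‖ = 1) (hw' : ‖w'‖ = 1) :
    |⟪Xf z₁ z₂ w, w'⟫ - hf z₁ z₂ w'| ≤ (1 / 10 : ℝ) / 2 * ‖w - w'‖ ^ 2 := by
  have hle : ∀ v : E, ‖v‖ = 1 → ‖z₁ v‖ ≤ 1 ∧ ‖z₂ v‖ ≤ 1 := by
    intro v hv
    have h := hz v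
    rw [hv] at h
    constructor
    · have : ‖z₁ v‖ ^ 2 ≤ 1 := by nlinarith [sq_nonneg ‖z₂ v‖]
      exact (sq_le_one_iff₀ (norm_nonneg _)).1 this
    · have : ‖z₂ v‖ ^ 2 ≤ 1 := by nlinarith [sq_nonneg ‖z₁ v‖]
      exact (sq_le_one_iff₀ (norm_nonneg _)).1 this
  obtain ⟨ha, hb⟩ := hle w hw
  obtain ⟨ha', hb'⟩ := hle w' hw'
  have hd : ‖z₁ w' - z₁ w‖ ^ 2 + ‖z₂ w' - z₂ w‖ ^ 2 ≤ ‖w - w'‖ ^ 2 := by
    rw [← map_sub, ← map_sub, norm_sub_rev w w']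
    exact hz _
  have k1 := key1 (z₁ w) (z₂ w) (z₁ w') (z₂ w') ‖w - w'‖ ha hb hb' hd
  have k2 := key2 (z₁ w) (z₂ w) (z₁ w') (z₂ w') ‖w - w'‖ ha hb ha' hb' hd
  have r1 := (Complex.abs_re_le_norm _).trans k1
  have r2 := (Complex.abs_re_le_norm _).trans k2
  have e : ⟪Xf z₁ z₂ w, w'⟫ - hf z₁ z₂ w' =
      eps * ((2 * z₁ w * z₂ w * z₁ w' + z₁ w ^ 2 * z₂ w') -
        2 * (z₁ w ^ 2 * z₂ w) * (1 - (‖w - w'‖ : ℂ) ^ 2 / 2) - z₁ w' ^ 2 * z₂ w').re +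
      eps ^ 2 / 5 * ((4 * z₁ w ^ 3 * z₂ w ^ 2 * z₁ w' + 2 * z₁ w ^ 4 * z₂ w * z₂ w') -
        5 * (z₁ w ^ 2 * z₂ w) ^ 2 * (1 - (‖w - w'‖ : ℂ) ^ 2 / 2) -
        (z₁ w' ^ 2 * z₂ w') ^ 2).re := by
    rw [inner_Xf, hf, Qf, hw, inner_unit hw hw']
    have g1 : (2 * (z₁ w ^ 2 * z₂ w) * (1 - (‖w - w'‖ : ℂ) ^ 2 / 2)).re =
        2 * (1 - ‖w - w'‖ ^ 2 / 2) * (z₁ w ^ 2 * z₂ w).re := by
      rw [← Complex.re_ofReal_mul]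
      congr 1
      push_cast
      ring
    have g2 : (5 * (z₁ w ^ 2 * z₂ w) ^ 2 * (1 - (‖w - w'‖ : ℂ) ^ 2 / 2)).re =
        5 * (1 - ‖w - w'‖ ^ 2 / 2) * ((z₁ w ^ 2 * z₂ w) ^ 2).re := by
      rw [← Complex.re_ofReal_mul]
      congr 1
      push_cast
      ring
    simp only [Complex.sub_re]
    rw [g1, g2]
    ring
  rw [e]
  have he : (0 : ℝ) < eps := by unfold eps; norm_num
  calc _ ≤ eps * (3 * ‖w - w'‖ ^ 2) + eps ^ 2 / 5 * (16 * ‖w - w'‖ ^ 2) := by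
        refine (abs_add_le _ _).trans ?_
        rw [abs_mul, abs_mul, abs_of_pos he, abs_of_pos (by positivity : (0 : ℝ) < eps ^ 2 / 5)]
        gcongr
    _ ≤ _ := by
        unfold eps
        nlinarith [sq_nonneg ‖w - w'‖]

/-- The perturbation data attached to two complex-valued functionals. -/
noncomputable def mkP (z₁ z₂ : E →L[ℝ] ℂ) (hz : ∀ x, ‖z₁ x‖ ^ 2 + ‖z₂ x‖ ^ 2 ≤ ‖x‖ ^ 2) :
    PData E where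
  h := hf z₁ z₂
  X := Xf z₁ z₂
  c := 1 / 10
  c_nonneg := by norm_num
  c_lt := by norm_num
  hcont := continuous_hf z₁ z₂
  hom := Xf_hom z₁ z₂
  key := hf_key z₁ z₂ hz

lemma mkP_diff (z₁ z₂ : E →L[ℝ] ℂ) (hz : ∀ x, ‖z₁ x‖ ^ 2 + ‖z₂ x‖ ^ 2 ≤ ‖x‖ ^ 2) :
    ∀ y : E, y ≠ 0 → DifferentiableAt ℝ (mkP z₁ z₂ hz).X y := fun _ hy =>
  (contDiffAt_Xf z₁ z₂ hy).differentiableAt one_ne_zero

lemma mkP_cont (z₁ z₂ : E →L[ℝ] ℂ) (hz : ∀ x, ‖z₁ x‖ ^ 2 + ‖z₂ x‖ ^ 2 ≤ ‖x‖ ^ 2) :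
    ContinuousOn (fderiv ℝ (mkP z₁ z₂ hz).X) {0}ᶜ := by
  have : ContDiffOn ℝ 1 (Xf z₁ z₂) {0}ᶜ := fun y hy =>
    (contDiffAt_Xf z₁ z₂ hy).contDiffWithinAt
  exact this.continuousOn_fderiv_of_isOpen isOpen_compl_singleton le_rfl

end Pool.Agent.Lib.MP_536123_gt
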