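import Mathlib
import Pool.Agent.Lib.MP_536123_gt.Inst

set_option autoImplicit false

open MeasureTheory Set Metric Module Filter Topology
open scoped RealInnerProductSpace ENNReal

namespace Pool.Agent.Lib.MP_536123_gt

variable {E : Type*} [NormedAddCommGroup E] [InnerProductSpace ℝ E]

lemma hasDerivAt_norm_line {v y : E} (hv : ‖v‖ = 1) :
    HasDerivAt (fun t : ℝ => ‖v + t • y‖) ⟪v, y⟫ 0 := by
  have h2 : HasDerivAt (fun t : ℝ => v + t • y) y 0 := by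
    have := (((hasDerivAt_id (0 : ℝ)).smul_const y).const_add v)
    simpa using this
  have h3 := h2.norm_sq
  have h4 : (fun t : ℝ => ‖v + t • y‖) = fun t : ℝ => √(‖v + t • y‖ ^ 2) := by
    ext t
    rw [Real.sqrt_sq (norm_nonneg _)]
  rw [h4]
  have h5 := h3.sqrt (by rw [zero_smul, add_zero, hv]; norm_num)
  convert h5 using 1
  rw [zero_smul, add_zero, hv]
  simp

/-- first coefficient of the Hessian form -/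
noncomputable def Cc (a b ax bx ay yb s u g : ℂ) : ℂ :=
  2 * (ay * b + a * yb) * ax + 2 * a * ay * bx - 2 * s * (2 * a * b * ax + a ^ 2 * bx) -
    2 * u * (2 * a * b * ay + a ^ 2 * yb) + 8 * s * u * (a ^ 2 * b) - 2 * g * (a ^ 2 * b)

/-- second coefficient of the Hessian form -/
noncomputable def Dc (a b ax bx ay yb s u g : ℂ) : ℂ :=
  12 * a ^ 2 * b ^ 2 * ay * ax + 8 * a ^ 3 * b * (yb * ax + ay * bx) + 2 * a ^ 4 * yb * bx -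
    5 * s * (4 * a ^ 3 * b ^ 2 * ax + 2 * a ^ 4 * b * bx) -
    5 * u * (4 * a ^ 3 * b ^ 2 * ay + 2 * a ^ 4 * b * yb) +
    35 * s * u * (a ^ 2 * b) ^ 2 - 5 * g * (a ^ 2 * b) ^ 2

lemma hasDerivAt_inv_pow {ρ : ℝ → ℝ} {s : ℝ} (hρ : HasDerivAt ρ s 0) (h0 : ρ 0 = 1) (n : ℕ) :
    HasDerivAt (fun t : ℝ => (((ρ t ^ n)⁻¹ : ℝ) : ℂ)) (-(n : ℂ) * s) 0 := by
  have h1 : HasDerivAt (fun t => (ρ t ^ n)⁻¹) (-(n : ℝ) * s) 0 := by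
    have h2 := (hρ.fun_pow n).fun_inv (by rw [h0]; simp)
    refine h2.congr_deriv ?_
    rw [h0]
    simp
  have h3 := h1.ofReal_comp
  refine h3.congr_deriv ?_
  push_cast
  ring

lemma deriv_form (ρ u : ℝ → ℝ) (A B : ℝ → ℂ) (s du : ℝ) (ay yb ax bx : ℂ)
    (hρ : HasDerivAt ρ s 0) (hρ0 : ρ 0 = 1) (hA : HasDerivAt A ay 0) (hB : HasDerivAt B yb 0)
    (hu : HasDerivAt u du 0) :
    HasDerivAt (fun t : ℝ =>
      (eps * (ρ t ^ 2)⁻¹) * (2 * A t * B t * ax + A t ^ 2 * bx).re -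
      (eps * 2 * (ρ t ^ 4)⁻¹ * (A t ^ 2 * B t).re) * u t +
      (eps ^ 2 / 5 * (ρ t ^ 5)⁻¹) * (4 * A t ^ 3 * B t ^ 2 * ax + 2 * A t ^ 4 * B t * bx).re -
      (eps ^ 2 * (ρ t ^ 7)⁻¹ * ((A t ^ 2 * B t) ^ 2).re) * u t)
      (eps * (Cc (A 0) (B 0) ax bx ay yb s (u 0) du).re +
        eps ^ 2 / 5 * (Dc (A 0) (B 0) ax bx ay yb s (u 0) du).re) 0 := by
  have r2 := hasDerivAt_inv_pow hρ hρ0 2
  have r4 := hasDerivAt_inv_pow hρ hρ0 4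
  have r5 := hasDerivAt_inv_pow hρ hρ0 5
  have r7 := hasDerivAt_inv_pow hρ hρ0 7
  have hu' : HasDerivAt (fun t => ((u t : ℝ) : ℂ)) du 0 := hu.ofReal_comp
  have t1 := (r2.const_mul (eps : ℂ)).fun_mul ((((hA.const_mul 2).fun_mul hB).mul_const ax).fun_add
    ((hA.fun_pow 2).mul_const bx))
  have t2 := ((r4.const_mul ((eps : ℂ) * 2)).fun_mul ((hA.fun_pow 2).fun_mul hB)).fun_mul hu'
  have t3 := (r5.const_mul ((eps : ℂ) ^ 2 / 5)).fun_mul (((((hA.fun_pow 3).const_mul 4).fun_mul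
    (hB.fun_pow 2)).mul_const ax).fun_add (((((hA.fun_pow 4).const_mul 2).fun_mul hB)).mul_const bx))
  have t4 := ((r7.const_mul ((eps : ℂ) ^ 2)).fun_mul (((hA.fun_pow 2).fun_mul hB).fun_pow 2)).fun_mul hu'
  have t := ((t1.fun_sub t2).fun_add t3).fun_sub t4
  have t' := (Complex.reCLM.hasFDerivAt).comp_hasDerivAt 0 t
  have e1 : (fun t : ℝ =>
      (eps * (ρ t ^ 2)⁻¹) * (2 * A t * B t * ax + A t ^ 2 * bx).re -
      (eps * 2 * (ρ t ^ 4)⁻¹ * (A t ^ 2 * B t).re) * u t +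
      (eps ^ 2 / 5 * (ρ t ^ 5)⁻¹) * (4 * A t ^ 3 * B t ^ 2 * ax + 2 * A t ^ 4 * B t * bx).re -
      (eps ^ 2 * (ρ t ^ 7)⁻¹ * ((A t ^ 2 * B t) ^ 2).re) * u t) =
      (fun t : ℝ => (((eps : ℂ) * (((ρ t ^ 2)⁻¹ : ℝ) : ℂ)) * (2 * A t * B t * ax + A t ^ 2 * bx) -
      ((eps : ℂ) * 2 * (((ρ t ^ 4)⁻¹ : ℝ) : ℂ) * (A t ^ 2 * B t)) * ((u t : ℝ) : ℂ) +
      ((eps : ℂ) ^ 2 / 5 * (((ρ t ^ 5)⁻¹ : ℝ) : ℂ)) *
        (4 * A t ^ 3 * B t ^ 2 * ax + 2 * A t ^ 4 * B t * bx) -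
      ((eps : ℂ) ^ 2 * (((ρ t ^ 7)⁻¹ : ℝ) : ℂ) * ((A t ^ 2 * B t) ^ 2)) * ((u t : ℝ) : ℂ)).re) := by
    ext t
    have g1 : ((eps : ℂ) * (((ρ t ^ 2)⁻¹ : ℝ) : ℂ)) * (2 * A t * B t * ax + A t ^ 2 * bx) =
        ((eps * (ρ t ^ 2)⁻¹ : ℝ) : ℂ) * (2 * A t * B t * ax + A t ^ 2 * bx) := by
      push_cast; ring
    have g2 : ((eps : ℂ) * 2 * (((ρ t ^ 4)⁻¹ : ℝ) : ℂ) * (A t ^ 2 * B t)) * ((u t : ℝ) : ℂ) =
        ((eps * 2 * (ρ t ^ 4)⁻¹ * u t : ℝ) : ℂ) * (A t ^ 2 * B t) := by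
      push_cast; ring
    have g3 : ((eps : ℂ) ^ 2 / 5 * (((ρ t ^ 5)⁻¹ : ℝ) : ℂ)) *
        (4 * A t ^ 3 * B t ^ 2 * ax + 2 * A t ^ 4 * B t * bx) =
        ((eps ^ 2 / 5 * (ρ t ^ 5)⁻¹ : ℝ) : ℂ) *
        (4 * A t ^ 3 * B t ^ 2 * ax + 2 * A t ^ 4 * B t * bx) := by
      push_cast; ring
    have g4 : ((eps : ℂ) ^ 2 * (((ρ t ^ 7)⁻¹ : ℝ) : ℂ) * ((A t ^ 2 * B t) ^ 2)) *
        ((u t : ℝ) : ℂ) = ((eps ^ 2 * (ρ t ^ 7)⁻¹ * u t : ℝ) : ℂ) * ((A t ^ 2 * B t) ^ 2) := by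
      push_cast; ring
    rw [g1, g2, g3, g4]
    simp only [Complex.sub_re, Complex.add_re, Complex.re_ofReal_mul]
    ring
  rw [e1]
  refine t'.congr_deriv ?_
  have g5 : eps * (Cc (A 0) (B 0) ax bx ay yb s (u 0) du).re +
        eps ^ 2 / 5 * (Dc (A 0) (B 0) ax bx ay yb s (u 0) du).re =
      ((eps : ℂ) * (Cc (A 0) (B 0) ax bx ay yb s (u 0) du) +
        (eps : ℂ) ^ 2 / 5 * (Dc (A 0) (B 0) ax bx ay yb s (u 0) du)).re := by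
    rw [Complex.add_re]
    have g1 : (eps : ℂ) ^ 2 / 5 * (Dc (A 0) (B 0) ax bx ay yb s (u 0) du) =
      ((eps ^ 2 / 5 : ℝ) : ℂ) * (Dc (A 0) (B 0) ax bx ay yb s (u 0) du) := by push_cast; ring
    rw [g1, Complex.re_ofReal_mul, Complex.re_ofReal_mul]
  rw [g5, Complex.reCLM_apply]
  congr 1
  rw [hρ0]
  unfold Cc Dc
  push_cast
  ring

variable [FiniteDimensional ℝ E]

lemma fderiv_Xf (z₁ z₂ : E →L[ℝ] ℂ) {v : E} (hv : ‖v‖ = 1) (x y : E) :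
    ⟪fderiv ℝ (Xf z₁ z₂) v y, x⟫ =
      eps * (Cc (z₁ v) (z₂ v) (z₁ x) (z₂ x) (z₁ y) (z₂ y) (⟪v, y⟫ : ℝ) (⟪v, x⟫ : ℝ)
        (⟪y, x⟫ : ℝ)).re +
      eps ^ 2 / 5 * (Dc (z₁ v) (z₂ v) (z₁ x) (z₂ x) (z₁ y) (z₂ y) (⟪v, y⟫ : ℝ) (⟪v, x⟫ : ℝ)
        (⟪y, x⟫ : ℝ)).re := by
  have hv0 : v ≠ 0 := by
    rintro rfl
    simp at hv
  have hL : HasDerivAt (fun t : ℝ => v + t • y) y 0 := by
    have := (((hasDerivAt_id (0 : ℝ)).smul_const y).const_add v)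
    simpa using this
  have h1 : HasDerivAt (fun t : ℝ => Xf z₁ z₂ (v + t • y)) (fderiv ℝ (Xf z₁ z₂) v y) 0 := by
    have h3 : HasFDerivAt (Xf z₁ z₂) (fderiv ℝ (Xf z₁ z₂) v) (v + (0 : ℝ) • y) := by
      rw [zero_smul, add_zero]
      exact ((contDiffAt_Xf z₁ z₂ hv0).differentiableAt one_ne_zero).hasFDerivAt
    exact h3.comp_hasDerivAt 0 hL
  have h2 : HasDerivAt (fun t : ℝ => ⟪Xf z₁ z₂ (v + t • y), x⟫)
      ⟪fderiv ℝ (Xf z₁ z₂) v y, x⟫ 0 := by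
    have := h1.inner ℝ (hasDerivAt_const (0 : ℝ) x)
    simpa using this
  have hr := hasDerivAt_norm_line (y := y) hv
  have hA : HasDerivAt (fun t : ℝ => z₁ (v + t • y)) (z₁ y) 0 :=
    z₁.hasFDerivAt.comp_hasDerivAt 0 hL
  have hB : HasDerivAt (fun t : ℝ => z₂ (v + t • y)) (z₂ y) 0 :=
    z₂.hasFDerivAt.comp_hasDerivAt 0 hL
  have hu : HasDerivAt (fun t : ℝ => ⟪v + t • y, x⟫) ⟪y, x⟫ 0 := by
    have := hL.inner ℝ (hasDerivAt_const (0 : ℝ) x)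
    simpa using this
  have t := deriv_form _ _ _ _ _ _ _ _ (z₁ x) (z₂ x) hr (by simp [hv]) hA hB hu
  simp_rw [inner_Xf] at h2
  have := h2.unique t
  rw [this]
  simp only [zero_smul, add_zero]

end Pool.Agent.Lib.MP_536123_gt
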