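import Mathlib
import Pool.Agent.Lib.MP_536123_gt.Hess

set_option autoImplicit false

open MeasureTheory Set Metric Module Filter Topology
open scoped RealInnerProductSpace ENNReal

namespace Pool.Agent.Lib.MP_536123_gt

/-- The second symmetric function of a symmetric matrix with the given entries. -/
def sig (c00 c01 c02 c11 c12 c22 : ℂ) : ℂ :=
  (c00 * c11 - c01 * c01) + (c00 * c22 - c02 * c02) + (c11 * c22 - c12 * c12)

lemma sig_identity (I x y t Q g k W Y Z : ℂ) (hI : I ^ 2 = -1)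
    (h1 : x * g + (y + I * t) * k = 3 * Q) (h2 : x * W + (y + I * t) * Y = 2 * g)
    (h3 : x * Y + (y + I * t) * Z = 2 * k) (hv : x ^ 2 + y ^ 2 + t ^ 2 = 1) :
    sig (W - 4 * x * g + 8 * x ^ 2 * Q - 2 * Q)
      (Y - 2 * y * g - 2 * x * k + 8 * x * y * Q)
      (I * Y - 2 * t * g - 2 * x * (I * k) + 8 * x * t * Q)
      (Z - 4 * y * k + 8 * y ^ 2 * Q - 2 * Q)
      (I * Z - 2 * t * k - 2 * y * (I * k) + 8 * y * t * Q)
      (-Z - 4 * t * (I * k) + 8 * t ^ 2 * Q - 2 * Q) =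
    16 * Q ^ 2 - 8 * Q * W + 4 * g ^ 2 := by
  set p := y + I * t with hp
  set n := y - I * t with hn
  have hpn : p * n = 1 - x ^ 2 := by
    rw [hp, hn]
    linear_combination (-t ^ 2) * hI + hv
  have hA : (Z - 4 * y * k + 8 * y ^ 2 * Q - 2 * Q) +
      (-Z - 4 * t * (I * k) + 8 * t ^ 2 * Q - 2 * Q) = -8 * Q + 4 * x * g - 8 * x ^ 2 * Q := by
    linear_combination (-4) * h1 + 8 * Q * hv
  have hP1 : (Y - 2 * y * g - 2 * x * k + 8 * x * y * Q) * (Y - 2 * y * g - 2 * x * k + 8 * x * y * Q)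
      + (I * Y - 2 * t * g - 2 * x * (I * k) + 8 * x * t * Q) *
        (I * Y - 2 * t * g - 2 * x * (I * k) + 8 * x * t * Q) =
      (-2 * g + 8 * x * Q) * (2 * (2 * g - x * W) - 2 * g * (1 - x ^ 2) - 4 * x * (3 * Q - x * g) +
        8 * x * Q * (1 - x ^ 2)) := by
    have e1 : (Y - 2 * y * g - 2 * x * k + 8 * x * y * Q) +
        I * (I * Y - 2 * t * g - 2 * x * (I * k) + 8 * x * t * Q) = (-2 * g + 8 * x * Q) * p := by
      rw [hp]
      linear_combination (Y - 2 * x * k) * hI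
    have e2 : (Y - 2 * y * g - 2 * x * k + 8 * x * y * Q) -
        I * (I * Y - 2 * t * g - 2 * x * (I * k) + 8 * x * t * Q) =
        2 * Y - 2 * g * n - 4 * x * k + 8 * x * Q * n := by
      rw [hn]
      linear_combination (-(Y - 2 * x * k)) * hI
    have e3 : p * (2 * Y - 2 * g * n - 4 * x * k + 8 * x * Q * n) =
        2 * (2 * g - x * W) - 2 * g * (1 - x ^ 2) - 4 * x * (3 * Q - x * g) +
        8 * x * Q * (1 - x ^ 2) := by
      linear_combination 2 * h2 + (-2 * g + 8 * x * Q) * hpn - 4 * x * h1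
    have e4 : (-2 * g + 8 * x * Q) * (p * (2 * Y - 2 * g * n - 4 * x * k + 8 * x * Q * n)) =
        ((-2 * g + 8 * x * Q) * p) * (2 * Y - 2 * g * n - 4 * x * k + 8 * x * Q * n) := by ring
    rw [← e3, e4, ← e1, ← e2]
    linear_combination ((I * Y - 2 * t * g - 2 * x * (I * k) + 8 * x * t * Q) ^ 2) * hI
  have hP2 : ((Z - 4 * y * k + 8 * y ^ 2 * Q - 2 * Q) - (-Z - 4 * t * (I * k) + 8 * t ^ 2 * Q - 2 * Q)) ^ 2
      + 4 * (I * Z - 2 * t * k - 2 * y * (I * k) + 8 * y * t * Q) ^ 2 =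
      32 * Q * (2 * (3 * Q - x * g) - x * (2 * g - x * W)) - 64 * Q * (3 * Q - x * g) * (1 - x ^ 2) +
        64 * Q ^ 2 * (1 - x ^ 2) ^ 2 := by
    have e1 : ((Z - 4 * y * k + 8 * y ^ 2 * Q - 2 * Q) - (-Z - 4 * t * (I * k) + 8 * t ^ 2 * Q - 2 * Q))
        + 2 * I * (I * Z - 2 * t * k - 2 * y * (I * k) + 8 * y * t * Q) = 8 * Q * p ^ 2 := by
      rw [hp]
      linear_combination (2 * Z - 4 * y * k - 8 * Q * t ^ 2) * hI
    have e2 : ((Z - 4 * y * k + 8 * y ^ 2 * Q - 2 * Q) - (-Z - 4 * t * (I * k) + 8 * t ^ 2 * Q - 2 * Q))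
        - 2 * I * (I * Z - 2 * t * k - 2 * y * (I * k) + 8 * y * t * Q) =
        4 * Z - 8 * k * n + 8 * Q * n ^ 2 := by
      rw [hn]
      linear_combination (-(2 * Z - 4 * y * k) - 8 * Q * t ^ 2) * hI
    have e3 : p ^ 2 * (4 * Z - 8 * k * n + 8 * Q * n ^ 2) =
        4 * (2 * (3 * Q - x * g) - x * (2 * g - x * W)) - 8 * (3 * Q - x * g) * (1 - x ^ 2) +
        8 * Q * (1 - x ^ 2) ^ 2 := by
      have f1 : p * k = 3 * Q - x * g := by linear_combination h1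
      have f2 : p * Y = 2 * g - x * W := by linear_combination h2
      have f3 : p ^ 2 * Z = 2 * (3 * Q - x * g) - x * (2 * g - x * W) := by
        linear_combination p * h3 + 2 * f1 - x * f2
      have f4 : p ^ 2 * n ^ 2 = (1 - x ^ 2) ^ 2 := by
        rw [← hpn]; ring
      linear_combination 4 * f3 - 8 * (p * n) * f1 - 8 * (3 * Q - x * g) * hpn + 8 * Q * f4
    have e4 : 32 * Q * (2 * (3 * Q - x * g) - x * (2 * g - x * W)) -
        64 * Q * (3 * Q - x * g) * (1 - x ^ 2) + 64 * Q ^ 2 * (1 - x ^ 2) ^ 2 =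
        8 * Q * (p ^ 2 * (4 * Z - 8 * k * n + 8 * Q * n ^ 2)) := by
      rw [e3]; ring
    rw [e4]
    have e5 : 8 * Q * (p ^ 2 * (4 * Z - 8 * k * n + 8 * Q * n ^ 2)) =
        (8 * Q * p ^ 2) * (4 * Z - 8 * k * n + 8 * Q * n ^ 2) := by ring
    rw [e5, ← e1, ← e2]
    linear_combination (4 * (I * Z - 2 * t * k - 2 * y * (I * k) + 8 * y * t * Q) ^ 2) * hI
  have hsig : ∀ c00 c01 c02 c11 c12 c22 : ℂ, sig c00 c01 c02 c11 c12 c22 =
      c00 * (c11 + c22) + ((c11 + c22) ^ 2 - ((c11 - c22) ^ 2 + 4 * c12 ^ 2)) / 4 -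
      (c01 * c01 + c02 * c02) := by
    intros
    unfold sig
    ring
  rw [hsig, hA, hP1, hP2]
  ring

/-- the real second symmetric function -/
def sigR (c00 c01 c02 c11 c12 c22 : ℝ) : ℝ :=
  (c00 * c11 - c01 * c01) + (c00 * c22 - c02 * c02) + (c11 * c22 - c12 * c12)

lemma sig_re (c00 c01 c02 c11 c12 c22 : ℂ) : (sig c00 c01 c02 c11 c12 c22).re =
    sigR c00.re c01.re c02.re c11.re c12.re c22.re -
    sigR c00.im c01.im c02.im c11.im c12.im c22.im := by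
  simp only [sig, sigR, Complex.add_re, Complex.sub_re, Complex.mul_re]
  ring

lemma real_id (e r00 r01 r02 r11 r12 r22 j00 j01 j02 j11 j12 j22 s00 s01 s02 s11 s12 s22 : ℝ) :
    ((e * r00 + e ^ 2 / 5 * s00) + (e * r11 + e ^ 2 / 5 * s11) + (e * r22 + e ^ 2 / 5 * s22) +
      sigR (e * r00 + e ^ 2 / 5 * s00) (e * r01 + e ^ 2 / 5 * s01) (e * r02 + e ^ 2 / 5 * s02)
        (e * r11 + e ^ 2 / 5 * s11) (e * r12 + e ^ 2 / 5 * s12) (e * r22 + e ^ 2 / 5 * s22)) +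
    ((e * (-r00) + e ^ 2 / 5 * s00) + (e * (-r11) + e ^ 2 / 5 * s11) +
      (e * (-r22) + e ^ 2 / 5 * s22) +
      sigR (e * (-r00) + e ^ 2 / 5 * s00) (e * (-r01) + e ^ 2 / 5 * s01)
        (e * (-r02) + e ^ 2 / 5 * s02) (e * (-r11) + e ^ 2 / 5 * s11)
        (e * (-r12) + e ^ 2 / 5 * s12) (e * (-r22) + e ^ 2 / 5 * s22)) -
    ((e * (-j00) + e ^ 2 / 5 * (-s00)) + (e * (-j11) + e ^ 2 / 5 * (-s11)) +
      (e * (-j22) + e ^ 2 / 5 * (-s22)) +
      sigR (e * (-j00) + e ^ 2 / 5 * (-s00)) (e * (-j01) + e ^ 2 / 5 * (-s01))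
        (e * (-j02) + e ^ 2 / 5 * (-s02)) (e * (-j11) + e ^ 2 / 5 * (-s11))
        (e * (-j12) + e ^ 2 / 5 * (-s12)) (e * (-j22) + e ^ 2 / 5 * (-s22))) -
    ((e * j00 + e ^ 2 / 5 * (-s00)) + (e * j11 + e ^ 2 / 5 * (-s11)) +
      (e * j22 + e ^ 2 / 5 * (-s22)) +
      sigR (e * j00 + e ^ 2 / 5 * (-s00)) (e * j01 + e ^ 2 / 5 * (-s01))
        (e * j02 + e ^ 2 / 5 * (-s02)) (e * j11 + e ^ 2 / 5 * (-s11))
        (e * j12 + e ^ 2 / 5 * (-s12)) (e * j22 + e ^ 2 / 5 * (-s22))) =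
    2 * e ^ 2 * (2 / 5 * (s00 + s11 + s22) +
      (sigR r00 r01 r02 r11 r12 r22 - sigR j00 j01 j02 j11 j12 j22)) := by
  unfold sigR
  ring

/-- the linear form `a x + b (y + i t)` on three-space -/
noncomputable def lf (a b : ℂ) : EuclideanSpace ℝ (Fin 3) →L[ℝ] ℂ :=
  a • (Complex.ofRealCLM.comp (EuclideanSpace.proj (0 : Fin 3))) +
  b • (Complex.ofRealCLM.comp (EuclideanSpace.proj (1 : Fin 3)) +
    Complex.I • (Complex.ofRealCLM.comp (EuclideanSpace.proj (2 : Fin 3))))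

lemma lf_apply (a b : ℂ) (v : EuclideanSpace ℝ (Fin 3)) :
    lf a b v = a * (v 0 : ℂ) + b * ((v 1 : ℂ) + Complex.I * (v 2 : ℂ)) := by
  simp [lf]
  ring

lemma ent_eq_inner {n : ℕ} (D : EuclideanSpace ℝ (Fin n) →L[ℝ] EuclideanSpace ℝ (Fin n))
    (j k : Fin n) :
    ent D j k = ⟪D (EuclideanSpace.single k 1), EuclideanSpace.single j 1⟫ := by
  rw [ent, EuclideanSpace.inner_single_right]
  simp

lemma ent_Xf {n : ℕ} (z₁ z₂ : EuclideanSpace ℝ (Fin n) →L[ℝ] ℂ) {v : EuclideanSpace ℝ (Fin n)}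
    (hv : ‖v‖ = 1) (j k : Fin n) :
    ent (fderiv ℝ (Xf z₁ z₂) v) j k =
      eps * (Cc (z₁ v) (z₂ v) (z₁ (EuclideanSpace.single j 1)) (z₂ (EuclideanSpace.single j 1))
        (z₁ (EuclideanSpace.single k 1)) (z₂ (EuclideanSpace.single k 1)) (v k : ℝ) (v j : ℝ)
        (if j = k then 1 else 0)).re +
      eps ^ 2 / 5 * (Dc (z₁ v) (z₂ v) (z₁ (EuclideanSpace.single j 1))
        (z₂ (EuclideanSpace.single j 1))
        (z₁ (EuclideanSpace.single k 1)) (z₂ (EuclideanSpace.single k 1)) (v k : ℝ) (v j : ℝ)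
        (if j = k then 1 else 0)).re := by
  have h1 : ⟪v, EuclideanSpace.single k (1 : ℝ)⟫ = v k := by
    rw [EuclideanSpace.inner_single_right]; simp
  have h2 : ⟪v, EuclideanSpace.single j (1 : ℝ)⟫ = v j := by
    rw [EuclideanSpace.inner_single_right]; simp
  have h3 : ((⟪EuclideanSpace.single k (1 : ℝ), EuclideanSpace.single j (1 : ℝ)⟫ : ℝ) : ℂ) =
      (if j = k then 1 else 0) := by
    rw [EuclideanSpace.inner_single_right]
    by_cases hjk : j = k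
    · simp [hjk]
    · simp [hjk]
  rw [ent_eq_inner, fderiv_Xf z₁ z₂ hv, h1, h2, h3]

lemma Cc_neg (a b ax bx ay yb s u g : ℂ) :
    Cc (-a) (-b) ax bx ay yb (-s) (-u) g = -Cc a b ax bx ay yb s u g := by
  unfold Cc; ring

lemma Dc_neg (a b ax bx ay yb s u g : ℂ) :
    Dc (-a) (-b) ax bx ay yb (-s) (-u) g = Dc a b ax bx ay yb s u g := by
  unfold Dc; ring

lemma Cc_I (a b ax bx ay yb s u g : ℂ) :
    Cc a (Complex.I * b) ax (Complex.I * bx) ay (Complex.I * yb) s u g =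
      Complex.I * Cc a b ax bx ay yb s u g := by
  unfold Cc; ring

lemma Dc_I (a b ax bx ay yb s u g : ℂ) :
    Dc a (Complex.I * b) ax (Complex.I * bx) ay (Complex.I * yb) s u g =
      -Dc a b ax bx ay yb s u g := by
  unfold Dc
  linear_combination (12 * a ^ 2 * b ^ 2 * ay * ax + 8 * a ^ 3 * b * (yb * ax + ay * bx) +
    2 * a ^ 4 * yb * bx - 5 * s * (4 * a ^ 3 * b ^ 2 * ax + 2 * a ^ 4 * b * bx) -
    5 * u * (4 * a ^ 3 * b ^ 2 * ay + 2 * a ^ 4 * b * yb) +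
    35 * s * u * (a ^ 2 * b) ^ 2 - 5 * g * (a ^ 2 * b) ^ 2) * Complex.I_sq

/-- trace plus second symmetric function -/
noncomputable def ts3 (D : EuclideanSpace ℝ (Fin 3) →L[ℝ] EuclideanSpace ℝ (Fin 3)) : ℝ :=
  tr3 D + sg3 D

lemma ts3_of_entries (D : EuclideanSpace ℝ (Fin 3) →L[ℝ] EuclideanSpace ℝ (Fin 3))
    (m00 m01 m02 m11 m12 m22 : ℝ) (h00 : ent D 0 0 = m00) (h01 : ent D 0 1 = m01)
    (h10 : ent D 1 0 = m01) (h02 : ent D 0 2 = m02) (h20 : ent D 2 0 = m02)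
    (h11 : ent D 1 1 = m11) (h12 : ent D 1 2 = m12) (h21 : ent D 2 1 = m12)
    (h22 : ent D 2 2 = m22) :
    ts3 D = m00 + m11 + m22 + sigR m00 m01 m02 m11 m12 m22 := by
  unfold ts3 tr3 sg3 sigR
  rw [h00, h01, h10, h02, h20, h11, h12, h21, h22]

/-- the key pointwise identity -/
lemma ts3_identity (a b c e : ℂ) {v : EuclideanSpace ℝ (Fin 3)} (hv : ‖v‖ = 1) :
    ts3 (fderiv ℝ (Xf (lf a b) (lf c e)) v) + ts3 (fderiv ℝ (Xf (lf a b) (lf c e)) (-v)) -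
      ts3 (fderiv ℝ (Xf (lf a b) (lf (Complex.I * c) (Complex.I * e))) v) -
      ts3 (fderiv ℝ (Xf (lf a b) (lf (Complex.I * c) (Complex.I * e))) (-v)) =
    2 * eps ^ 2 * (24 / 5 * (a * e - b * c) ^ 2 *
      (lf a b v ^ 2 * ((v 1 : ℂ) + Complex.I * (v 2 : ℂ)) ^ 2)).re := by
  have hv' : ‖-v‖ = 1 := by rw [norm_neg, hv]
  have hvsq : ((v 0 : ℂ)) ^ 2 + ((v 1 : ℂ)) ^ 2 + ((v 2 : ℂ)) ^ 2 = 1 := by
    have := EuclideanSpace.real_norm_sq_eq v
    rw [hv, Fin.sum_univ_three] at this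
    have h2 : ((1 : ℝ) ^ 2 : ℂ) = (((v 0) ^ 2 + (v 1) ^ 2 + (v 2) ^ 2 : ℝ) : ℂ) := by
      rw [← this]; norm_num
    push_cast at h2
    rw [← h2]; norm_num
  -- the values of the linear forms at basis vectors
  have za0 : ∀ p q : ℂ, lf p q (EuclideanSpace.single 0 1) = p := by
    intro p q; simp [lf_apply]
  have za1 : ∀ p q : ℂ, lf p q (EuclideanSpace.single 1 1) = q := by
    intro p q; simp [lf_apply]
  have za2 : ∀ p q : ℂ, lf p q (EuclideanSpace.single 2 1) = q * Complex.I := by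
    intro p q; simp [lf_apply]
  have hmul : ∀ x, lf (Complex.I * c) (Complex.I * e) x = Complex.I * lf c e x := by
    intro x; rw [lf_apply, lf_apply]; ring
  obtain ⟨x, hx⟩ : ∃ x : ℂ, x = (v 0 : ℂ) := ⟨_, rfl⟩
  obtain ⟨y, hy⟩ : ∃ y : ℂ, y = (v 1 : ℂ) := ⟨_, rfl⟩
  obtain ⟨t, ht⟩ : ∃ t : ℂ, t = (v 2 : ℂ) := ⟨_, rfl⟩
  obtain ⟨A, hA⟩ : ∃ A : ℂ, A = lf a b v := ⟨_, rfl⟩
  obtain ⟨B, hB⟩ : ∃ B : ℂ, B = lf c e v := ⟨_, rfl⟩
  have hA' : A = a * x + b * (y + Complex.I * t) := by rw [hA, lf_apply, hx, hy, ht]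
  have hB' : B = c * x + e * (y + Complex.I * t) := by rw [hB, lf_apply, hx, hy, ht]
  have nx : (((-v) 0 : ℝ) : ℂ) = -x := by rw [hx]; simp
  have ny : (((-v) 1 : ℝ) : ℂ) = -y := by rw [hy]; simp
  have nt : (((-v) 2 : ℝ) : ℂ) = -t := by rw [ht]; simp
  rw [← hx, ← hy, ← ht] at hvsq
  -- complex entries
  obtain ⟨c00, e00⟩ : ∃ z, z = Cc A B a c a c x x 1 := ⟨_, rfl⟩
  obtain ⟨c01, e01⟩ : ∃ z, z = Cc A B a c b e y x 0 := ⟨_, rfl⟩
  obtain ⟨c02, e02⟩ : ∃ z, z = Cc A B a c (b * Complex.I) (e * Complex.I) t x 0 := ⟨_, rfl⟩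
  obtain ⟨c11, e11⟩ : ∃ z, z = Cc A B b e b e y y 1 := ⟨_, rfl⟩
  obtain ⟨c12, e12⟩ : ∃ z, z = Cc A B b e (b * Complex.I) (e * Complex.I) t y 0 := ⟨_, rfl⟩
  obtain ⟨c22, e22⟩ : ∃ z, z = Cc A B (b * Complex.I) (e * Complex.I) (b * Complex.I)
    (e * Complex.I) t t 1 := ⟨_, rfl⟩
  obtain ⟨d00, f00⟩ : ∃ z, z = Dc A B a c a c x x 1 := ⟨_, rfl⟩
  obtain ⟨d01, f01⟩ : ∃ z, z = Dc A B a c b e y x 0 := ⟨_, rfl⟩
  obtain ⟨d02, f02⟩ : ∃ z, z = Dc A B a c (b * Complex.I) (e * Complex.I) t x 0 := ⟨_, rfl⟩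
  obtain ⟨d11, f11⟩ : ∃ z, z = Dc A B b e b e y y 1 := ⟨_, rfl⟩
  obtain ⟨d12, f12⟩ : ∃ z, z = Dc A B b e (b * Complex.I) (e * Complex.I) t y 0 := ⟨_, rfl⟩
  obtain ⟨d22, f22⟩ : ∃ z, z = Dc A B (b * Complex.I) (e * Complex.I) (b * Complex.I)
    (e * Complex.I) t t 1 := ⟨_, rfl⟩
  -- symmetric partners
  have e10 : c01 = Cc A B b e a c x y 0 := by rw [e01]; unfold Cc; ring
  have e20 : c02 = Cc A B (b * Complex.I) (e * Complex.I) a c x t 0 := by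
    rw [e02]; unfold Cc; ring
  have e21 : c12 = Cc A B (b * Complex.I) (e * Complex.I) b e y t 0 := by
    rw [e12]; unfold Cc; ring
  have f10 : d01 = Dc A B b e a c x y 0 := by rw [f01]; unfold Dc; ring
  have f20 : d02 = Dc A B (b * Complex.I) (e * Complex.I) a c x t 0 := by
    rw [f02]; unfold Dc; ring
  have f21 : d12 = Dc A B (b * Complex.I) (e * Complex.I) b e y t 0 := by
    rw [f12]; unfold Dc; ring
  have j01 : (0 : Fin 3) ≠ 1 := by decide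
  have j10 : (1 : Fin 3) ≠ 0 := by decide
  have j02 : (0 : Fin 3) ≠ 2 := by decide
  have j20 : (2 : Fin 3) ≠ 0 := by decide
  have j12 : (1 : Fin 3) ≠ 2 := by decide
  have j21 : (2 : Fin 3) ≠ 1 := by decide
  -- first matrix
  have M1 := ts3_of_entries (fderiv ℝ (Xf (lf a b) (lf c e)) v) (eps * c00.re + eps ^ 2 / 5 * d00.re)
      (eps * c01.re + eps ^ 2 / 5 * d01.re) (eps * c02.re + eps ^ 2 / 5 * d02.re)
      (eps * c11.re + eps ^ 2 / 5 * d11.re) (eps * c12.re + eps ^ 2 / 5 * d12.re)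
      (eps * c22.re + eps ^ 2 / 5 * d22.re)
    (by rw [ent_Xf _ _ hv, za0, za0, ← hA, ← hB, ← hx, if_pos rfl, ← e00, ← f00])
    (by rw [ent_Xf _ _ hv, za0, za0, za1, za1, ← hA, ← hB, ← hx, ← hy, if_neg j01, ← e01, ← f01])
    (by rw [ent_Xf _ _ hv, za0, za0, za1, za1, ← hA, ← hB, ← hx, ← hy, if_neg j10, ← e10, ← f10])
    (by rw [ent_Xf _ _ hv, za0, za0, za2, za2, ← hA, ← hB, ← hx, ← ht, if_neg j02, ← e02, ← f02])
    (by rw [ent_Xf _ _ hv, za0, za0, za2, za2, ← hA, ← hB, ← hx, ← ht, if_neg j20, ← e20, ← f20])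
    (by rw [ent_Xf _ _ hv, za1, za1, ← hA, ← hB, ← hy, if_pos rfl, ← e11, ← f11])
    (by rw [ent_Xf _ _ hv, za1, za1, za2, za2, ← hA, ← hB, ← hy, ← ht, if_neg j12, ← e12, ← f12])
    (by rw [ent_Xf _ _ hv, za1, za1, za2, za2, ← hA, ← hB, ← hy, ← ht, if_neg j21, ← e21, ← f21])
    (by rw [ent_Xf _ _ hv, za2, za2, ← hA, ← hB, ← ht, if_pos rfl, ← e22, ← f22])
  have M2 := ts3_of_entries (fderiv ℝ (Xf (lf a b) (lf c e)) (-v)) (eps * (-c00.re) + eps ^ 2 / 5 * d00.re)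
      (eps * (-c01.re) + eps ^ 2 / 5 * d01.re) (eps * (-c02.re) + eps ^ 2 / 5 * d02.re)
      (eps * (-c11.re) + eps ^ 2 / 5 * d11.re) (eps * (-c12.re) + eps ^ 2 / 5 * d12.re)
      (eps * (-c22.re) + eps ^ 2 / 5 * d22.re)
    (by rw [ent_Xf _ _ hv', za0, za0, map_neg, map_neg, ← hA, ← hB, nx, if_pos rfl, Cc_neg, Dc_neg,
        ← e00, ← f00, Complex.neg_re])
    (by rw [ent_Xf _ _ hv', za0, za0, za1, za1, map_neg, map_neg, ← hA, ← hB, nx, ny, if_neg j01,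
        Cc_neg, Dc_neg, ← e01, ← f01, Complex.neg_re])
    (by rw [ent_Xf _ _ hv', za0, za0, za1, za1, map_neg, map_neg, ← hA, ← hB, nx, ny, if_neg j10,
        Cc_neg, Dc_neg, ← e10, ← f10, Complex.neg_re])
    (by rw [ent_Xf _ _ hv', za0, za0, za2, za2, map_neg, map_neg, ← hA, ← hB, nx, nt, if_neg j02,
        Cc_neg, Dc_neg, ← e02, ← f02, Complex.neg_re])
    (by rw [ent_Xf _ _ hv', za0, za0, za2, za2, map_neg, map_neg, ← hA, ← hB, nx, nt, if_neg j20,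
        Cc_neg, Dc_neg, ← e20, ← f20, Complex.neg_re])
    (by rw [ent_Xf _ _ hv', za1, za1, map_neg, map_neg, ← hA, ← hB, ny, if_pos rfl, Cc_neg, Dc_neg,
        ← e11, ← f11, Complex.neg_re])
    (by rw [ent_Xf _ _ hv', za1, za1, za2, za2, map_neg, map_neg, ← hA, ← hB, ny, nt, if_neg j12,
        Cc_neg, Dc_neg, ← e12, ← f12, Complex.neg_re])
    (by rw [ent_Xf _ _ hv', za1, za1, za2, za2, map_neg, map_neg, ← hA, ← hB, ny, nt, if_neg j21,
        Cc_neg, Dc_neg, ← e21, ← f21, Complex.neg_re])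
    (by rw [ent_Xf _ _ hv', za2, za2, map_neg, map_neg, ← hA, ← hB, nt, if_pos rfl, Cc_neg, Dc_neg,
        ← e22, ← f22, Complex.neg_re])
  have hIre : ∀ z : ℂ, (Complex.I * z).re = -z.im := by intro z; simp
  have M3 := ts3_of_entries (fderiv ℝ (Xf (lf a b) (lf (Complex.I * c) (Complex.I * e))) v) (eps * (-c00.im) + eps ^ 2 / 5 * (-d00.re))
      (eps * (-c01.im) + eps ^ 2 / 5 * (-d01.re)) (eps * (-c02.im) + eps ^ 2 / 5 * (-d02.re))
      (eps * (-c11.im) + eps ^ 2 / 5 * (-d11.re)) (eps * (-c12.im) + eps ^ 2 / 5 * (-d12.re))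
      (eps * (-c22.im) + eps ^ 2 / 5 * (-d22.re))
    (by rw [ent_Xf _ _ hv, hmul, hmul, Cc_I, Dc_I, za0, za0, ← hA, ← hB, ← hx, if_pos rfl, ← e00,
        ← f00, hIre, Complex.neg_re])
    (by rw [ent_Xf _ _ hv, hmul, hmul, hmul, Cc_I, Dc_I, za0, za0, za1, za1, ← hA, ← hB, ← hx, ← hy,
        if_neg j01, ← e01, ← f01, hIre, Complex.neg_re])
    (by rw [ent_Xf _ _ hv, hmul, hmul, hmul, Cc_I, Dc_I, za0, za0, za1, za1, ← hA, ← hB, ← hx, ← hy,
        if_neg j10, ← e10, ← f10, hIre, Complex.neg_re])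
    (by rw [ent_Xf _ _ hv, hmul, hmul, hmul, Cc_I, Dc_I, za0, za0, za2, za2, ← hA, ← hB, ← hx, ← ht,
        if_neg j02, ← e02, ← f02, hIre, Complex.neg_re])
    (by rw [ent_Xf _ _ hv, hmul, hmul, hmul, Cc_I, Dc_I, za0, za0, za2, za2, ← hA, ← hB, ← hx, ← ht,
        if_neg j20, ← e20, ← f20, hIre, Complex.neg_re])
    (by rw [ent_Xf _ _ hv, hmul, hmul, Cc_I, Dc_I, za1, za1, ← hA, ← hB, ← hy, if_pos rfl, ← e11,
        ← f11, hIre, Complex.neg_re])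
    (by rw [ent_Xf _ _ hv, hmul, hmul, hmul, Cc_I, Dc_I, za1, za1, za2, za2, ← hA, ← hB, ← hy, ← ht,
        if_neg j12, ← e12, ← f12, hIre, Complex.neg_re])
    (by rw [ent_Xf _ _ hv, hmul, hmul, hmul, Cc_I, Dc_I, za1, za1, za2, za2, ← hA, ← hB, ← hy, ← ht,
        if_neg j21, ← e21, ← f21, hIre, Complex.neg_re])
    (by rw [ent_Xf _ _ hv, hmul, hmul, Cc_I, Dc_I, za2, za2, ← hA, ← hB, ← ht, if_pos rfl, ← e22,
        ← f22, hIre, Complex.neg_re])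
  have M4 := ts3_of_entries (fderiv ℝ (Xf (lf a b) (lf (Complex.I * c) (Complex.I * e))) (-v)) (eps * c00.im + eps ^ 2 / 5 * (-d00.re))
      (eps * c01.im + eps ^ 2 / 5 * (-d01.re)) (eps * c02.im + eps ^ 2 / 5 * (-d02.re))
      (eps * c11.im + eps ^ 2 / 5 * (-d11.re)) (eps * c12.im + eps ^ 2 / 5 * (-d12.re))
      (eps * c22.im + eps ^ 2 / 5 * (-d22.re))
    (by rw [ent_Xf _ _ hv', hmul, hmul, Cc_I, Dc_I, za0, za0, map_neg, map_neg, ← hA, ← hB, nx,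
        if_pos rfl, Cc_neg, Dc_neg, ← e00, ← f00, hIre, Complex.neg_re, Complex.neg_im, neg_neg])
    (by rw [ent_Xf _ _ hv', hmul, hmul, hmul, Cc_I, Dc_I, za0, za0, za1, za1, map_neg, map_neg,
        ← hA, ← hB, nx, ny, if_neg j01, Cc_neg, Dc_neg, ← e01, ← f01, hIre, Complex.neg_re,
        Complex.neg_im, neg_neg])
    (by rw [ent_Xf _ _ hv', hmul, hmul, hmul, Cc_I, Dc_I, za0, za0, za1, za1, map_neg, map_neg,
        ← hA, ← hB, nx, ny, if_neg j10, Cc_neg, Dc_neg, ← e10, ← f10, hIre, Complex.neg_re,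
        Complex.neg_im, neg_neg])
    (by rw [ent_Xf _ _ hv', hmul, hmul, hmul, Cc_I, Dc_I, za0, za0, za2, za2, map_neg, map_neg,
        ← hA, ← hB, nx, nt, if_neg j02, Cc_neg, Dc_neg, ← e02, ← f02, hIre, Complex.neg_re,
        Complex.neg_im, neg_neg])
    (by rw [ent_Xf _ _ hv', hmul, hmul, hmul, Cc_I, Dc_I, za0, za0, za2, za2, map_neg, map_neg,
        ← hA, ← hB, nx, nt, if_neg j20, Cc_neg, Dc_neg, ← e20, ← f20, hIre, Complex.neg_re,
        Complex.neg_im, neg_neg])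
    (by rw [ent_Xf _ _ hv', hmul, hmul, Cc_I, Dc_I, za1, za1, map_neg, map_neg, ← hA, ← hB, ny,
        if_pos rfl, Cc_neg, Dc_neg, ← e11, ← f11, hIre, Complex.neg_re, Complex.neg_im, neg_neg])
    (by rw [ent_Xf _ _ hv', hmul, hmul, hmul, Cc_I, Dc_I, za1, za1, za2, za2, map_neg, map_neg,
        ← hA, ← hB, ny, nt, if_neg j12, Cc_neg, Dc_neg, ← e12, ← f12, hIre, Complex.neg_re,
        Complex.neg_im, neg_neg])
    (by rw [ent_Xf _ _ hv', hmul, hmul, hmul, Cc_I, Dc_I, za1, za1, za2, za2, map_neg, map_neg,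
        ← hA, ← hB, ny, nt, if_neg j21, Cc_neg, Dc_neg, ← e21, ← f21, hIre, Complex.neg_re,
        Complex.neg_im, neg_neg])
    (by rw [ent_Xf _ _ hv', hmul, hmul, Cc_I, Dc_I, za2, za2, map_neg, map_neg, ← hA, ← hB, nt,
        if_pos rfl, Cc_neg, Dc_neg, ← e22, ← f22, hIre, Complex.neg_re, Complex.neg_im, neg_neg])
  rw [M1, M2, M3, M4, real_id, ← sig_re]
  congr 1
  -- complex identity
  have hsig : sig c00 c01 c02 c11 c12 c22 =
      16 * (A ^ 2 * B) ^ 2 - 8 * (A ^ 2 * B) * (2 * a ^ 2 * B + 4 * a * A * c) +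
        4 * (2 * A * B * a + A ^ 2 * c) ^ 2 := by
    rw [← sig_identity Complex.I x y t (A ^ 2 * B) (2 * A * B * a + A ^ 2 * c)
      (2 * A * B * b + A ^ 2 * e) (2 * a ^ 2 * B + 4 * a * A * c)
      (2 * a * b * B + 2 * A * (a * e + b * c)) (2 * b ^ 2 * B + 4 * A * b * e) Complex.I_sq
      (by linear_combination (-2 * A * B) * hA' - A ^ 2 * hB')
      (by linear_combination (-2 * a * B - 2 * A * c) * hA' - 2 * A * a * hB')
      (by linear_combination (-2 * b * B - 2 * A * e) * hA' - 2 * A * b * hB')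
      hvsq]
    have k22 : c22 = -(2 * b ^ 2 * B + 4 * A * b * e) -
        4 * t * (Complex.I * (2 * A * B * b + A ^ 2 * e)) + 8 * t ^ 2 * (A ^ 2 * B) -
        2 * (A ^ 2 * B) := by
      rw [e22]; unfold Cc
      linear_combination (2 * b ^ 2 * B + 4 * A * b * e) * Complex.I_sq
    rw [k22, e00, e01, e02, e11, e12]
    unfold Cc
    congr 1 <;> ring
  have htr : d00 + d11 + d22 = 2 * (2 * A * B * a + A ^ 2 * c) ^ 2 +
      2 * (A ^ 2 * B) * (2 * a ^ 2 * B + 4 * a * A * c) - 40 * (A ^ 2 * B) ^ 2 := by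
    have heul : x * (2 * A * B * a + A ^ 2 * c) + (y + Complex.I * t) * (2 * A * B * b + A ^ 2 * e) =
        3 * (A ^ 2 * B) := by linear_combination (-2 * A * B) * hA' - A ^ 2 * hB'
    rw [f00, f11, f22]
    unfold Dc
    linear_combination (12 * A ^ 2 * B ^ 2 * b ^ 2 + 16 * A ^ 3 * B * b * e + 2 * A ^ 4 * e ^ 2) *
      Complex.I_sq - 20 * (A ^ 2 * B) * heul + 35 * (A ^ 2 * B) ^ 2 * hvsq
  have hfin : 2 / 5 * (d00 + d11 + d22) + sig c00 c01 c02 c11 c12 c22 =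
      24 / 5 * (a * e - b * c) ^ 2 * (A ^ 2 * (y + Complex.I * t) ^ 2) := by
    rw [hsig, htr]
    have haB : a * B - c * A = (a * e - b * c) * (y + Complex.I * t) := by
      rw [hA', hB']; ring
    have : 24 / 5 * (a * e - b * c) ^ 2 * (A ^ 2 * (y + Complex.I * t) ^ 2) =
        24 / 5 * A ^ 2 * ((a * e - b * c) * (y + Complex.I * t)) ^ 2 := by ring
    rw [this, ← haB]
    ring
  have hre : (2 / 5 * (d00 + d11 + d22) + sig c00 c01 c02 c11 c12 c22).re =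
      2 / 5 * (d00.re + d11.re + d22.re) + (sig c00 c01 c02 c11 c12 c22).re := by
    have : (2 / 5 * (d00 + d11 + d22) : ℂ) = ((2 / 5 : ℝ) : ℂ) * (d00 + d11 + d22) := by
      push_cast; ring
    rw [Complex.add_re, this, Complex.re_ofReal_mul, Complex.add_re, Complex.add_re]
  rw [← hre, hfin, ← hA, hy, ht]

end Pool.Agent.Lib.MP_536123_gt
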