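import Mathlib
import Pool.Agent.Lib.MP_536123_gt.Alg3

set_option autoImplicit false

open MeasureTheory Set Metric Module Filter Topology
open scoped RealInnerProductSpace ENNReal

namespace Pool.Agent.Lib.MP_536123_gt

/-- rotation about the first axis, as a linear map -/
noncomputable def rotL (θ : ℝ) : EuclideanSpace ℝ (Fin 3) →ₗ[ℝ] EuclideanSpace ℝ (Fin 3) where
  toFun v := !₂[v 0, Real.cos θ * v 1 - Real.sin θ * v 2, Real.sin θ * v 1 + Real.cos θ * v 2]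
  map_add' v w := by
    ext i
    fin_cases i <;> simp <;> ring
  map_smul' t v := by
    ext i
    fin_cases i <;> simp <;> ring

lemma rotL_norm (θ : ℝ) (v : EuclideanSpace ℝ (Fin 3)) : ‖rotL θ v‖ = ‖v‖ := by
  have h1 := EuclideanSpace.real_norm_sq_eq (rotL θ v)
  have h2 := EuclideanSpace.real_norm_sq_eq v
  rw [Fin.sum_univ_three] at h1 h2
  have h3 : ‖rotL θ v‖ ^ 2 = ‖v‖ ^ 2 := by
    rw [h1, h2]
    simp only [rotL, LinearMap.coe_mk, AddHom.coe_mk]
    simp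
    have := Real.sin_sq_add_cos_sq θ
    linear_combination ((v 1) ^ 2 + (v 2) ^ 2) * this
  exact (sq_eq_sq₀ (norm_nonneg _) (norm_nonneg _)).1 h3

/-- rotation about the first axis -/
noncomputable def rot (θ : ℝ) : EuclideanSpace ℝ (Fin 3) ≃ₗᵢ[ℝ] EuclideanSpace ℝ (Fin 3) :=
  LinearIsometry.toLinearIsometryEquiv ⟨rotL θ, rotL_norm θ⟩ rfl

lemma rot_apply (θ : ℝ) (v : EuclideanSpace ℝ (Fin 3)) : rot θ v =
    !₂[v 0, Real.cos θ * v 1 - Real.sin θ * v 2, Real.sin θ * v 1 + Real.cos θ * v 2] := rfl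

/-- the complex coordinate -/
noncomputable def zt (v : EuclideanSpace ℝ (Fin 3)) : ℂ := (v 1 : ℂ) + Complex.I * (v 2 : ℂ)

lemma zt_rot (θ : ℝ) (v : EuclideanSpace ℝ (Fin 3)) :
    zt (rot θ v) = Complex.exp (θ * Complex.I) * zt v := by
  rw [rot_apply, Complex.exp_mul_I]
  unfold zt
  simp
  linear_combination (-(Complex.sin θ * (v 2 : ℂ))) * Complex.I_sq

lemma preimage_ann {E F : Type*} [NormedAddCommGroup E] [InnerProductSpace ℝ E]
    [NormedAddCommGroup F] [InnerProductSpace ℝ F] (f : E ≃ₗᵢ[ℝ] F) (r : ℝ) :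
    f ⁻¹' (ann F r) = ann E r := by
  ext y
  simp [ann]

/-- invariance of annulus integrals under linear isometries -/
lemma integral_ann_comp {E G : Type*} [NormedAddCommGroup E] [InnerProductSpace ℝ E]
    [FiniteDimensional ℝ E] [MeasurableSpace E] [BorelSpace E]
    [NormedAddCommGroup G] [NormedSpace ℝ G] (f : E ≃ₗᵢ[ℝ] E) (r : ℝ) (F : E → G) :
    ∫ y in ann E r, F (f y) = ∫ y in ann E r, F y := by
  have h := f.measurePreserving.setIntegral_preimage_emb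
    f.toMeasurableEquiv.measurableEmbedding F (ann E r)
  rw [preimage_ann] at h
  exact h

/-- vanishing of the nontrivial Fourier modes -/
lemma mode_vanish (m k : ℕ) (hk : k ≠ 0) (r : ℝ) :
    ∫ y in ann (EuclideanSpace ℝ (Fin 3)) r,
      (fun w : EuclideanSpace ℝ (Fin 3) => (w 0 : ℂ) ^ m * zt w ^ k) (‖y‖⁻¹ • y) = 0 := by
  set θ : ℝ := Real.pi / k with hθ
  have h := integral_ann_comp (rot θ) r
    (fun y => (fun w : EuclideanSpace ℝ (Fin 3) => (w 0 : ℂ) ^ m * zt w ^ k) (‖y‖⁻¹ • y))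
  have h2 : ∀ y : EuclideanSpace ℝ (Fin 3),
      (fun w : EuclideanSpace ℝ (Fin 3) => (w 0 : ℂ) ^ m * zt w ^ k)
        (‖rot θ y‖⁻¹ • rot θ y) =
      (-1 : ℂ) * (fun w : EuclideanSpace ℝ (Fin 3) => (w 0 : ℂ) ^ m * zt w ^ k) (‖y‖⁻¹ • y) := by
    intro y
    have e1 : ‖rot θ y‖⁻¹ • rot θ y = rot θ (‖y‖⁻¹ • y) := by
      rw [LinearIsometryEquiv.norm_map, map_smul]
    rw [e1]
    simp only
    have e2 : (rot θ (‖y‖⁻¹ • y)) 0 = (‖y‖⁻¹ • y) 0 := by rw [rot_apply]; rfl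
    rw [e2, zt_rot, mul_pow, ← Complex.exp_nat_mul]
    have e3 : (k : ℂ) * (θ * Complex.I) = Real.pi * Complex.I := by
      rw [hθ]
      have : (k : ℂ) ≠ 0 := Nat.cast_ne_zero.2 hk
      push_cast
      field_simp
    rw [e3, Complex.exp_pi_mul_I]
    ring
  simp_rw [h2] at h
  rw [integral_const_mul] at h
  have h3 : (2 : ℂ) * ∫ y in ann (EuclideanSpace ℝ (Fin 3)) r,
      (fun w : EuclideanSpace ℝ (Fin 3) => (w 0 : ℂ) ^ m * zt w ^ k) (‖y‖⁻¹ • y) = 0 := by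
    linear_combination -h
  exact (mul_eq_zero.1 h3).resolve_left two_ne_zero

lemma continuous_zt : Continuous zt := by
  unfold zt
  fun_prop

/-- complex-valued version of integrability on the annulus -/
lemma integrableOn_annC {G : EuclideanSpace ℝ (Fin 3) → ℂ} {r : ℝ} (hG : Continuous G) :
    IntegrableOn (fun y : EuclideanSpace ℝ (Fin 3) => G (‖y‖⁻¹ • y))
      (ann (EuclideanSpace ℝ (Fin 3)) r) volume := by
  have h1 := integrableOn_ann (E := EuclideanSpace ℝ (Fin 3)) (r := r)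
    (G := fun w => (G w).re) (g := fun _ => 1)
    (Complex.continuous_re.comp hG).continuousOn continuousOn_const
  have h2 := integrableOn_ann (E := EuclideanSpace ℝ (Fin 3)) (r := r)
    (G := fun w => (G w).im) (g := fun _ => 1)
    (Complex.continuous_im.comp hG).continuousOn continuousOn_const
  have h3 := (h1.ofReal (𝕜 := ℂ)).add ((h2.ofReal (𝕜 := ℂ)).mul_const Complex.I)
  refine h3.congr (Filter.Eventually.of_forall fun y => ?_)
  simp [Complex.re_add_im]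

lemma mode_sum (a b : ℂ) (r : ℝ) :
    ∫ y in ann (EuclideanSpace ℝ (Fin 3)) r,
      (fun w : EuclideanSpace ℝ (Fin 3) => lf a b w ^ 2 * zt w ^ 2) (‖y‖⁻¹ • y) = 0 := by
  have c0 : Continuous (fun w : EuclideanSpace ℝ (Fin 3) => ((w 0 : ℝ) : ℂ)) := by fun_prop
  have cz := continuous_zt
  have i1 := integrableOn_annC (r := r) (G := fun w => (w 0 : ℂ) ^ 2 * zt w ^ 2) (by fun_prop)
  have i2 := integrableOn_annC (r := r) (G := fun w => (w 0 : ℂ) ^ 1 * zt w ^ 3) (by fun_prop)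
  have i3 := integrableOn_annC (r := r) (G := fun w => (w 0 : ℂ) ^ 0 * zt w ^ 4) (by fun_prop)
  have e : ∀ y : EuclideanSpace ℝ (Fin 3),
      (fun w : EuclideanSpace ℝ (Fin 3) => lf a b w ^ 2 * zt w ^ 2) (‖y‖⁻¹ • y) =
      (a ^ 2 * (fun w : EuclideanSpace ℝ (Fin 3) => (w 0 : ℂ) ^ 2 * zt w ^ 2) (‖y‖⁻¹ • y) +
      2 * a * b * (fun w : EuclideanSpace ℝ (Fin 3) => (w 0 : ℂ) ^ 1 * zt w ^ 3) (‖y‖⁻¹ • y)) +
      b ^ 2 * (fun w : EuclideanSpace ℝ (Fin 3) => (w 0 : ℂ) ^ 0 * zt w ^ 4) (‖y‖⁻¹ • y) := by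
    intro y
    simp only [lf_apply]
    unfold zt
    ring
  have m1 := mode_vanish 2 2 (by norm_num) r
  have m2 := mode_vanish 1 3 (by norm_num) r
  have m3 := mode_vanish 0 4 (by norm_num) r
  simp only at m1 m2 m3 e ⊢
  simp_rw [e]
  rw [integral_add ((i1.const_mul (a ^ 2)).fun_add (i2.const_mul (2 * a * b)))
    (i3.const_mul (b ^ 2)), integral_add (i1.const_mul (a ^ 2)) (i2.const_mul (2 * a * b)),
    integral_const_mul, integral_const_mul, integral_const_mul, m1, m2, m3]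
  simp

lemma continuous_ts3 : Continuous ts3 := continuous_tr3.add continuous_sg3

/-- Equality of the linear Steiner coefficients. -/
lemma TS_eq (a b c e : ℂ)
    (hz : ∀ x, ‖lf a b x‖ ^ 2 + ‖lf c e x‖ ^ 2 ≤ ‖x‖ ^ 2)
    (hz' : ∀ x, ‖lf a b x‖ ^ 2 + ‖lf (Complex.I * c) (Complex.I * e) x‖ ^ 2 ≤ ‖x‖ ^ 2) :
    T3 (mkP (lf a b) (lf c e) hz) + S3 (mkP (lf a b) (lf c e) hz) =
    T3 (mkP (lf a b) (lf (Complex.I * c) (Complex.I * e)) hz') +
      S3 (mkP (lf a b) (lf (Complex.I * c) (Complex.I * e)) hz') := by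
  -- reduce to annulus integrals
  have key : ∀ (z₁ z₂ : EuclideanSpace ℝ (Fin 3) →L[ℝ] ℂ)
      (h : ∀ x, ‖z₁ x‖ ^ 2 + ‖z₂ x‖ ^ 2 ≤ ‖x‖ ^ 2),
      ∫ y in ann (EuclideanSpace ℝ (Fin 3)) 1, ts3 (fderiv ℝ (Xf z₁ z₂) (‖y‖⁻¹ • y)) =
      (T3 (mkP z₁ z₂ h) + S3 (mkP z₁ z₂ h)) * (7 / 3) := by
    intro z₁ z₂ h
    have hcont := mkP_cont z₁ z₂ h
    have hc : ContinuousOn (fderiv ℝ (Xf z₁ z₂)) {0}ᶜ := hcont
    have p := polar_ann (E := EuclideanSpace ℝ (Fin 3))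
      (fun w => ts3 (fderiv ℝ (Xf z₁ z₂) w)) (fun _ => 1) (r := 1) zero_le_one
    simp only [one_mul, mul_one] at p
    rw [p]
    have hfr : finrank ℝ (EuclideanSpace ℝ (Fin 3)) - 1 = 2 := by simp
    rw [hfr, integral_pow]
    have hs : ContinuousOn (fderiv ℝ (Xf z₁ z₂)) (sphere (0 : EuclideanSpace ℝ (Fin 3)) 1) := by
      apply hc.mono
      intro w hw
      have : ‖w‖ = 1 := by simpa using hw
      intro h0
      rw [mem_singleton_iff] at h0
      rw [h0, norm_zero] at this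
      exact zero_ne_one this
    have hs' : Continuous (fun w : sphere (0 : EuclideanSpace ℝ (Fin 3)) 1 =>
        fderiv ℝ (Xf z₁ z₂) w) := continuousOn_iff_continuous_domRestrict.1 hs
    have iT : Integrable (fun w : sphere (0 : EuclideanSpace ℝ (Fin 3)) 1 =>
        tr3 (fderiv ℝ (Xf z₁ z₂) w)) ((volume : Measure (EuclideanSpace ℝ (Fin 3))).toSphere) :=
      (continuous_tr3.comp hs').integrable_of_hasCompactSupport
        (HasCompactSupport.of_compactSpace _)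
    have iS : Integrable (fun w : sphere (0 : EuclideanSpace ℝ (Fin 3)) 1 =>
        sg3 (fderiv ℝ (Xf z₁ z₂) w)) ((volume : Measure (EuclideanSpace ℝ (Fin 3))).toSphere) :=
      (continuous_sg3.comp hs').integrable_of_hasCompactSupport
        (HasCompactSupport.of_compactSpace _)
    have : ∫ w : sphere (0 : EuclideanSpace ℝ (Fin 3)) 1, ts3 (fderiv ℝ (Xf z₁ z₂) w)
        ∂((volume : Measure (EuclideanSpace ℝ (Fin 3))).toSphere) =
        T3 (mkP z₁ z₂ h) + S3 (mkP z₁ z₂ h) := by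
      unfold ts3 T3 S3
      exact integral_add iT iS
    rw [this]
    norm_num
  have k1 := key _ _ hz
  have k2 := key _ _ hz'
  -- integrability
  have integ : ∀ (z₁ z₂ : EuclideanSpace ℝ (Fin 3) →L[ℝ] ℂ)
      (_ : ∀ x, ‖z₁ x‖ ^ 2 + ‖z₂ x‖ ^ 2 ≤ ‖x‖ ^ 2),
      IntegrableOn (fun y : EuclideanSpace ℝ (Fin 3) => ts3 (fderiv ℝ (Xf z₁ z₂) (‖y‖⁻¹ • y)))
        (ann (EuclideanSpace ℝ (Fin 3)) 1) ∧
      IntegrableOn (fun y : EuclideanSpace ℝ (Fin 3) =>
        ts3 (fderiv ℝ (Xf z₁ z₂) (-(‖y‖⁻¹ • y)))) (ann (EuclideanSpace ℝ (Fin 3)) 1) := by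
    intro z₁ z₂ h
    have hc : ContinuousOn (fderiv ℝ (Xf z₁ z₂)) {0}ᶜ := mkP_cont z₁ z₂ h
    constructor
    · have := integrableOn_ann (E := EuclideanSpace ℝ (Fin 3)) (r := 1)
        (G := fun w => ts3 (fderiv ℝ (Xf z₁ z₂) w)) (g := fun _ => 1)
        (continuous_ts3.comp_continuousOn hc) continuousOn_const
      simpa using this
    · have := integrableOn_ann (E := EuclideanSpace ℝ (Fin 3)) (r := 1)
        (G := fun w => ts3 (fderiv ℝ (Xf z₁ z₂) (-w))) (g := fun _ => 1)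
        (continuous_ts3.comp_continuousOn
          (hc.comp continuous_neg.continuousOn fun w hw => neg_ne_zero.2 hw)) continuousOn_const
      simpa using this
  obtain ⟨i1, i2⟩ := integ _ _ hz
  obtain ⟨i3, i4⟩ := integ _ _ hz'
  have neg : ∀ (F : EuclideanSpace ℝ (Fin 3) → ℝ),
      ∫ y in ann (EuclideanSpace ℝ (Fin 3)) 1, F (-(‖y‖⁻¹ • y)) =
      ∫ y in ann (EuclideanSpace ℝ (Fin 3)) 1, F (‖y‖⁻¹ • y) := by
    intro F
    have := integral_ann_comp (LinearIsometryEquiv.neg ℝ (E := EuclideanSpace ℝ (Fin 3))) 1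
      (fun y => F (‖y‖⁻¹ • y))
    simpa using this
  have n1 := neg (fun w => ts3 (fderiv ℝ (Xf (lf a b) (lf c e)) w))
  have n2 := neg (fun w => ts3 (fderiv ℝ (Xf (lf a b)
    (lf (Complex.I * c) (Complex.I * e))) w))
  have tot : ∫ y in ann (EuclideanSpace ℝ (Fin 3)) 1,
      (ts3 (fderiv ℝ (Xf (lf a b) (lf c e)) (‖y‖⁻¹ • y)) +
        ts3 (fderiv ℝ (Xf (lf a b) (lf c e)) (-(‖y‖⁻¹ • y))) -
      ts3 (fderiv ℝ (Xf (lf a b) (lf (Complex.I * c) (Complex.I * e))) (‖y‖⁻¹ • y)) -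
      ts3 (fderiv ℝ (Xf (lf a b) (lf (Complex.I * c) (Complex.I * e))) (-(‖y‖⁻¹ • y)))) = 0 := by
    have hform : ∀ y ∈ ann (EuclideanSpace ℝ (Fin 3)) 1,
        (ts3 (fderiv ℝ (Xf (lf a b) (lf c e)) (‖y‖⁻¹ • y)) +
          ts3 (fderiv ℝ (Xf (lf a b) (lf c e)) (-(‖y‖⁻¹ • y))) -
        ts3 (fderiv ℝ (Xf (lf a b) (lf (Complex.I * c) (Complex.I * e))) (‖y‖⁻¹ • y)) -
        ts3 (fderiv ℝ (Xf (lf a b) (lf (Complex.I * c) (Complex.I * e))) (-(‖y‖⁻¹ • y)))) =
        Complex.reCLM ((2 * eps ^ 2 * (24 / 5 * (a * e - b * c) ^ 2) : ℂ) *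
          (fun w : EuclideanSpace ℝ (Fin 3) => lf a b w ^ 2 * zt w ^ 2) (‖y‖⁻¹ • y)) := by
      intro y hy
      have hy0 : y ≠ 0 := by
        rintro rfl
        have := hy.1
        rw [norm_zero] at this
        linarith
      rw [ts3_identity a b c e (unit_of_ne hy0), Complex.reCLM_apply, ← Complex.re_ofReal_mul]
      congr 1
      unfold zt
      push_cast
      ring
    rw [setIntegral_congr_fun (measurableSet_ann 1) hform]
    have ic : IntegrableOn (fun y : EuclideanSpace ℝ (Fin 3) =>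
        (2 * eps ^ 2 * (24 / 5 * (a * e - b * c) ^ 2) : ℂ) *
        (fun w : EuclideanSpace ℝ (Fin 3) => lf a b w ^ 2 * zt w ^ 2) (‖y‖⁻¹ • y))
        (ann (EuclideanSpace ℝ (Fin 3)) 1) := by
      apply Integrable.const_mul
      apply integrableOn_annC (G := fun w => lf a b w ^ 2 * zt w ^ 2)
      have := continuous_zt
      have := (lf a b).continuous
      fun_prop
    rw [ContinuousLinearMap.integral_comp_comm Complex.reCLM ic, integral_const_mul, mode_sum,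
      mul_zero, map_zero]
  rw [integral_sub ((i1.fun_add i2).fun_sub i3) i4, integral_sub (i1.fun_add i2) i3,
    integral_add i1 i2, n1, n2, k1, k2] at tot
  linarith

end Pool.Agent.Lib.MP_536123_gt
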