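import Mathlib
import Pool.Agent.Lib.MP_536123_gt.Rot3

set_option autoImplicit false

open MeasureTheory Set Metric Module Filter Topology
open scoped RealInnerProductSpace ENNReal

namespace Pool.Agent.Lib.MP_536123_gt

/-- punctured closed unit ball -/
def pb (E : Type*) [NormedAddCommGroup E] : Set E := {y | 0 < ‖y‖ ∧ ‖y‖ ≤ 1}

lemma measurableSet_pb {E : Type*} [NormedAddCommGroup E] [MeasurableSpace E] [BorelSpace E] :
    MeasurableSet (pb E) := by
  unfold pb
  exact (measurableSet_lt measurable_const measurable_norm).inter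
    (measurableSet_le measurable_norm measurable_const)

variable {E : Type*} [NormedAddCommGroup E] [InnerProductSpace ℝ E]

/-- polar coordinates on the punctured ball -/
lemma polar_pb [FiniteDimensional ℝ E] [MeasurableSpace E] [BorelSpace E] [Nontrivial E]
    (G : E → ℝ) :
    ∫ y in pb E, G (‖y‖⁻¹ • y) =
      (∫ w : sphere (0 : E) 1, G w ∂((volume : Measure E).toSphere)) *
        ∫ t in (0 : ℝ)..1, t ^ (finrank ℝ E - 1) := by
  classical
  set k : ℝ → ℝ := (Ioc 0 1).indicator (fun _ => (1 : ℝ)) with hk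
  calc
    ∫ y in pb E, G (‖y‖⁻¹ • y) = ∫ y : E, k ‖y‖ * G (‖y‖⁻¹ • y) := by
      rw [← integral_indicator measurableSet_pb]
      congr 1
      ext y
      by_cases hy : y ∈ pb E
      · rw [indicator_of_mem hy, hk, indicator_of_mem (show ‖y‖ ∈ Ioc 0 1 from hy), one_mul]
      · rw [indicator_of_notMem hy, hk, indicator_of_notMem (show ‖y‖ ∉ Ioc 0 1 from hy),
          zero_mul]
    _ = ∫ y : ({(0 : E)}ᶜ : Set E), k ‖y.1‖ * G (‖y.1‖⁻¹ • y.1) ∂((volume : Measure E).comap (↑)) := by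
      rw [integral_subtype_comap (measurableSet_singleton _).compl
        fun y : E => k ‖y‖ * G (‖y‖⁻¹ • y), MeasureTheory.restrict_compl_singleton]
    _ = ∫ p : sphere (0 : E) 1 × Ioi (0 : ℝ), G p.1 * k p.2
          ∂((volume : Measure E).toSphere.prod (.volumeIoiPow (finrank ℝ E - 1))) := by
      have := (volume : Measure E).measurePreserving_homeomorphUnitSphereProd.integral_comp
        (Homeomorph.measurableEmbedding _)
        (fun p : sphere (0 : E) 1 × Ioi (0 : ℝ) => G p.1 * k p.2)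
      rw [← this]
      congr 1
      ext y
      simp only [homeomorphUnitSphereProd_apply_fst_coe, homeomorphUnitSphereProd_apply_snd_coe]
      ring
    _ = (∫ w : sphere (0 : E) 1, G w ∂((volume : Measure E).toSphere)) *
        ∫ t : Ioi (0 : ℝ), k t ∂(.volumeIoiPow (finrank ℝ E - 1)) :=
      integral_prod_mul (fun w : sphere (0 : E) 1 => G w) (fun t : Ioi (0 : ℝ) => k t)
    _ = _ := by
      congr 1
      simp only [Measure.volumeIoiPow, ENNReal.ofReal]
      rw [integral_withDensity_eq_integral_smul,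
        integral_subtype_comap measurableSet_Ioi
          fun a ↦ Real.toNNReal (a ^ (finrank ℝ E - 1)) • k a,
        setIntegral_congr_fun (g := fun t => k t * t ^ (finrank ℝ E - 1)) measurableSet_Ioi
          fun x hx ↦ ?_]
      · rw [intervalIntegral.integral_of_le (by norm_num)]
        have h1 : ∀ t : ℝ, k t * t ^ (finrank ℝ E - 1) =
            (Ioc 0 1).indicator (fun t => t ^ (finrank ℝ E - 1)) t := by
          intro t
          by_cases ht : t ∈ Ioc (0 : ℝ) 1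
          · rw [hk, indicator_of_mem ht, indicator_of_mem ht, one_mul]
          · rw [hk, indicator_of_notMem ht, indicator_of_notMem ht, zero_mul]
        simp_rw [h1]
        rw [setIntegral_indicator measurableSet_Ioc]
        congr 2
        ext t
        simp only [mem_inter_iff, mem_Ioi, mem_Ioc]
        constructor
        · rintro ⟨_, h⟩
          exact h
        · rintro ⟨h1, h2⟩
          exact ⟨h1, h1, h2⟩
      · rw [NNReal.smul_def, Real.coe_toNNReal _ (pow_nonneg hx.out.le _), smul_eq_mul, mul_comm]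
      · exact (measurable_subtype_coe.pow_const _).real_toNNReal

namespace PData

variable (P : PData E)

/-- The parametrisation of the body by the ball. -/
noncomputable def Psi (y : E) : E := y + ‖y‖ • P.X y

lemma Psi_eq {y : E} (hy : y ≠ 0) :
    P.Psi y = ‖y‖ • ((1 : ℝ) • (‖y‖⁻¹ • y) + P.X (‖y‖⁻¹ • y)) := by
  rw [Psi, P.X_normalize hy, one_smul, smul_add, smul_smul,
    mul_inv_cancel₀ (norm_ne_zero_iff.2 hy), one_smul]

lemma Psi_injOn (hpos : ∀ w : E, ‖w‖ = 1 → 0 < 1 + P.h w) : InjOn P.Psi (pb E) := by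
  intro y hy y' hy' hyy
  have hy0 : y ≠ 0 := norm_pos_iff.1 hy.1
  have hy'0 : y' ≠ 0 := norm_pos_iff.1 hy'.1
  set w := ‖y‖⁻¹ • y with hw
  set w' := ‖y'‖⁻¹ • y' with hw'
  have hwu : ‖w‖ = 1 := unit_of_ne hy0
  have hwu' : ‖w'‖ = 1 := unit_of_ne hy'0
  have ey : y = ‖y‖ • w := by
    rw [hw, smul_smul, mul_inv_cancel₀ (norm_ne_zero_iff.2 hy0), one_smul]
  have ey' : y' = ‖y'‖ • w' := by
    rw [hw', smul_smul, mul_inv_cancel₀ (norm_ne_zero_iff.2 hy'0), one_smul]
  rw [P.Psi_eq hy0, P.Psi_eq hy'0, ← hw, ← hw'] at hyy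
  have a1 := P.upper hwu hwu' 1
  have a2 := P.upper hwu' hwu 1
  have b1 := P.inner_self' hwu' 1
  have b2 := P.inner_self' hwu 1
  have c1 : ‖y‖ * ⟪(1 : ℝ) • w + P.X w, w'⟫ = ‖y'‖ * (1 + P.h w') := by
    rw [← b1, ← real_inner_smul_left, hyy, real_inner_smul_left]
  have c2 : ‖y'‖ * ⟪(1 : ℝ) • w' + P.X w', w⟫ = ‖y‖ * (1 + P.h w) := by
    rw [← b2, ← real_inner_smul_left, ← hyy, real_inner_smul_left]
  have hc := P.c_lt
  have hn : ‖w' - w‖ = ‖w - w'‖ := norm_sub_rev _ _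
  rw [hn] at a2
  have p1 := hpos w hwu
  have p2 := hpos w' hwu'
  have hy1 := hy.1
  have hy'1 := hy'.1
  have q := sq_nonneg ‖w - w'‖
  have d1 : ‖y'‖ * (1 + P.h w') ≤ ‖y‖ * (1 + P.h w') - ‖y‖ * ((1 - P.c) / 2 * ‖w - w'‖ ^ 2) := by
    rw [← c1, ← mul_sub]
    exact mul_le_mul_of_nonneg_left a1 hy1.le
  have d2 : ‖y‖ * (1 + P.h w) ≤ ‖y'‖ * (1 + P.h w) - ‖y'‖ * ((1 - P.c) / 2 * ‖w - w'‖ ^ 2) := by
    rw [← c2, ← mul_sub]
    exact mul_le_mul_of_nonneg_left a2 hy'1.le
  have e1 : 0 ≤ ‖y‖ * ((1 - P.c) / 2 * ‖w - w'‖ ^ 2) :=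
    mul_nonneg hy1.le (mul_nonneg (by linarith) q)
  have e2 : 0 ≤ ‖y'‖ * ((1 - P.c) / 2 * ‖w - w'‖ ^ 2) :=
    mul_nonneg hy'1.le (mul_nonneg (by linarith) q)
  have f1 : ‖y'‖ ≤ ‖y‖ := le_of_mul_le_mul_right (by linarith) p2
  have f2 : ‖y‖ ≤ ‖y'‖ := le_of_mul_le_mul_right (by linarith) p1
  have f3 : ‖y‖ = ‖y'‖ := le_antisymm f2 f1
  have f4 : ‖y‖ * ((1 - P.c) / 2 * ‖w - w'‖ ^ 2) = 0 := by
    rw [← f3] at d1
    linarith
  have f5 : ‖w - w'‖ ^ 2 = 0 := by
    rcases mul_eq_zero.1 f4 with h | h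
    · linarith
    · rcases mul_eq_zero.1 h with h | h
      · linarith
      · exact h
  have f6 : w = w' := by
    have := pow_eq_zero_iff (two_ne_zero) |>.1 f5
    exact sub_eq_zero.1 (norm_eq_zero.1 this)
  rw [ey, ey', f3, f6]

lemma image_Psi [FiniteDimensional ℝ E] (hpos : ∀ w : E, ‖w‖ = 1 → 0 < 1 + P.h w) :
    P.Psi '' (pb E) = body P.h 1 \ {0} := by
  ext x
  constructor
  · rintro ⟨y, hy, rfl⟩
    have hy0 : y ≠ 0 := norm_pos_iff.1 hy.1
    have hwu : ‖(‖y‖⁻¹ • y)‖ = 1 := unit_of_ne hy0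
    rw [P.Psi_eq hy0]
    set w := ‖y‖⁻¹ • y with hw
    constructor
    · intro w' hw'
      have h1 := P.smul_add_mem_body hwu le_rfl le_rfl w' hw'
      have h2 := hpos w' hw'
      rw [real_inner_smul_left]
      calc ‖y‖ * ⟪(1 : ℝ) • w + P.X w, w'⟫ ≤ ‖y‖ * (1 + P.h w') :=
            mul_le_mul_of_nonneg_left h1 hy.1.le
        _ ≤ 1 * (1 + P.h w') := mul_le_mul_of_nonneg_right hy.2 h2.le
        _ = 1 + P.h w' := one_mul _
    · intro h0
      rw [mem_singleton_iff] at h0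
      have h1 : ⟪‖y‖ • ((1 : ℝ) • w + P.X w), w⟫ = 0 := by rw [h0, inner_zero_left]
      rw [real_inner_smul_left, P.inner_self' hwu 1] at h1
      have h2 := hpos w hwu
      have := mul_pos hy.1 h2
      linarith
  · rintro ⟨hx, hx0⟩
    have hx0' : x ≠ 0 := hx0
    have hcomp : IsCompact (sphere (0 : E) 1) := by
      have : ProperSpace E := FiniteDimensional.proper ℝ E
      exact isCompact_sphere 0 1
    have hxu := unit_of_ne hx0'
    have hne : (sphere (0 : E) 1).Nonempty := ⟨‖x‖⁻¹ • x, by simpa using hxu⟩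
    have hcont : ContinuousOn (fun w : E => ⟪x, w⟫ / (1 + P.h w)) (sphere (0 : E) 1) := by
      apply ContinuousOn.div
      · exact (continuous_const.inner continuous_id).continuousOn
      · exact (continuous_const.add P.hcont).continuousOn
      · intro w hw
        exact (hpos w (by simpa using hw)).ne'
    obtain ⟨w, hw, hmax⟩ := hcomp.exists_isMaxOn hne hcont
    have hwu : ‖w‖ = 1 := by simpa using hw
    set s := ⟪x, w⟫ / (1 + P.h w) with hs
    have hmax' : ∀ w', ‖w'‖ = 1 → ⟪x, w'⟫ ≤ s * (1 + P.h w') := by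
      intro w' hw'
      have : ⟪x, w'⟫ / (1 + P.h w') ≤ s := hmax (by simpa using hw')
      rwa [div_le_iff₀ (hpos w' hw')] at this
    have hs0 : 0 < s := by
      have h1 := hmax' _ hxu
      rw [real_inner_smul_right, real_inner_self_eq_norm_sq, sq, ← mul_assoc,
        inv_mul_cancel₀ (norm_ne_zero_iff.2 hx0'), one_mul] at h1
      have h2 := hpos _ hxu
      have h3 := norm_pos_iff.2 hx0'
      by_contra hcon
      push Not at hcon
      have := mul_nonpos_of_nonpos_of_nonneg hcon h2.le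
      linarith
    have hs1 : s ≤ 1 := by
      rw [hs, div_le_one (hpos w hwu)]
      exact hx w hwu
    have hsw : ⟪x, w⟫ = s * (1 + P.h w) := by
      rw [hs, div_mul_cancel₀ _ (hpos w hwu).ne']
    have hx' : 1 ≤ ⟪s⁻¹ • x, w⟫ - P.h w := by
      rw [real_inner_smul_left, hsw, ← mul_assoc, inv_mul_cancel₀ hs0.ne']
      linarith
    obtain ⟨m, w₂, hm, hw₂, hxm, _⟩ := P.exists_Phi hwu hx'
    have hm1 : m ≤ 1 := by
      have h1 := hmax' w₂ hw₂
      have h2 : ⟪s⁻¹ • x, w₂⟫ = m + P.h w₂ := by rw [hxm, P.inner_self' hw₂ m]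
      rw [real_inner_smul_left] at h2
      have h3 : ⟪x, w₂⟫ = s * (m + P.h w₂) := by
        rw [← h2, ← mul_assoc, mul_inv_cancel₀ hs0.ne', one_mul]
      rw [h3] at h1
      have := le_of_mul_le_mul_left h1 hs0
      linarith
    have hm2 : m = 1 := le_antisymm hm1 hm
    rw [hm2] at hxm
    have hn : ‖s • w₂‖ = s := by rw [norm_smul, hw₂, mul_one, Real.norm_of_nonneg hs0.le]
    refine ⟨s • w₂, ⟨by rw [hn]; exact hs0, by rw [hn]; exact hs1⟩, ?_⟩
    rw [Psi, P.hom s w₂ hs0, hn, ← smul_add]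
    rw [one_smul] at hxm
    rw [← hxm, smul_smul, mul_inv_cancel₀ hs0.ne', one_smul]

/-- derivative of `Psi` -/
noncomputable def DPsi (y : E) : E →L[ℝ] E :=
  ContinuousLinearMap.id ℝ E + (‖y‖ • fderiv ℝ P.X y +
    (‖y‖⁻¹ • innerSL ℝ y).smulRight (P.X y))

lemma hasFDerivAt_Psi (hd : ∀ y : E, y ≠ 0 → DifferentiableAt ℝ P.X y) {y : E} (hy : y ≠ 0) :
    HasFDerivAt P.Psi (P.DPsi y) y := by
  have h1 : HasFDerivAt P.X (fderiv ℝ P.X y) y := (hd y hy).hasFDerivAt
  have h2 : HasFDerivAt (fun y : E => ‖y‖) (‖y‖⁻¹ • innerSL ℝ y) y := by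
    have h3 : HasFDerivAt (fun y : E => ‖y‖ ^ 2) (2 • innerSL ℝ y) y :=
      (hasStrictFDerivAt_norm_sq y).hasFDerivAt
    have h4 := h3.sqrt (pow_ne_zero 2 (norm_ne_zero_iff.2 hy))
    have h5 : (fun y : E => √(‖y‖ ^ 2)) = fun y : E => ‖y‖ := by
      ext y
      exact Real.sqrt_sq (norm_nonneg _)
    rw [h5] at h4
    refine h4.congr_fderiv ?_
    rw [Real.sqrt_sq (norm_nonneg _)]
    ext x
    simp
    field_simp
  exact (hasFDerivAt_id y).add (h2.smul h1)

end PData

end Pool.Agent.Lib.MP_536123_gt
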