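import Mathlib
import Pool.Agent.Lib.MP_536123_gt.Psi

set_option autoImplicit false

open MeasureTheory Set Metric Module Filter Topology
open scoped RealInnerProductSpace ENNReal

namespace Pool.Agent.Lib.MP_536123_gt

namespace PData

lemma vol_Psi {E : Type*} [NormedAddCommGroup E] [InnerProductSpace ℝ E] [FiniteDimensional ℝ E]
    [MeasurableSpace E] [BorelSpace E] [Nontrivial E] (P : PData E)
    (hd : ∀ y : E, y ≠ 0 → DifferentiableAt ℝ P.X y)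
    (hpos : ∀ w : E, ‖w‖ = 1 → 0 < 1 + P.h w) (G : E → ℝ) (hG : ∀ w : E, ‖w‖ = 1 → 0 < G w)
    (hdet : ∀ y : E, y ≠ 0 → (P.DPsi y).det = G (‖y‖⁻¹ • y))
    (hmeas : AEStronglyMeasurable (fun y : E => G (‖y‖⁻¹ • y)) (volume.restrict (pb E))) :
    (volume (body P.h 1)).toReal = ∫ y in pb E, G (‖y‖⁻¹ • y) := by
  have hder : ∀ y ∈ pb E, HasFDerivWithinAt P.Psi (P.DPsi y) (pb E) y := by
    intro y hy
    exact (P.hasFDerivAt_Psi hd (norm_pos_iff.1 hy.1)).hasFDerivWithinAt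
  have himg := lintegral_abs_det_fderiv_eq_addHaar_image (volume : Measure E)
    measurableSet_pb hder (P.Psi_injOn hpos)
  rw [P.image_Psi hpos] at himg
  have h0 : volume (body P.h 1 \ {(0 : E)}) = volume (body P.h 1) := by
    apply measure_sdiff_null
    exact measure_singleton 0
  rw [← h0, ← himg, integral_eq_lintegral_of_nonneg_ae]
  · congr 1
    apply setLIntegral_congr_fun measurableSet_pb
    intro y hy
    have hy0 : y ≠ 0 := norm_pos_iff.1 hy.1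
    simp only
    rw [hdet y hy0, abs_of_pos (hG _ (unit_of_ne hy0))]
  · filter_upwards [ae_restrict_mem measurableSet_pb] with y hy
    exact (hG _ (unit_of_ne (norm_pos_iff.1 hy.1))).le
  · exact hmeas

lemma ent_DPsi {n : ℕ} (P : PData (EuclideanSpace ℝ (Fin n)))
    (hd : ∀ y : EuclideanSpace ℝ (Fin n), y ≠ 0 → DifferentiableAt ℝ P.X y)
    {y : EuclideanSpace ℝ (Fin n)} (hy : y ≠ 0) (j k : Fin n) :
    ent (P.DPsi y) j k = (if j = k then 1 else 0) +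
      (ent (fderiv ℝ P.X (‖y‖⁻¹ • y)) j k + (‖y‖⁻¹ • y) k * P.X (‖y‖⁻¹ • y) j) := by
  have hn : 0 < ‖y‖ := norm_pos_iff.2 hy
  have h1 : ‖y‖ • fderiv ℝ P.X y = fderiv ℝ P.X (‖y‖⁻¹ • y) := by
    rw [P.fderiv_smul hd hy (inv_pos.2 hn), inv_inv]
  rw [DPsi, h1, P.X_normalize hy]
  have h2 : ⟪y, EuclideanSpace.single k (1 : ℝ)⟫ = y k := by
    rw [EuclideanSpace.inner_single_right]; simp
  simp [ent, h2]

/-- the determinant of `DPsi` in dimension two -/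
lemma det_DPsi2 (P : PData (EuclideanSpace ℝ (Fin 2)))
    (hd : ∀ y : EuclideanSpace ℝ (Fin 2), y ≠ 0 → DifferentiableAt ℝ P.X y)
    (hsym : ∀ w : EuclideanSpace ℝ (Fin 2), ‖w‖ = 1 →
      ent (fderiv ℝ P.X w) 0 1 = ent (fderiv ℝ P.X w) 1 0)
    {y : EuclideanSpace ℝ (Fin 2)} (hy : y ≠ 0) :
    (P.DPsi y).det = (1 + P.h (‖y‖⁻¹ • y)) *
      (1 + (ent (fderiv ℝ P.X (‖y‖⁻¹ • y)) 0 0 + ent (fderiv ℝ P.X (‖y‖⁻¹ • y)) 1 1)) := by
  rw [det_eq_ent, Matrix.det_fin_two]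
  simp only [Matrix.of_apply, P.ent_DPsi hd hy]
  have hwu := unit_of_ne hy
  set w := ‖y‖⁻¹ • y with hw
  have hw0 : w ≠ 0 := by
    intro h
    rw [h, norm_zero] at hwu
    exact zero_ne_one hwu
  have hs := hsym w hwu
  have hself := P.fderiv_self hd hw0
  have hdec : w = w 0 • EuclideanSpace.single (0 : Fin 2) (1 : ℝ) +
      w 1 • EuclideanSpace.single (1 : Fin 2) (1 : ℝ) := by
    ext i
    fin_cases i <;> simp
  have hrow : ∀ j : Fin 2, w 0 * ent (fderiv ℝ P.X w) j 0 + w 1 * ent (fderiv ℝ P.X w) j 1 = 0 := by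
    intro j
    have h1 : (fderiv ℝ P.X w w) j = 0 := by rw [hself]; rfl
    have h2 : fderiv ℝ P.X w w = w 0 • fderiv ℝ P.X w (EuclideanSpace.single (0 : Fin 2) (1 : ℝ)) +
        w 1 • fderiv ℝ P.X w (EuclideanSpace.single (1 : Fin 2) (1 : ℝ)) := by
      conv_lhs => rw [show fderiv ℝ P.X w w = fderiv ℝ P.X w (w 0 •
        EuclideanSpace.single (0 : Fin 2) (1 : ℝ) +
        w 1 • EuclideanSpace.single (1 : Fin 2) (1 : ℝ)) from by rw [← hdec]]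
      rw [map_add, map_smul, map_smul]
    rw [h2] at h1
    simpa [ent] using h1
  have heul : P.X w 0 * w 0 + P.X w 1 * w 1 = P.h w := by
    rw [← P.euler hwu, EuclideanSpace.inner_eq_star_dotProduct]
    simp [dotProduct, Fin.sum_univ_two]
    ring
  have hn : w 0 ^ 2 + w 1 ^ 2 = 1 := by
    have := EuclideanSpace.real_norm_sq_eq w
    rw [hwu, Fin.sum_univ_two] at this
    linarith
  have r0 := hrow 0
  have r1 := hrow 1
  rw [← hs] at r1 ⊢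
  simp only [Fin.isValue, ↓reduceIte, zero_ne_one, one_ne_zero, zero_add]
  obtain ⟨m00, h00⟩ : ∃ z, z = ent (fderiv ℝ P.X w) 0 0 := ⟨_, rfl⟩
  obtain ⟨m01, h01⟩ : ∃ z, z = ent (fderiv ℝ P.X w) 0 1 := ⟨_, rfl⟩
  obtain ⟨m11, h11⟩ : ∃ z, z = ent (fderiv ℝ P.X w) 1 1 := ⟨_, rfl⟩
  rw [← h00, ← h01] at r0
  rw [← h01, ← h11] at r1
  rw [← h00, ← h01, ← h11, ← heul]
  -- determinant of the Hessian vanishes
  have hdet : m00 * m11 - m01 ^ 2 = 0 := by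
    have e1 : (m00 * m11 - m01 ^ 2) * w 0 = 0 := by
      linear_combination m11 * r0 - m01 * r1
    have e2 : (m00 * m11 - m01 ^ 2) * w 1 = 0 := by
      linear_combination m00 * r1 - m01 * r0
    have : (m00 * m11 - m01 ^ 2) * (w 0 ^ 2 + w 1 ^ 2) = 0 := by
      linear_combination w 0 * e1 + w 1 * e2
    rwa [hn, mul_one] at this
  linear_combination hdet - P.X w 0 * r0 - P.X w 1 * r1

end PData

/-- rotation of the plane, as a linear map -/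
noncomputable def rotL2 (θ : ℝ) : EuclideanSpace ℝ (Fin 2) →ₗ[ℝ] EuclideanSpace ℝ (Fin 2) where
  toFun v := !₂[Real.cos θ * v 0 - Real.sin θ * v 1, Real.sin θ * v 0 + Real.cos θ * v 1]
  map_add' v w := by
    ext i
    fin_cases i <;> simp <;> ring
  map_smul' t v := by
    ext i
    fin_cases i <;> simp <;> ring

lemma rotL2_norm (θ : ℝ) (v : EuclideanSpace ℝ (Fin 2)) : ‖rotL2 θ v‖ = ‖v‖ := by
  have h1 := EuclideanSpace.real_norm_sq_eq (rotL2 θ v)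
  have h2 := EuclideanSpace.real_norm_sq_eq v
  rw [Fin.sum_univ_two] at h1 h2
  have h3 : ‖rotL2 θ v‖ ^ 2 = ‖v‖ ^ 2 := by
    rw [h1, h2]
    simp only [rotL2, LinearMap.coe_mk, AddHom.coe_mk]
    simp
    have := Real.sin_sq_add_cos_sq θ
    linear_combination ((v 0) ^ 2 + (v 1) ^ 2) * this
  exact (sq_eq_sq₀ (norm_nonneg _) (norm_nonneg _)).1 h3

/-- rotation of the plane -/
noncomputable def rot2 (θ : ℝ) : EuclideanSpace ℝ (Fin 2) ≃ₗᵢ[ℝ] EuclideanSpace ℝ (Fin 2) :=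
  LinearIsometry.toLinearIsometryEquiv ⟨rotL2 θ, rotL2_norm θ⟩ rfl

lemma rot2_apply (θ : ℝ) (v : EuclideanSpace ℝ (Fin 2)) : rot2 θ v =
    !₂[Real.cos θ * v 0 - Real.sin θ * v 1, Real.sin θ * v 0 + Real.cos θ * v 1] := rfl

/-- the complex coordinate of the plane -/
noncomputable def zt2 (v : EuclideanSpace ℝ (Fin 2)) : ℂ := (v 0 : ℂ) + Complex.I * (v 1 : ℂ)

lemma zt2_rot (θ : ℝ) (v : EuclideanSpace ℝ (Fin 2)) :
    zt2 (rot2 θ v) = Complex.exp (θ * Complex.I) * zt2 v := by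
  rw [rot2_apply, Complex.exp_mul_I]
  unfold zt2
  simp
  linear_combination (-(Complex.sin θ * (v 1 : ℂ))) * Complex.I_sq

lemma continuous_zt2 : Continuous zt2 := by
  unfold zt2
  fun_prop

lemma mode_vanish2 (k : ℕ) (hk : k ≠ 0) (r : ℝ) :
    ∫ y in ann (EuclideanSpace ℝ (Fin 2)) r, zt2 (‖y‖⁻¹ • y) ^ k = 0 := by
  set θ : ℝ := Real.pi / k with hθ
  have h := integral_ann_comp (rot2 θ) r (fun y => zt2 (‖y‖⁻¹ • y) ^ k)
  have h2 : ∀ y : EuclideanSpace ℝ (Fin 2),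
      zt2 (‖rot2 θ y‖⁻¹ • rot2 θ y) ^ k = (-1 : ℂ) * zt2 (‖y‖⁻¹ • y) ^ k := by
    intro y
    have e1 : ‖rot2 θ y‖⁻¹ • rot2 θ y = rot2 θ (‖y‖⁻¹ • y) := by
      rw [LinearIsometryEquiv.norm_map, map_smul]
    rw [e1, zt2_rot, mul_pow, ← Complex.exp_nat_mul]
    have e3 : (k : ℂ) * (θ * Complex.I) = Real.pi * Complex.I := by
      rw [hθ]
      have : (k : ℂ) ≠ 0 := Nat.cast_ne_zero.2 hk
      push_cast
      field_simp
    rw [e3, Complex.exp_pi_mul_I]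
  simp_rw [h2] at h
  rw [integral_const_mul] at h
  have h3 : (2 : ℂ) * ∫ y in ann (EuclideanSpace ℝ (Fin 2)) r, zt2 (‖y‖⁻¹ • y) ^ k = 0 := by
    linear_combination -h
  exact (mul_eq_zero.1 h3).resolve_left two_ne_zero

/-- the linear form `a x + b y` on the plane -/
noncomputable def lf2 (a b : ℂ) : EuclideanSpace ℝ (Fin 2) →L[ℝ] ℂ :=
  a • (Complex.ofRealCLM.comp (EuclideanSpace.proj (0 : Fin 2))) +
  b • (Complex.ofRealCLM.comp (EuclideanSpace.proj (1 : Fin 2)))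

lemma lf2_apply (a b : ℂ) (v : EuclideanSpace ℝ (Fin 2)) :
    lf2 a b v = a * (v 0 : ℂ) + b * (v 1 : ℂ) := by
  simp [lf2]

/-- trace polynomial, first order -/
def tp (x y : ℝ) : ℝ := 2 * y - 8 * x ^ 2 * y

/-- trace polynomial, second order -/
def tq (x y : ℝ) : ℝ := 12 * x ^ 2 * y ^ 2 + 2 * x ^ 4 - 35 * x ^ 4 * y ^ 2

lemma trace_two (κ : ℂ) {v : EuclideanSpace ℝ (Fin 2)} (hv : ‖v‖ = 1) :
    ent (fderiv ℝ (Xf (lf2 1 0) (lf2 0 κ)) v) 0 0 +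
      ent (fderiv ℝ (Xf (lf2 1 0) (lf2 0 κ)) v) 1 1 =
    eps * (κ * (tp (v 0) (v 1) : ℝ)).re + eps ^ 2 / 5 * (κ ^ 2 * (tq (v 0) (v 1) : ℝ)).re := by
  have hvsq : ((v 0 : ℂ)) ^ 2 + ((v 1 : ℂ)) ^ 2 = 1 := by
    have := EuclideanSpace.real_norm_sq_eq v
    rw [hv, Fin.sum_univ_two] at this
    have h2 : ((1 : ℝ) ^ 2 : ℂ) = (((v 0) ^ 2 + (v 1) ^ 2 : ℝ) : ℂ) := by
      rw [← this]; norm_num
    push_cast at h2
    rw [← h2]; norm_num
  have za0 : ∀ p q : ℂ, lf2 p q (EuclideanSpace.single 0 1) = p := by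
    intro p q; simp [lf2_apply]
  have za1 : ∀ p q : ℂ, lf2 p q (EuclideanSpace.single 1 1) = q := by
    intro p q; simp [lf2_apply]
  rw [ent_Xf _ _ hv, ent_Xf _ _ hv, za0, za0, za1, za1, if_pos rfl, if_pos rfl]
  have hA : lf2 1 0 v = (v 0 : ℂ) := by rw [lf2_apply]; ring
  have hB : lf2 0 κ v = κ * (v 1 : ℂ) := by rw [lf2_apply]; ring
  rw [hA, hB]
  have e1 : κ * ((tp (v 0) (v 1) : ℝ) : ℂ) =
      Cc (v 0) (κ * (v 1)) 1 0 1 0 (v 0) (v 0) 1 + Cc (v 0) (κ * (v 1)) 0 κ 0 κ (v 1) (v 1) 1 := by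
    unfold tp Cc
    push_cast
    linear_combination (-8 * κ * (v 0 : ℂ) ^ 2 * (v 1 : ℂ)) * hvsq
  have e2 : κ ^ 2 * ((tq (v 0) (v 1) : ℝ) : ℂ) =
      Dc (v 0) (κ * (v 1)) 1 0 1 0 (v 0) (v 0) 1 + Dc (v 0) (κ * (v 1)) 0 κ 0 κ (v 1) (v 1) 1 := by
    unfold tq Dc
    push_cast
    linear_combination (-35 * κ ^ 2 * (v 0 : ℂ) ^ 4 * (v 1 : ℂ) ^ 2) * hvsq
  rw [e1, e2, Complex.add_re, Complex.add_re]
  ring

lemma sym_two (z₁ z₂ : EuclideanSpace ℝ (Fin 2) →L[ℝ] ℂ) {v : EuclideanSpace ℝ (Fin 2)}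
    (hv : ‖v‖ = 1) :
    ent (fderiv ℝ (Xf z₁ z₂) v) 0 1 = ent (fderiv ℝ (Xf z₁ z₂) v) 1 0 := by
  rw [ent_Xf _ _ hv, ent_Xf _ _ hv]
  have j01 : (0 : Fin 2) ≠ 1 := by decide
  have j10 : (1 : Fin 2) ≠ 0 := by decide
  rw [if_neg j01, if_neg j10]
  congr 3
  · unfold Cc; ring
  · unfold Dc; ring

lemma hf_two (κ : ℂ) (v : EuclideanSpace ℝ (Fin 2)) :
    hf (lf2 1 0) (lf2 0 κ) v = eps * (κ * ((v 0 ^ 2 * v 1 : ℝ) : ℂ)).re +
      eps ^ 2 / 5 * (κ ^ 2 * ((v 0 ^ 4 * v 1 ^ 2 : ℝ) : ℂ)).re := by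
  unfold hf Qf
  rw [lf2_apply, lf2_apply]
  congr 3
  · push_cast; ring
  · push_cast; ring

/-- density for the first planar body -/
noncomputable def G1 (w : EuclideanSpace ℝ (Fin 2)) : ℝ :=
  (1 + (eps * (w 0 ^ 2 * w 1) + eps ^ 2 / 5 * (w 0 ^ 4 * w 1 ^ 2))) *
    (1 + (eps * tp (w 0) (w 1) + eps ^ 2 / 5 * tq (w 0) (w 1)))

/-- density for the second planar body -/
noncomputable def G2 (w : EuclideanSpace ℝ (Fin 2)) : ℝ :=
  (1 - eps ^ 2 / 5 * (w 0 ^ 4 * w 1 ^ 2)) * (1 - eps ^ 2 / 5 * tq (w 0) (w 1))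

lemma continuous_G1 : Continuous G1 := by
  unfold G1 tp tq
  fun_prop

lemma continuous_G2 : Continuous G2 := by
  unfold G2 tq
  fun_prop

lemma G_identity {w : EuclideanSpace ℝ (Fin 2)} (hw : ‖w‖ = 1) :
    G1 w + G1 (-w) - G2 w - G2 (-w) = 2 * eps ^ 2 * (-(1 / 5) +
      ((-(11 / 40)) * zt2 w ^ 2 + (3 / 5) * zt2 w ^ 4 + (27 / 40) * zt2 w ^ 6 : ℂ).re) := by
  have hn : w 0 ^ 2 + w 1 ^ 2 = 1 := by
    have := EuclideanSpace.real_norm_sq_eq w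
    rw [hw, Fin.sum_univ_two] at this
    linarith
  have e : ((-(11 / 40)) * zt2 w ^ 2 + (3 / 5) * zt2 w ^ 4 + (27 / 40) * zt2 w ^ 6 : ℂ).re =
      -(11 / 40) * (w 0 ^ 2 - w 1 ^ 2) + 3 / 5 * (w 0 ^ 4 - 6 * w 0 ^ 2 * w 1 ^ 2 + w 1 ^ 4) +
      27 / 40 * (w 0 ^ 6 - 15 * w 0 ^ 4 * w 1 ^ 2 + 15 * w 0 ^ 2 * w 1 ^ 4 - w 1 ^ 6) := by
    have e2 : ((-(11 / 40)) * zt2 w ^ 2 + (3 / 5) * zt2 w ^ 4 + (27 / 40) * zt2 w ^ 6 : ℂ) =
        ((-(11 / 40) * (w 0 ^ 2 - w 1 ^ 2) + 3 / 5 * (w 0 ^ 4 - 6 * w 0 ^ 2 * w 1 ^ 2 + w 1 ^ 4) +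
      27 / 40 * (w 0 ^ 6 - 15 * w 0 ^ 4 * w 1 ^ 2 + 15 * w 0 ^ 2 * w 1 ^ 4 - w 1 ^ 6) : ℝ) : ℂ) +
        ((-(11 / 40) * (2 * w 0 * w 1) + 3 / 5 * (4 * w 0 ^ 3 * w 1 - 4 * w 0 * w 1 ^ 3) +
      27 / 40 * (6 * w 0 ^ 5 * w 1 - 20 * w 0 ^ 3 * w 1 ^ 3 + 6 * w 0 * w 1 ^ 5) : ℝ) : ℂ) *
        Complex.I := by
      unfold zt2
      push_cast
      have hI2 := Complex.I_sq
      have hI4 : Complex.I ^ 4 = 1 := Complex.I_pow_four
      have hI3 : Complex.I ^ 3 = -Complex.I := by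
        linear_combination Complex.I * hI2
      have hI5 : Complex.I ^ 5 = Complex.I := by
        linear_combination Complex.I * hI4
      have hI6 : Complex.I ^ 6 = -1 := by
        linear_combination Complex.I ^ 2 * hI4 + hI2
      ring_nf
      rw [hI2, hI3, hI4, hI5, hI6]
      ring
    rw [e2]
    simp only [Complex.add_re, Complex.ofReal_re, Complex.re_ofReal_mul, Complex.I_re, mul_zero,
      add_zero]
  rw [e]
  unfold G1 G2 tp tq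
  simp only [PiLp.neg_apply]
  linear_combination (2 * eps ^ 2 * (27 / 40 * w 1 ^ 4 - 54 / 5 * w 0 ^ 2 * w 1 ^ 2 +
    3 / 40 * w 1 ^ 2 - 27 / 40 * w 0 ^ 4 - 19 / 40 * w 0 ^ 2 - 1 / 5)) * hn

lemma integrableOn_ann2 {G : EuclideanSpace ℝ (Fin 2) → ℝ} {r : ℝ} (hG : Continuous G) :
    IntegrableOn (fun y : EuclideanSpace ℝ (Fin 2) => G (‖y‖⁻¹ • y))
      (ann (EuclideanSpace ℝ (Fin 2)) r) volume := by
  have := integrableOn_ann (E := EuclideanSpace ℝ (Fin 2)) (r := r)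
    (G := G) (g := fun _ => 1) hG.continuousOn continuousOn_const
  simpa using this

lemma integrableOn_annC2 {G : EuclideanSpace ℝ (Fin 2) → ℂ} {r : ℝ} (hG : Continuous G) :
    IntegrableOn (fun y : EuclideanSpace ℝ (Fin 2) => G (‖y‖⁻¹ • y))
      (ann (EuclideanSpace ℝ (Fin 2)) r) volume := by
  have h1 := integrableOn_ann (E := EuclideanSpace ℝ (Fin 2)) (r := r)
    (G := fun w => (G w).re) (g := fun _ => 1)
    (Complex.continuous_re.comp hG).continuousOn continuousOn_const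
  have h2 := integrableOn_ann (E := EuclideanSpace ℝ (Fin 2)) (r := r)
    (G := fun w => (G w).im) (g := fun _ => 1)
    (Complex.continuous_im.comp hG).continuousOn continuousOn_const
  have h3 := (h1.ofReal (𝕜 := ℂ)).add ((h2.ofReal (𝕜 := ℂ)).mul_const Complex.I)
  refine h3.congr (Filter.Eventually.of_forall fun y => ?_)
  simp [Complex.re_add_im]

lemma volume_ann2 : 0 < (volume (ann (EuclideanSpace ℝ (Fin 2)) 1)).toReal ∧
    (volume (ann (EuclideanSpace ℝ (Fin 2)) 1)) ≠ ∞ := by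
  have hfin : (volume (ann (EuclideanSpace ℝ (Fin 2)) 1)) ≠ ∞ := by
    have : ann (EuclideanSpace ℝ (Fin 2)) 1 ⊆ closedBall 0 2 := by
      intro y hy
      rw [mem_closedBall_zero_iff]
      have := hy.2
      linarith
    exact ((measure_mono this).trans_lt measure_closedBall_lt_top).ne
  refine ⟨ENNReal.toReal_pos ?_ hfin, hfin⟩
  have hopen : IsOpen {y : EuclideanSpace ℝ (Fin 2) | 1 < ‖y‖ ∧ ‖y‖ < 2} :=
    (isOpen_lt continuous_const continuous_norm).inter (isOpen_lt continuous_norm continuous_const)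
  have hne : {y : EuclideanSpace ℝ (Fin 2) | 1 < ‖y‖ ∧ ‖y‖ < 2}.Nonempty := by
    refine ⟨(3 / 2 : ℝ) • EuclideanSpace.single 0 1, ?_⟩
    simp only [mem_ofPred_eq, norm_smul, PiLp.norm_single]
    norm_num
  have hpos := hopen.measure_pos volume hne
  have hsub : {y : EuclideanSpace ℝ (Fin 2) | 1 < ‖y‖ ∧ ‖y‖ < 2} ⊆
      ann (EuclideanSpace ℝ (Fin 2)) 1 := by
    rintro y ⟨h1, h2⟩
    exact ⟨h1, by linarith⟩
  exact (hpos.trans_le (measure_mono hsub)).ne'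

/-- the integrals of the two densities differ -/
lemma G_int_ne : ∫ y in ann (EuclideanSpace ℝ (Fin 2)) 1, G1 (‖y‖⁻¹ • y) ≠
    ∫ y in ann (EuclideanSpace ℝ (Fin 2)) 1, G2 (‖y‖⁻¹ • y) := by
  have i1 := integrableOn_ann2 (r := 1) continuous_G1
  have i2 := integrableOn_ann2 (r := 1) (continuous_G1.comp continuous_neg)
  have i3 := integrableOn_ann2 (r := 1) continuous_G2
  have i4 := integrableOn_ann2 (r := 1) (continuous_G2.comp continuous_neg)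
  simp only [Function.comp_def] at i2 i4
  have neg : ∀ (F : EuclideanSpace ℝ (Fin 2) → ℝ),
      ∫ y in ann (EuclideanSpace ℝ (Fin 2)) 1, F (-(‖y‖⁻¹ • y)) =
      ∫ y in ann (EuclideanSpace ℝ (Fin 2)) 1, F (‖y‖⁻¹ • y) := by
    intro F
    have := integral_ann_comp (LinearIsometryEquiv.neg ℝ (E := EuclideanSpace ℝ (Fin 2))) 1
      (fun y => F (‖y‖⁻¹ • y))
    simpa using this
  have n1 := neg G1
  have n2 := neg G2
  have tot : ∫ y in ann (EuclideanSpace ℝ (Fin 2)) 1,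
      (G1 (‖y‖⁻¹ • y) + G1 (-(‖y‖⁻¹ • y)) - G2 (‖y‖⁻¹ • y) - G2 (-(‖y‖⁻¹ • y))) =
      -(2 / 5 * eps ^ 2) * (volume (ann (EuclideanSpace ℝ (Fin 2)) 1)).toReal := by
    have hform : ∀ y ∈ ann (EuclideanSpace ℝ (Fin 2)) 1,
        (G1 (‖y‖⁻¹ • y) + G1 (-(‖y‖⁻¹ • y)) - G2 (‖y‖⁻¹ • y) - G2 (-(‖y‖⁻¹ • y))) =
        -(2 / 5 * eps ^ 2) + Complex.reCLM ((2 * eps ^ 2 : ℂ) * ((-(11 / 40)) * zt2 (‖y‖⁻¹ • y) ^ 2 +
          (3 / 5) * zt2 (‖y‖⁻¹ • y) ^ 4 + (27 / 40) * zt2 (‖y‖⁻¹ • y) ^ 6)) := by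
      intro y hy
      have hy0 : y ≠ 0 := by
        rintro rfl
        have := hy.1
        rw [norm_zero] at this
        linarith
      rw [G_identity (unit_of_ne hy0), Complex.reCLM_apply]
      have : (2 * eps ^ 2 : ℂ) = ((2 * eps ^ 2 : ℝ) : ℂ) := by push_cast; ring
      rw [this, Complex.re_ofReal_mul]
      ring
    rw [setIntegral_congr_fun (measurableSet_ann 1) hform]
    have j2 := integrableOn_annC2 (r := 1) (G := fun w => zt2 w ^ 2) (continuous_zt2.pow 2)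
    have j4 := integrableOn_annC2 (r := 1) (G := fun w => zt2 w ^ 4) (continuous_zt2.pow 4)
    have j6 := integrableOn_annC2 (r := 1) (G := fun w => zt2 w ^ 6) (continuous_zt2.pow 6)
    have jj := (((j2.const_mul (-(11 / 40) : ℂ)).fun_add (j4.const_mul (3 / 5 : ℂ))).fun_add
      (j6.const_mul (27 / 40 : ℂ)))
    have jc := jj.const_mul (2 * eps ^ 2 : ℂ)
    have jr : IntegrableOn (fun y : EuclideanSpace ℝ (Fin 2) =>
        Complex.reCLM ((2 * eps ^ 2 : ℂ) * ((-(11 / 40)) * zt2 (‖y‖⁻¹ • y) ^ 2 +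
          (3 / 5) * zt2 (‖y‖⁻¹ • y) ^ 4 + (27 / 40) * zt2 (‖y‖⁻¹ • y) ^ 6)))
        (ann (EuclideanSpace ℝ (Fin 2)) 1) := Complex.reCLM.integrable_comp jc
    have jconst : IntegrableOn (fun _ : EuclideanSpace ℝ (Fin 2) => -(2 / 5 * eps ^ 2))
        (ann (EuclideanSpace ℝ (Fin 2)) 1) := integrableOn_const volume_ann2.2
    rw [integral_add jconst jr, ContinuousLinearMap.integral_comp_comm Complex.reCLM jc,
      integral_const_mul, integral_add ((j2.const_mul (-(11 / 40) : ℂ)).fun_add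
        (j4.const_mul (3 / 5 : ℂ))) (j6.const_mul (27 / 40 : ℂ)),
      integral_add (j2.const_mul (-(11 / 40) : ℂ)) (j4.const_mul (3 / 5 : ℂ)),
      integral_const_mul, integral_const_mul, integral_const_mul,
      mode_vanish2 2 (by norm_num), mode_vanish2 4 (by norm_num), mode_vanish2 6 (by norm_num)]
    simp [Measure.real]
    ring
  rw [integral_sub ((i1.fun_add i2).fun_sub i3) i4, integral_sub (i1.fun_add i2) i3,
    integral_add i1 i2, n1, n2] at tot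
  intro heq
  rw [heq] at tot
  have hv := volume_ann2.1
  have he : (0 : ℝ) < eps := by unfold eps; norm_num
  have : 0 < 2 / 5 * eps ^ 2 * (volume (ann (EuclideanSpace ℝ (Fin 2)) 1)).toReal := by positivity
  linarith

/-- volume of the planar bodies from the densities -/
lemma vol_planar (κ : ℂ) (hz : ∀ x, ‖lf2 1 0 x‖ ^ 2 + ‖lf2 0 κ x‖ ^ 2 ≤ ‖x‖ ^ 2)
    (G : EuclideanSpace ℝ (Fin 2) → ℝ) (hGc : Continuous G)
    (hG : ∀ w : EuclideanSpace ℝ (Fin 2), ‖w‖ = 1 → 0 < G w)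
    (hpos : ∀ w : EuclideanSpace ℝ (Fin 2), ‖w‖ = 1 → 0 < 1 + hf (lf2 1 0) (lf2 0 κ) w)
    (hGf : ∀ w : EuclideanSpace ℝ (Fin 2), ‖w‖ = 1 → (1 + hf (lf2 1 0) (lf2 0 κ) w) *
      (1 + (ent (fderiv ℝ (Xf (lf2 1 0) (lf2 0 κ)) w) 0 0 +
        ent (fderiv ℝ (Xf (lf2 1 0) (lf2 0 κ)) w) 1 1)) = G w) :
    (volume (body (hf (lf2 1 0) (lf2 0 κ)) 1)).toReal =
      (1 / 3) * ∫ y in ann (EuclideanSpace ℝ (Fin 2)) 1, G (‖y‖⁻¹ • y) := by
  have hd := mkP_diff (lf2 1 0) (lf2 0 κ) hz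
  have h1 := (mkP (lf2 1 0) (lf2 0 κ) hz).vol_Psi hd hpos G hG
    (by
      intro y hy
      rw [(mkP (lf2 1 0) (lf2 0 κ) hz).det_DPsi2 hd (fun w hw => sym_two _ _ hw) hy]
      exact hGf _ (unit_of_ne hy))
    (by
      apply ContinuousOn.aestronglyMeasurable _ measurableSet_pb
      apply hGc.comp_continuousOn
      exact (continuous_norm.continuousOn.inv₀ fun y hy => (ne_of_gt hy.1)).smul
        continuousOn_id)
  have h2 := polar_pb (E := EuclideanSpace ℝ (Fin 2)) G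
  have h3 := polar_ann (E := EuclideanSpace ℝ (Fin 2)) G (fun _ => 1) (r := 1) zero_le_one
  simp only [one_mul, mul_one] at h3
  have hfr : finrank ℝ (EuclideanSpace ℝ (Fin 2)) - 1 = 1 := by simp
  rw [hfr] at h2 h3
  simp only [pow_one] at h2 h3
  rw [integral_id] at h2 h3
  have h4 : (mkP (lf2 1 0) (lf2 0 κ) hz).h = hf (lf2 1 0) (lf2 0 κ) := rfl
  rw [h4] at h1
  rw [h1, h2, h3]
  ring

lemma coord_bounds {w : EuclideanSpace ℝ (Fin 2)} (hw : ‖w‖ = 1) :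
    0 ≤ w 0 ^ 2 ∧ w 0 ^ 2 ≤ 1 ∧ 0 ≤ w 1 ^ 2 ∧ w 1 ^ 2 ≤ 1 ∧ -1 ≤ w 1 ∧ w 1 ≤ 1 := by
  have hn : w 0 ^ 2 + w 1 ^ 2 = 1 := by
    have := EuclideanSpace.real_norm_sq_eq w
    rw [hw, Fin.sum_univ_two] at this
    linarith
  have h0 := sq_nonneg (w 0)
  have h1 := sq_nonneg (w 1)
  refine ⟨h0, by linarith, h1, by linarith, ?_, ?_⟩ <;> nlinarith

lemma poly_bounds {w : EuclideanSpace ℝ (Fin 2)} (hw : ‖w‖ = 1) :
    |w 0 ^ 2 * w 1| ≤ 1 ∧ |w 0 ^ 4 * w 1 ^ 2| ≤ 1 ∧ |tp (w 0) (w 1)| ≤ 10 ∧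
      |tq (w 0) (w 1)| ≤ 49 := by
  obtain ⟨h1, h2, h3, h4, h5, h6⟩ := coord_bounds hw
  have a1 : |w 1| ≤ 1 := abs_le.2 ⟨h5, h6⟩
  have b1 : |w 0 ^ 2| ≤ 1 := by rw [abs_of_nonneg h1]; exact h2
  have b2 : |w 1 ^ 2| ≤ 1 := by rw [abs_of_nonneg h3]; exact h4
  have c1 : |w 0 ^ 2 * w 1| ≤ 1 := by
    rw [abs_mul]
    exact mul_le_one₀ b1 (abs_nonneg _) a1
  have c2 : |w 0 ^ 2 * w 1 ^ 2| ≤ 1 := by
    rw [abs_mul]
    exact mul_le_one₀ b1 (abs_nonneg _) b2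
  have c4 : |w 0 ^ 4| ≤ 1 := by
    have : w 0 ^ 4 = w 0 ^ 2 * w 0 ^ 2 := by ring
    rw [this, abs_mul]
    exact mul_le_one₀ b1 (abs_nonneg _) b1
  have c3 : |w 0 ^ 4 * w 1 ^ 2| ≤ 1 := by
    rw [abs_mul]
    exact mul_le_one₀ c4 (abs_nonneg _) b2
  refine ⟨c1, c3, ?_, ?_⟩
  · unfold tp
    have := abs_le.1 c1
    rw [abs_le]
    constructor <;> linarith
  · unfold tq
    have := abs_le.1 c2
    have := abs_le.1 c3
    have := abs_le.1 c4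
    rw [abs_le]
    constructor <;> linarith

lemma norm_lf2_le (κ : ℂ) (hκ : ‖κ‖ = 1) (x : EuclideanSpace ℝ (Fin 2)) :
    ‖lf2 1 0 x‖ ^ 2 + ‖lf2 0 κ x‖ ^ 2 ≤ ‖x‖ ^ 2 := by
  have h := EuclideanSpace.real_norm_sq_eq x
  rw [Fin.sum_univ_two] at h
  have e1 : lf2 1 0 x = (x 0 : ℂ) := by rw [lf2_apply]; ring
  have e2 : lf2 0 κ x = κ * (x 1 : ℂ) := by rw [lf2_apply]; ring
  rw [e1, e2, norm_mul, hκ, one_mul, Complex.norm_real, Complex.norm_real, Real.norm_eq_abs,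
    Real.norm_eq_abs, sq_abs, sq_abs, h]

/-- The two planar bodies have different areas. -/
lemma planar_ne : (volume (body (hf (lf2 1 0) (lf2 0 1)) 1)).toReal ≠
    (volume (body (hf (lf2 1 0) (lf2 0 Complex.I)) 1)).toReal := by
  have he : (0 : ℝ) < eps := by unfold eps; norm_num
  have he1 : eps = 1 / 100 := rfl
  have hI : (Complex.I) ^ 2 = -1 := Complex.I_sq
  have H1 : ∀ w : EuclideanSpace ℝ (Fin 2), hf (lf2 1 0) (lf2 0 1) w =
      eps * (w 0 ^ 2 * w 1) + eps ^ 2 / 5 * (w 0 ^ 4 * w 1 ^ 2) := by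
    intro w
    rw [hf_two, one_mul, one_pow, one_mul, Complex.ofReal_re, Complex.ofReal_re]
  have H2 : ∀ w : EuclideanSpace ℝ (Fin 2), hf (lf2 1 0) (lf2 0 Complex.I) w =
      -(eps ^ 2 / 5 * (w 0 ^ 4 * w 1 ^ 2)) := by
    intro w
    rw [hf_two, hI]
    have : (-1 : ℂ) * ((w 0 ^ 4 * w 1 ^ 2 : ℝ) : ℂ) = ((-(w 0 ^ 4 * w 1 ^ 2) : ℝ) : ℂ) := by
      push_cast; ring
    rw [this, Complex.ofReal_re, Complex.I_mul_re, Complex.ofReal_im]
    ring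
  have T1 : ∀ w : EuclideanSpace ℝ (Fin 2), ‖w‖ = 1 →
      ent (fderiv ℝ (Xf (lf2 1 0) (lf2 0 1)) w) 0 0 +
        ent (fderiv ℝ (Xf (lf2 1 0) (lf2 0 1)) w) 1 1 =
      eps * tp (w 0) (w 1) + eps ^ 2 / 5 * tq (w 0) (w 1) := by
    intro w hw
    rw [trace_two 1 hw, one_mul, one_pow, one_mul, Complex.ofReal_re, Complex.ofReal_re]
  have T2 : ∀ w : EuclideanSpace ℝ (Fin 2), ‖w‖ = 1 →
      ent (fderiv ℝ (Xf (lf2 1 0) (lf2 0 Complex.I)) w) 0 0 +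
        ent (fderiv ℝ (Xf (lf2 1 0) (lf2 0 Complex.I)) w) 1 1 =
      -(eps ^ 2 / 5 * tq (w 0) (w 1)) := by
    intro w hw
    rw [trace_two Complex.I hw, hI]
    have : (-1 : ℂ) * ((tq (w 0) (w 1) : ℝ) : ℂ) = ((-(tq (w 0) (w 1)) : ℝ) : ℂ) := by
      push_cast; ring
    rw [this, Complex.ofReal_re, Complex.I_mul_re, Complex.ofReal_im]
    ring
  have h1 : ∀ w : EuclideanSpace ℝ (Fin 2), ‖w‖ = 1 →
      0 < 1 + (eps * (w 0 ^ 2 * w 1) + eps ^ 2 / 5 * (w 0 ^ 4 * w 1 ^ 2)) := by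
    intro w hw
    obtain ⟨b1, b2, _, _⟩ := poly_bounds hw
    have b1' := abs_le.1 b1
    have b2' := abs_le.1 b2
    rw [he1]
    linarith
  have h2 : ∀ w : EuclideanSpace ℝ (Fin 2), ‖w‖ = 1 →
      0 < 1 - eps ^ 2 / 5 * (w 0 ^ 4 * w 1 ^ 2) := by
    intro w hw
    obtain ⟨b1, b2, _, _⟩ := poly_bounds hw
    have b2' := abs_le.1 b2
    rw [he1]
    linarith
  have t1 : ∀ w : EuclideanSpace ℝ (Fin 2), ‖w‖ = 1 →
      0 < 1 + (eps * tp (w 0) (w 1) + eps ^ 2 / 5 * tq (w 0) (w 1)) := by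
    intro w hw
    obtain ⟨_, _, b3, b4⟩ := poly_bounds hw
    have b3' := abs_le.1 b3
    have b4' := abs_le.1 b4
    rw [he1]
    linarith
  have t2 : ∀ w : EuclideanSpace ℝ (Fin 2), ‖w‖ = 1 →
      0 < 1 - eps ^ 2 / 5 * tq (w 0) (w 1) := by
    intro w hw
    obtain ⟨_, _, b3, b4⟩ := poly_bounds hw
    have b4' := abs_le.1 b4
    rw [he1]
    linarith
  have v1 := vol_planar 1 (norm_lf2_le 1 (by simp)) G1 continuous_G1
    (fun w hw => mul_pos (h1 w hw) (t1 w hw))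
    (fun w hw => by rw [H1]; exact h1 w hw)
    (fun w hw => by rw [H1, T1 w hw]; rfl)
  have v2 := vol_planar Complex.I (norm_lf2_le Complex.I (by simp)) G2 continuous_G2
    (fun w hw => mul_pos (h2 w hw) (t2 w hw))
    (fun w hw => by rw [H2]; have := h2 w hw; linarith)
    (fun w hw => by rw [H2, T2 w hw]; unfold G2; ring)
  rw [v1, v2]
  intro h
  apply G_int_ne
  linarith

end Pool.Agent.Lib.MP_536123_gt
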