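import Mathlib
import Pool.Agent.Lib.MP_536123_gt.Two

set_option autoImplicit false

open MeasureTheory Set Metric Module Filter Topology
open scoped RealInnerProductSpace ENNReal

namespace Pool.Agent.Lib.MP_536123_gt

lemma PData.body_nonempty {F : Type*} [NormedAddCommGroup F] [InnerProductSpace ℝ F]
    [Nontrivial F] (P : PData F) : (body P.h 1).Nonempty := by
  obtain ⟨x, hx⟩ := exists_ne (0 : F)
  exact ⟨_, P.smul_add_mem_body (unit_of_ne hx) le_rfl le_rfl⟩

/-- The projection of the body onto a subspace, in isometric coordinates. -/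
lemma PData.proj_body {F : Type*} [NormedAddCommGroup F] [InnerProductSpace ℝ F]
    [FiniteDimensional ℝ F] [Nontrivial F] (P : PData F) (S : Submodule ℝ F)
    {E : Type*} [NormedAddCommGroup E] [InnerProductSpace ℝ E] (L : E ≃ₗᵢ[ℝ] S) :
    S.orthogonalProjectionOnto '' (body P.h 1) = L '' (body (fun v : E => P.h (L v)) 1) := by
  apply Subset.antisymm
  · rintro _ ⟨x, hx, rfl⟩
    refine ⟨L.symm (S.orthogonalProjectionOnto x), ?_, by simp⟩
    intro w hw
    have h1 : ⟪L.symm (S.orthogonalProjectionOnto x), w⟫ = ⟪x, (L w : F)⟫ := by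
      rw [← L.inner_map_map, LinearIsometryEquiv.apply_symm_apply,
        Submodule.inner_orthogonalProjectionOnto_eq_of_mem_right]
    rw [h1]
    apply hx
    have h2 : ‖L w‖ = 1 := by rw [L.norm_map, hw]
    exact h2
  · rintro _ ⟨v, hv, rfl⟩
    by_contra hcon
    have hconv : Convex ℝ (S.orthogonalProjectionOnto '' (body P.h 1)) :=
      (convex_body P.h 1).is_linear_image S.orthogonalProjectionOnto.isBoundedLinearMap.toIsLinearMap
    have hcl : IsClosed (S.orthogonalProjectionOnto '' (body P.h 1)) :=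
      ((P.isCompact_body 1).image S.orthogonalProjectionOnto.continuous).isClosed
    obtain ⟨f, u, hf1, hf2⟩ := geometric_hahn_banach_closed_point hconv hcl hcon
    set z := (InnerProductSpace.toDual ℝ S).symm f with hz
    have hfz : ∀ y, f y = ⟪z, y⟫ := by
      intro y
      rw [hz, InnerProductSpace.toDual_symm_apply]
    have hz0 : z ≠ 0 := by
      intro h0
      obtain ⟨x, hx⟩ := P.body_nonempty
      have h1 := hf1 _ ⟨x, hx, rfl⟩
      rw [hfz, h0, inner_zero_left] at h1
      rw [hfz, h0, inner_zero_left] at hf2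
      linarith
    have hwu : ‖(‖z‖⁻¹ • z)‖ = 1 := unit_of_ne hz0
    set w := ‖z‖⁻¹ • z with hw
    have hzw : z = ‖z‖ • w := by
      rw [hw, smul_smul, mul_inv_cancel₀ (norm_ne_zero_iff.2 hz0), one_smul]
    have hwF : ‖(w : F)‖ = 1 := hwu
    have hmem := P.smul_add_mem_body hwF (le_refl (1 : ℝ)) le_rfl
    have h1 := hf1 _ ⟨_, hmem, rfl⟩
    have h2 : f (S.orthogonalProjectionOnto ((1 : ℝ) • (w : F) + P.X w)) = ‖z‖ * (1 + P.h w) := by
      rw [hfz]
      conv_lhs => rw [hzw]
      rw [real_inner_smul_left, Submodule.inner_orthogonalProjectionOnto_eq_of_mem_left,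
        real_inner_comm, P.inner_self' hwF]
    have h3 : f (L v) ≤ ‖z‖ * (1 + P.h w) := by
      rw [hfz]
      conv_lhs => rw [hzw]
      rw [real_inner_smul_left]
      apply mul_le_mul_of_nonneg_left _ (norm_nonneg _)
      have h4 : ⟪w, L v⟫ = ⟪v, L.symm w⟫ := by
        rw [real_inner_comm, ← L.inner_map_map v (L.symm w), LinearIsometryEquiv.apply_symm_apply]
      rw [h4]
      have h5 := hv (L.symm w) (by rw [L.symm.norm_map, hwu])
      simpa using h5
    linarith

lemma cthickening_image {E F : Type*} [NormedAddCommGroup E] [InnerProductSpace ℝ E]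
    [NormedAddCommGroup F] [InnerProductSpace ℝ F] (L : E ≃ₗᵢ[ℝ] F) (r : ℝ) (K : Set E) :
    cthickening r (L '' K) = L '' (cthickening r K) := by
  ext y
  rw [mem_cthickening_iff]
  constructor
  · intro h
    refine ⟨L.symm y, ?_, by simp⟩
    rw [mem_cthickening_iff]
    have := L.isometry
    have h2 : infEDist (L (L.symm y)) (L '' K) = infEDist (L.symm y) K :=
      Metric.infEDist_image L.isometry
    rw [LinearIsometryEquiv.apply_symm_apply] at h2
    rwa [← h2]
  · rintro ⟨x, hx, rfl⟩
    rw [Metric.infEDist_image L.isometry]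
    exact hx

lemma volume_image {E F : Type*} [NormedAddCommGroup E] [InnerProductSpace ℝ E]
    [FiniteDimensional ℝ E] [MeasurableSpace E] [BorelSpace E]
    [NormedAddCommGroup F] [InnerProductSpace ℝ F] [FiniteDimensional ℝ F] [MeasurableSpace F]
    [BorelSpace F] (L : E ≃ₗᵢ[ℝ] F) (K : Set E) :
    volume (L '' K) = volume K := by
  have h := L.symm.measurePreserving.measure_preimage_equiv (f := L.symm.toMeasurableEquiv) K
  rw [← h]
  congr 1
  ext y
  simp only [mem_image, mem_preimage]
  constructor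
  · rintro ⟨x, hx, rfl⟩
    simpa using hx
  · intro hy
    exact ⟨L.symm y, hy, by simp⟩

end Pool.Agent.Lib.MP_536123_gt
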